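import Pool.Agent.Y265.RW.Bes

/-! Explicit formula for the covariances. -/
set_option autoImplicit false
open Filter Topology Complex MeasureTheory intervalIntegral
open scoped ENNReal lp Interval

namespace Pool.Agent.Y265.RW

noncomputable section

/-- the symbol of `h(∂x - i∂y)` at the direction `α` -/
def sy (α : ℝ) : ℂ := I * Complex.exp (-(α : ℂ) * I)

/-- `w · (cos α, sin α)` -/
def rr (w : ℂ) (α : ℝ) : ℝ := w.re * Real.cos α + w.im * Real.sin α

def yy (w : ℂ) (t : ℝ) (b : ℤ) : ℂ :=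
  (1 / (2 * Real.pi) : ℝ) * ∫ α in (0:ℝ)..(2 * Real.pi), sy α ^ b * Complex.exp (t * (rr w α) * I)

lemma sy_ne (α : ℝ) : sy α ≠ 0 := mul_ne_zero I_ne_zero (Complex.exp_ne_zero _)

lemma sy_norm (α : ℝ) : ‖sy α‖ = 1 := by
  unfold sy
  rw [norm_mul, Complex.norm_I, one_mul, show -(α : ℂ) * I = ((-α : ℝ) : ℂ) * I by push_cast; ring,
    Complex.norm_exp_ofReal_mul_I]

lemma sy_cont (b : ℤ) : Continuous (fun α => sy α ^ b) := by
  have h1 : Continuous sy := by unfold sy; fun_prop
  exact h1.zpow₀ b (fun α => Or.inl (sy_ne α))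

lemma rr_cont (w : ℂ) : Continuous (rr w) := by unfold rr; fun_prop

lemma sy_symb (w : ℂ) (α : ℝ) : (rr w α : ℂ) * I = (w * sy α - (starRingEnd ℂ) w * (sy α)⁻¹) / 2 := by
  have e1 : sy α = I * (Real.cos α - Real.sin α * I) := by
    unfold sy
    rw [show -(α : ℂ) * I = ((-α : ℝ) : ℂ) * I by push_cast; ring, Complex.exp_mul_I]
    push_cast
    rw [Complex.cos_neg, Complex.sin_neg]; ring
  have hc : (Real.cos α : ℂ) ^ 2 + (Real.sin α : ℂ) ^ 2 = 1 := by
    have := Real.sin_sq_add_cos_sq α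
    have h2 : ((Real.sin α ^ 2 + Real.cos α ^ 2 : ℝ) : ℂ) = 1 := by rw [this]; simp
    push_cast at h2
    push_cast
    linear_combination h2
  have e2 : (sy α)⁻¹ = -I * (Real.cos α + Real.sin α * I) := by
    rw [inv_eq_iff_eq_inv, eq_comm, inv_eq_of_mul_eq_one_right]
    rw [e1]
    have hI : I * I = -1 := Complex.I_mul_I
    have hI2 : I ^ 2 = -1 := Complex.I_sq
    linear_combination (-(Real.cos α : ℂ)^2 + (Real.sin α : ℂ)^2 * I * I) * hI + hc +
      (Real.sin α : ℂ)^2 * (-1) * (hI2 : (I:ℂ)^2 = -1)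
  rw [e2, e1]
  have hw : w = w.re + w.im * I := (Complex.re_add_im w).symm
  have hcw : (starRingEnd ℂ) w = w.re - w.im * I := by apply Complex.ext <;> simp
  rw [hcw]
  nth_rewrite 2 [hw]
  unfold rr
  push_cast
  have hI : I * I = -1 := Complex.I_mul_I
  have hI2 : I ^ 2 = -1 := Complex.I_sq
  ring_nf
  simp only [show (I:ℂ)^3 = -I by rw [pow_succ, hI2]; ring]
  ring

lemma rr_bound (w : ℂ) (α : ℝ) : |rr w α| ≤ |w.re| + |w.im| := by
  unfold rr
  refine (abs_add_le _ _).trans ?_
  rw [abs_mul, abs_mul]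
  have h1 := Real.abs_cos_le_one α
  have h2 := Real.abs_sin_le_one α
  nlinarith [abs_nonneg w.re, abs_nonneg w.im]

lemma ex_norm (t r : ℝ) : ‖Complex.exp (t * r * I)‖ = 1 := by
  rw [show (t : ℂ) * r * I = ((t * r : ℝ) : ℂ) * I by push_cast; ring,
    Complex.norm_exp_ofReal_mul_I]

lemma ex_cont (w : ℂ) (t : ℝ) : Continuous (fun α => Complex.exp (t * (rr w α) * I)) := by
  have := rr_cont w
  fun_prop

lemma yy_deriv (w : ℂ) (b : ℤ) (t : ℝ) : HasDerivAt (fun t => yy w t b)
    ((w * yy w t (b + 1) - (starRingEnd ℂ) w * yy w t (b - 1)) / 2) t := by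
  have hd := intervalIntegral.hasDerivAt_integral_of_dominated_loc_of_deriv_le
    (μ := volume) (a := 0) (b := 2 * Real.pi) (s := Set.univ) (x₀ := t)
    (F := fun (t : ℝ) (α : ℝ) => sy α ^ b * Complex.exp (t * (rr w α) * I))
    (F' := fun (t : ℝ) (α : ℝ) => sy α ^ b * (Complex.exp (t * (rr w α) * I) * ((rr w α) * I)))
    (bound := fun _ => |w.re| + |w.im|) Filter.univ_mem
    (Eventually.of_forall fun x => ((sy_cont b).mul (ex_cont w x)).aestronglyMeasurable)
    (((sy_cont b).mul (ex_cont w t)).intervalIntegrable _ _)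
    (((sy_cont b).mul ((ex_cont w t).mul ((Complex.continuous_ofReal.comp (rr_cont w)).mul
      continuous_const))).aestronglyMeasurable)
    (Eventually.of_forall fun α _ x _ => by
      rw [norm_mul, norm_zpow, sy_norm, one_zpow, one_mul, norm_mul, ex_norm, one_mul, norm_mul,
        Complex.norm_I, mul_one, Complex.norm_real, Real.norm_eq_abs]
      exact rr_bound w α)
    (continuous_const.intervalIntegrable _ _)
    (Eventually.of_forall fun α _ x _ => by
      have h1 : HasDerivAt (fun x : ℝ => (x : ℂ) * (rr w α) * I) ((rr w α) * I) x := by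
        have := ((Complex.ofRealCLM.hasDerivAt (x := x)).mul_const (rr w α : ℂ)).mul_const I
        simpa using this
      exact (h1.cexp).const_mul _)
  have h2 := hd.2.const_mul ((1 / (2 * Real.pi) : ℝ) : ℂ)
  refine h2.congr_deriv ?_
  unfold yy
  have i1 : IntervalIntegrable (fun α => sy α ^ (b+1) * Complex.exp (t * (rr w α) * I)) volume 0
    (2 * Real.pi) := ((sy_cont _).mul (ex_cont w t)).intervalIntegrable _ _
  have i2 : IntervalIntegrable (fun α => sy α ^ (b-1) * Complex.exp (t * (rr w α) * I)) volume 0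
    (2 * Real.pi) := ((sy_cont _).mul (ex_cont w t)).intervalIntegrable _ _
  have e : ∫ α in (0:ℝ)..(2 * Real.pi), sy α ^ b * (Complex.exp (t * (rr w α) * I) *
      ((rr w α) * I)) = (w * (∫ α in (0:ℝ)..(2 * Real.pi), sy α ^ (b+1) *
      Complex.exp (t * (rr w α) * I)) - (starRingEnd ℂ) w * ∫ α in (0:ℝ)..(2 * Real.pi),
      sy α ^ (b-1) * Complex.exp (t * (rr w α) * I)) / 2 := by
    rw [← intervalIntegral.integral_const_mul, ← intervalIntegral.integral_const_mul,
      ← intervalIntegral.integral_sub (i1.const_mul _) (i2.const_mul _),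
      ← intervalIntegral.integral_div]
    refine intervalIntegral.integral_congr (fun α _ => ?_)
    rw [sy_symb, zpow_add_one₀ (sy_ne α), zpow_sub_one₀ (sy_ne α)]
    ring
  rw [e]
  ring

lemma yy_bound (w : ℂ) (t : ℝ) (b : ℤ) : ‖yy w t b‖ ≤ 1 := by
  unfold yy
  have h1 : ‖∫ α in (0:ℝ)..(2 * Real.pi), sy α ^ b * Complex.exp (t * (rr w α) * I)‖ ≤
      1 * |2 * Real.pi - 0| := by
    refine intervalIntegral.norm_integral_le_of_norm_le_const (fun α _ => ?_)
    rw [norm_mul, norm_zpow, sy_norm, one_zpow, one_mul, ex_norm]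
  have hp := Real.pi_pos
  rw [norm_mul, Complex.norm_real, Real.norm_of_nonneg (by positivity)]
  rw [sub_zero, one_mul, abs_of_pos (by positivity)] at h1
  calc (1 / (2 * Real.pi)) * _ ≤ (1 / (2 * Real.pi)) * (2 * Real.pi) :=
        mul_le_mul_of_nonneg_left h1 (by positivity)
    _ = 1 := by field_simp

lemma yy_zero (w : ℂ) (b : ℤ) : yy w 0 b = if b = 0 then 1 else 0 := by
  unfold yy
  have hp := Real.pi_pos
  simp only [ofReal_zero, zero_mul, Complex.exp_zero, mul_one]
  by_cases hb : b = 0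
  · subst hb
    rw [if_pos rfl]
    simp only [zpow_zero, intervalIntegral.integral_const, sub_zero, real_smul, mul_one]
    push_cast
    have : (Real.pi : ℂ) ≠ 0 := by exact_mod_cast hp.ne'
    field_simp
  · rw [if_neg hb]
    have e : ∀ α : ℝ, sy α ^ b = I ^ b * Complex.exp ((-(b : ℂ) * I) * α) := by
      intro α
      unfold sy
      rw [mul_zpow, ← Complex.exp_int_mul]
      congr 2
      ring
    simp_rw [e]
    rw [intervalIntegral.integral_const_mul, integral_exp_mul_complex]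
    · have h1 : Complex.exp ((-(b : ℂ) * I) * ((2 * Real.pi : ℝ) : ℂ)) = 1 := by
        rw [Complex.exp_eq_one_iff]
        exact ⟨-b, by push_cast; ring⟩
      rw [h1]
      simp
    · have : (b : ℂ) ≠ 0 := by exact_mod_cast hb
      exact mul_ne_zero (neg_ne_zero.2 this) I_ne_zero

theorem cvv_eq (w : ℂ) (b : ℤ) : cvv w 1 b = yy w 1 b := by
  obtain ⟨Cx, hCx⟩ := cvv_bound w
  set e : ℤ → ℝ → ℂ := fun j t => cvv w t j - yy w t j with he
  have hd : ∀ j, ∀ t ∈ Set.Icc (0:ℝ) 1, HasDerivAt (e j)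
      ((w * e (j+1) t - (starRingEnd ℂ) w * e (j-1) t) / 2) t := by
    intro j t _
    refine ((cvv_deriv w j t).sub (yy_deriv w j t)).congr_deriv ?_
    simp only [he]; ring
  have hb : ∀ j, ∀ t ∈ Set.Icc (0:ℝ) 1,
      ‖(w * e (j+1) t - (starRingEnd ℂ) w * e (j-1) t) / 2‖ ≤
      (‖w‖ / 2) * (‖e (j+1) t‖ + ‖e (j-1) t‖) := by
    intro j t _
    rw [norm_div, Complex.norm_ofNat]
    have h1 := norm_sub_le (w * e (j+1) t) ((starRingEnd ℂ) w * e (j-1) t)
    rw [norm_mul, norm_mul, RCLike.norm_conj] at h1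
    rw [div_le_iff₀ (by norm_num)]
    linarith
  have key : ∀ K : ℕ, ‖e b 1‖ ≤ (Cx + 1) * (‖w‖ ^ K / K.factorial) := by
    intro K
    have := taylor_bound (norm_nonneg w) hd hb (le_refl (0:ℝ)) K b (C := Cx + 1)
      (fun j _ => by
        simp only [he]
        rw [cvv_zero, yy_zero, sub_self, norm_zero])
      (fun j _ t ht => (norm_sub_le _ _).trans (add_le_add (hCx t ht j) (yy_bound w t j)))
      1 ⟨zero_le_one, le_rfl⟩
    rw [mul_one, zero_mul, zero_add] at this
    rw [← mul_div_assoc]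
    exact this
  have hl := (FloorSemiring.tendsto_pow_div_factorial_atTop ‖w‖).const_mul (Cx + 1)
  rw [mul_zero] at hl
  have := ge_of_tendsto' hl key
  have h0 : e b 1 = 0 := norm_le_zero_iff.1 this
  simp only [he] at h0
  exact sub_eq_zero.1 h0

end

end Pool.Agent.Y265.RW
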