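import Pool.Agent.Y265.RW.Fn1
import Pool.Agent.Y265.RW.Bes2

/-! Null quartic statistics. -/
set_option autoImplicit false
open MeasureTheory Filter Topology Complex
open scoped ContDiff Manifold Convolution

namespace Pool.Agent.Y265.RW

open Pool.Agent.W745.RW

noncomputable section

/-- the constants of the null four point functions -/
def NC (w : Fin 4 → ℂ) (a b c d : ℤ) : ℂ :=
  KW (w 1 - w 0) (a+2) (b+2) * KW (w 3 - w 2) c d -
    2 * KW (w 1 - w 0) (a+1) (b+1) * KW (w 3 - w 2) (c+1) (d+1) +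
    KW (w 1 - w 0) a b * KW (w 3 - w 2) (c+2) (d+2)

theorem four_null {Ω : Set ℂ} (hΩ : IsOpen Ω) {h : ℕ → ℝ} {u : ℕ → ℂ → ℝ} (hS : Sys Ω h u)
    {φ : ℂ → ℝ} (hφ : TF Ω φ) (w : Fin 4 → ℂ) (a b c d : ℤ) :
    Tendsto (fun n => ∫ z, (φ z : ℂ) *
      (WW h u n (a+2) (z + (h n : ℂ) * w 0) * WW h u n (b+2) (z + (h n : ℂ) * w 1) *
        (WW h u n c (z + (h n : ℂ) * w 2) * WW h u n d (z + (h n : ℂ) * w 3)) -
      2 * (WW h u n (a+1) (z + (h n : ℂ) * w 0) * WW h u n (b+1) (z + (h n : ℂ) * w 1)) *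
        (WW h u n (c+1) (z + (h n : ℂ) * w 2) * WW h u n (d+1) (z + (h n : ℂ) * w 3)) +
      WW h u n a (z + (h n : ℂ) * w 0) * WW h u n b (z + (h n : ℂ) * w 1) *
        (WW h u n (c+2) (z + (h n : ℂ) * w 2) * WW h u n (d+2) (z + (h n : ℂ) * w 3)))) atTop
      (𝓝 (NC w a b c d * (∫ z, φ z : ℝ))) := by
  set R := ‖w 0‖ + ‖w 1‖ + ‖w 2‖ + ‖w 3‖ with hR
  have hR0 : 0 ≤ R := by positivity
  have q0 := norm_nonneg (w 0)
  have q1 := norm_nonneg (w 1)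
  have q2 := norm_nonneg (w 2)
  have q3 := norm_nonneg (w 3)
  obtain ⟨N, B, L, cf, hφB⟩ := exists_cfg hΩ hS.hlim hφ R hR0
  have hS' := Sys.shift hS N
  have b0 : ‖w 0‖ ≤ R := by linarith
  have b1 : ‖w 1‖ ≤ R := by linarith
  have b2 : ‖w 2‖ ≤ R := by linarith
  have b3 : ‖w 3‖ ≤ R := by linarith
  have b10 : ‖w 1 - w 0‖ ≤ R := by
    have := norm_sub_le (w 1) (w 0)
    linarith
  have b32 : ‖w 3 - w 2‖ ≤ R := by
    have := norm_sub_le (w 3) (w 2)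
    linarith
  have f0 := famV cf hS' b0
  have f1 := famV cf hS' b1
  have f2 := famV cf hS' b2
  have f3 := famV cf hS' b3
  have p0 := Unit2.of_pair f0 (pairVV cf hS' b0)
  have p1 := Unit2.of_pair f1 (pairVV cf hS' b1)
  have p2 := Unit2.of_pair f2 (pairVV cf hS' b2)
  have p3 := Unit2.of_pair f3 (pairVV cf hS' b3)
  refine (tendsto_add_atTop_iff_nat N).1 ?_
  exact null_lim cf.oB (fun n => (hS.sol (n + N)).hpos.ne') f0 f1 f2 f3 p0 p1 p2 p3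
    (pairV cf hS' b0 b1 b10) (pairV cf hS' b2 b3 b32) hφB a b c d

lemma W2_eq (h : ℝ) (u : ℂ → ℝ) (z : ℂ) : W h u 2 z = Dp h (Dp h (fun w => (u w : ℂ))) z := rfl

/-- `|h² (∂x - i∂y)² u|² = u² - 4 h⁴ det D²u` -/
lemma W2_norm {B : Set ℂ} (hB : IsOpen B) {h : ℝ} {u : ℂ → ℝ} (hS : Sol B h u) {z : ℂ}
    (hz : z ∈ B) : ‖W h u 2 z‖ ^ 2 =
      u z ^ 2 - 4 * (h ^ 4 * (dx (dx u) z * dy (dy u) z - dx (dy u) z ^ 2)) := by
  have hsx : ContDiffOn ℝ ∞ (dx u) B := Pool.Agent.W924.RW.WP.dx_smooth hB hS.smooth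
  have hsy : ContDiffOn ℝ ∞ (dy u) B := Pool.Agent.W924.RW.WP.dy_smooth hB hS.smooth
  have dU : ∀ y ∈ B, DifferentiableAt ℝ u y := fun y hy =>
    (hS.smooth.contDiffAt (hB.mem_nhds hy)).differentiableAt (by simp)
  have e : ∀ y ∈ B, Dp h (fun w => (u w : ℂ)) y = ((h * dx u y : ℝ) : ℂ) - I * ((h * dy u y : ℝ) : ℂ) := by
    intro y hy
    unfold Dp dx dy
    rw [ofReal_fderiv' (dU y hy), ofReal_fderiv' (dU y hy)]
    push_cast; ring
  have e2 : Dp h (Dp h (fun w => (u w : ℂ))) z = Dp h (fun y => ((h * dx u y : ℝ) : ℂ) -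
      I * ((h * dy u y : ℝ) : ℂ)) z := Pool.Agent.W924.RW.WP.Dp_congr hB e hz
  have dX : DifferentiableAt ℝ (fun y => h * dx u y) z :=
    (((hsx.contDiffAt (hB.mem_nhds hz)).differentiableAt (by simp))).const_mul h
  have dY : DifferentiableAt ℝ (fun y => h * dy u y) z :=
    (((hsy.contDiffAt (hB.mem_nhds hz)).differentiableAt (by simp))).const_mul h
  have f1 : ∀ v, fderiv ℝ (fun y => ((h * dx u y : ℝ) : ℂ) - I * ((h * dy u y : ℝ) : ℂ)) z v =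
      ((h * fderiv ℝ (dx u) z v : ℝ) : ℂ) - I * ((h * fderiv ℝ (dy u) z v : ℝ) : ℂ) := by
    intro v
    have g1 : HasFDerivAt (fun y => ((h * dx u y : ℝ) : ℂ))
        (ofRealCLM.comp (fderiv ℝ (fun y => h * dx u y) z)) z :=
      ofRealCLM.hasFDerivAt.comp z dX.hasFDerivAt
    have g2 : HasFDerivAt (fun y => ((h * dy u y : ℝ) : ℂ))
        (ofRealCLM.comp (fderiv ℝ (fun y => h * dy u y) z)) z :=
      ofRealCLM.hasFDerivAt.comp z dY.hasFDerivAt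
    have g3 := (g1.sub (g2.const_mul I)).fderiv
    change fderiv ℝ (fun y => ((h * dx u y : ℝ) : ℂ) - I * ((h * dy u y : ℝ) : ℂ)) z = _ at g3
    rw [g3]
    have k1 : fderiv ℝ (fun y => h * dx u y) z = h • fderiv ℝ (dx u) z :=
      fderiv_const_mul ((hsx.contDiffAt (hB.mem_nhds hz)).differentiableAt (by simp)) h
    have k2 : fderiv ℝ (fun y => h * dy u y) z = h • fderiv ℝ (dy u) z :=
      fderiv_const_mul ((hsy.contDiffAt (hB.mem_nhds hz)).differentiableAt (by simp)) h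
    rw [k1, k2]
    rfl
  have sym : dy (dx u) z = dx (dy u) z := (Pool.Agent.W924.RW.WP.symm hB hS.smooth hz).symm
  rw [W2_eq, e2]
  unfold Dp
  change ‖(h : ℂ) * (fderiv ℝ (fun y => ((h * dx u y : ℝ) : ℂ) - I * ((h * dy u y : ℝ) : ℂ)) z 1 -
    I * fderiv ℝ (fun y => ((h * dx u y : ℝ) : ℂ) - I * ((h * dy u y : ℝ) : ℂ)) z I)‖ ^ 2 = _
  rw [f1, f1]
  have q : (h : ℂ) * (((h * fderiv ℝ (dx u) z 1 : ℝ) : ℂ) - I * ((h * fderiv ℝ (dy u) z 1 : ℝ) : ℂ) -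
      I * (((h * fderiv ℝ (dx u) z I : ℝ) : ℂ) - I * ((h * fderiv ℝ (dy u) z I : ℝ) : ℂ))) =
      ((h ^ 2 * (dx (dx u) z - dy (dy u) z) : ℝ) : ℂ) + ((-(2 * h ^ 2 * dx (dy u) z) : ℝ) : ℂ) * I := by
    change (h : ℂ) * (((h * dx (dx u) z : ℝ) : ℂ) - I * ((h * dx (dy u) z : ℝ) : ℂ) -
      I * (((h * dy (dx u) z : ℝ) : ℂ) - I * ((h * dy (dy u) z : ℝ) : ℂ))) = _
    rw [sym]
    push_cast
    have hI : I * I = -1 := Complex.I_mul_I
    linear_combination ((h : ℂ) ^ 2 * ((dy (dy u) z : ℝ) : ℂ)) * hI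
  rw [q, ← Complex.normSq_eq_norm_sq, Complex.normSq_add_mul_I]
  have heq := hS.eq z hz
  unfold lap at heq
  have hu : u z = - (h ^ 2 * (dx (dx u) z + dy (dy u) z)) := by linarith
  rw [hu]
  ring

theorem W1_norm' {B : Set ℂ} (hB : IsOpen B) {h : ℝ} {u : ℂ → ℝ} (hS : Sol B h u) {z : ℂ}
    (hz : z ∈ B) : ‖W h u 1 z‖ ^ 2 = h ^ 2 * (dx u z ^ 2 + dy u z ^ 2) := by
  have hd : DifferentiableAt ℝ u z :=
    (hS.smooth.contDiffAt (hB.mem_nhds hz)).differentiableAt (by simp)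
  have e : W h u 1 z = Dp h (fun w => (u w : ℂ)) z := rfl
  rw [e]
  unfold Dp dx dy
  rw [ofReal_fderiv' hd, ofReal_fderiv' hd, norm_mul, mul_pow, ← Complex.normSq_eq_norm_sq,
    ← Complex.normSq_eq_norm_sq, Complex.normSq_ofReal, Complex.normSq_apply]
  simp
  ring

lemma re_lim {s : ℕ → ℂ} {c x : ℝ} {k : ℂ} (hk : k = (c : ℂ)) (h : Tendsto s atTop (𝓝 (k * (x : ℂ))))
    {r : ℕ → ℝ} (hr : ∀ n, s n = (r n : ℂ)) : Tendsto r atTop (𝓝 (c * x)) := by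
  have h2 := (Complex.continuous_re.tendsto _).comp h
  rw [hk, ← Complex.ofReal_mul, Complex.ofReal_re] at h2
  refine h2.congr (fun n => ?_)
  simp only [Function.comp_apply]
  rw [hr, Complex.ofReal_re]

/-- mean square of the Hessian determinant -/
theorem det_lim {Ω : Set ℂ} (hΩ : IsOpen Ω) {h : ℕ → ℝ} {u : ℕ → ℂ → ℝ} (hS : Sys Ω h u)
    {φ : ℂ → ℝ} (hφ : TF Ω φ) :
    Tendsto (fun n => ∫ z, φ z * (h n ^ 4 * (dx (dx (u n)) z * dy (dy (u n)) z -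
      dx (dy (u n)) z ^ 2)) ^ 2) atTop (𝓝 (3 / 16 * ∫ z, φ z)) := by
  have hF := famW hΩ hS
  have q := quart_W hΩ hS hφ 0 (-2) 0 (-2)
  have hL : LL CC CC CC 0 (-2) 0 (-2) = ((3 : ℝ) : ℂ) := by
    unfold LL CC
    norm_num
  have r := re_lim (r := fun n => ∫ z, φ z * (16 * (h n ^ 4 * (dx (dx (u n)) z * dy (dy (u n)) z -
      dx (dy (u n)) z ^ 2)) ^ 2)) hL q (fun n => by
    rw [← integral_complex_ofReal]
    refine integral_congr_ae (Eventually.of_forall fun z => ?_)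
    simp only
    by_cases hz : z ∈ Ω
    · have n2 := Fam.nsq hF n 2 hz
      have w2 := W2_norm hΩ (hS.sol n) hz
      have e0 : WW h u n 0 z = (u n z : ℂ) := rfl
      have e1 : WW h u n 2 z * WW h u n (-2) z = ((‖W (h n) (u n) 2 z‖ ^ 2 : ℝ) : ℂ) := by
        rw [show ‖W (h n) (u n) 2 z‖ = ‖WW h u n 2 z‖ from rfl, n2]
        norm_num
      unfold RR
      rw [show (0:ℤ) + 2 = 2 by norm_num, show (-2:ℤ) + 2 = 0 by norm_num, e1, e0, w2]
      push_cast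
      ring
    · rw [TF.zero hφ hz]; simp)
  have r2 := r.const_mul (1 / 16)
  have e : (1 / 16 : ℝ) * (3 * ∫ z, φ z) = 3 / 16 * ∫ z, φ z := by ring
  rw [e] at r2
  refine r2.congr (fun n => ?_)
  rw [← integral_const_mul]
  refine integral_congr_ae (Eventually.of_forall fun z => ?_)
  simp only
  ring

/-- the fourth moments of `u` and of its normalised gradient differ by one -/
theorem grad_lim {Ω : Set ℂ} (hΩ : IsOpen Ω) {h : ℕ → ℝ} {u : ℕ → ℂ → ℝ} (hS : Sys Ω h u)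
    {φ : ℂ → ℝ} (hφ : TF Ω φ) :
    Tendsto (fun n => ∫ z, φ z * (u n z ^ 4 - (h n ^ 2 * (dx (u n) z ^ 2 + dy (u n) z ^ 2)) ^ 2))
      atTop (𝓝 (∫ z, φ z)) := by
  have hF := famW hΩ hS
  have hp := pairW hΩ hS
  have hu := Unit2.of_pair hF hp
  have q := null_lim hΩ (fun n => (hS.sol n).hpos.ne') hF hF hF hF hu hu hu hu hp hp hφ
    (-1) (-1) (-1) (-1)
  have hL : CC (-1 + 2) (-1 + 2) * CC (-1) (-1) - 2 * CC (-1 + 1) (-1 + 1) * CC (-1 + 1) (-1 + 1) +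
      CC (-1) (-1) * CC (-1 + 2) (-1 + 2) = ((-2 : ℝ) : ℂ) := by
    unfold CC
    norm_num
  have r := re_lim (r := fun n => ∫ z, φ z * ((-2) * (u n z ^ 4 -
      (h n ^ 2 * (dx (u n) z ^ 2 + dy (u n) z ^ 2)) ^ 2))) hL q (fun n => by
    rw [← integral_complex_ofReal]
    refine integral_congr_ae (Eventually.of_forall fun z => ?_)
    simp only
    by_cases hz : z ∈ Ω
    · have n1 := Fam.nsq hF n 1 hz
      have w1 := W1_norm' hΩ (hS.sol n) hz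
      have e0 : WW h u n 0 z = (u n z : ℂ) := rfl
      have e1 : WW h u n 1 z * WW h u n (-1) z = -((‖W (h n) (u n) 1 z‖ ^ 2 : ℝ) : ℂ) := by
        rw [show ‖W (h n) (u n) 1 z‖ = ‖WW h u n 1 z‖ from rfl, n1]
        norm_num
      rw [w1] at e1
      rw [show (-1:ℤ) + 2 = 1 by norm_num, show (-1:ℤ) + 1 = 0 by norm_num, e0]
      push_cast at e1 ⊢
      linear_combination (2 * (φ z : ℂ) * (WW h u n 1 z * WW h u n (-1) z -
        (h n : ℂ) ^ 2 * (((dx (u n) z : ℝ) : ℂ) ^ 2 + ((dy (u n) z : ℝ) : ℂ) ^ 2))) * e1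
    · rw [TF.zero hφ hz]; simp)
  have r2 := r.const_mul (-1 / 2)
  have e : (-1 / 2 : ℝ) * (-2 * ∫ z, φ z) = ∫ z, φ z := by ring
  rw [e] at r2
  refine r2.congr (fun n => ?_)
  rw [← integral_const_mul]
  refine integral_congr_ae (Eventually.of_forall fun z => ?_)
  simp only
  ring

end

end Pool.Agent.Y265.RW
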