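import Pool.Agent.Y265.RW.R

/-! Third moments. -/
set_option autoImplicit false
open MeasureTheory Filter Topology Complex
open scoped ContDiff Manifold

namespace Pool.Agent.Y265.RW

open Pool.Agent.W745.RW

noncomputable section

lemma major {B : Set ℂ} (hB : IsOpen B) {φ : ℂ → ℝ} (hφ : TF B φ) :
    ∃ ψ : ℂ → ℝ, TF B ψ ∧ ∀ w, |φ w| ≤ ψ w := by
  obtain ⟨ζ, hζ, hζ0, -, hζ1⟩ := cutoff hB hφ.2.1.isCompact hφ.2.2
  refine ⟨fun w => (1 + φ w ^ 2) * ζ w, TF.mul_smooth hζ (contDiff_const.add (hφ.1.pow 2)), ?_⟩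
  intro w
  by_cases hw : w ∈ tsupport φ
  · simp only [hζ1 w hw, mul_one]
    nlinarith [sq_nonneg (|φ w| - 1), sq_abs (φ w), abs_nonneg (φ w)]
  · rw [image_eq_zero_of_notMem_tsupport hw, abs_zero]
    exact mul_nonneg (by positivity) (hζ0 w)

/-- the antisymmetric products -/
def RR (U V : ℕ → ℤ → ℂ → ℂ) (a b : ℤ) (n : ℕ) (z : ℂ) : ℂ :=
  U n (a + 2) z * V n b z - U n a z * V n (b + 2) z

/-- limit constants -/
def LL (κ κ₁ κ₂ : ℤ → ℤ → ℂ) (a b c d : ℤ) : ℂ :=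
  (κ₁ (a+2) (c+2) * κ₂ b d - 2 * κ₁ (a+1) (c+1) * κ₂ (b+1) (d+1) + κ₁ a c * κ₂ (b+2) (d+2)) -
  (κ (a+2) (d+2) * κ c b - 2 * κ (a+1) (d+1) * κ (c+1) (b+1) + κ a d * κ (c+2) (b+2))

lemma RR_lim {B : Set ℂ} (hB : IsOpen B) {h : ℕ → ℝ} (hh : ∀ n, h n ≠ 0)
    {U V : ℕ → ℤ → ℂ → ℂ} (hU : Fam B h U) (hV : Fam B h V) (uU : Unit2 B U) (uV : Unit2 B V)
    {κ κ₁ κ₂ : ℤ → ℤ → ℂ} (pUV : Pair B U V κ) (pU : Pair B U U κ₁) (pV : Pair B V V κ₂)
    {φ : ℂ → ℝ} (hφ : TF B φ) (a b c d : ℤ) :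
    Tendsto (fun n => ∫ z, (φ z : ℂ) * (RR U V a b n z * RR U V c d n z)) atTop
      (𝓝 (LL κ κ₁ κ₂ a b c d * (∫ z, φ z : ℝ))) := by
  have l1 := null_lim hB hh hU hU hV hV uU uU uV uV pU pV hφ a c b d
  have l2 := null_lim hB hh hU hV hU hV uU uV uU uV pUV pUV hφ a d c b
  have l := l1.sub l2
  have e : ∀ x y w : ℂ, x * w - y * w = (x - y) * w := fun x y w => by ring
  rw [e] at l
  refine Tendsto.congr (fun n => ?_) l
  have s : ∀ i, ContinuousOn (U n i) B := fun i => (hU.smooth n i).continuousOn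
  have t : ∀ i, ContinuousOn (V n i) B := fun i => (hV.smooth n i).continuousOn
  have i1 := int_mul hB hφ (F := fun z => U n (a+2) z * U n (c+2) z * (V n b z * V n d z) -
      2 * (U n (a+1) z * U n (c+1) z) * (V n (b+1) z * V n (d+1) z) +
      U n a z * U n c z * (V n (b+2) z * V n (d+2) z))
    (((((s _).mul (s _)).mul ((t _).mul (t _))).sub
      ((continuousOn_const.mul ((s _).mul (s _))).mul ((t _).mul (t _)))).add
      (((s _).mul (s _)).mul ((t _).mul (t _))))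
  have i2 := int_mul hB hφ (F := fun z => U n (a+2) z * V n (d+2) z * (U n c z * V n b z) -
      2 * (U n (a+1) z * V n (d+1) z) * (U n (c+1) z * V n (b+1) z) +
      U n a z * V n d z * (U n (c+2) z * V n (b+2) z))
    (((((s _).mul (t _)).mul ((s _).mul (t _))).sub
      ((continuousOn_const.mul ((s _).mul (t _))).mul ((s _).mul (t _)))).add
      (((s _).mul (t _)).mul ((s _).mul (t _))))
  rw [← integral_sub i1 i2]
  refine integral_congr_ae (Eventually.of_forall fun z => ?_)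
  simp only [RR]
  ring

lemma eps_two (a : ℤ) : ((-1 : ℂ)) ^ (a + 2).natAbs = (-1) ^ a.natAbs := by
  have h1 := natAbs_succ a
  have h2 := natAbs_succ (a + 1)
  rw [show a + 1 + 1 = a + 2 by ring] at h2
  rw [h2, h1, neg_neg]

lemma RR_conj {B : Set ℂ} {h : ℕ → ℝ} {U V : ℕ → ℤ → ℂ → ℂ} (hU : Fam B h U) (hV : Fam B h V)
    (a b : ℤ) (n : ℕ) {z : ℂ} (hz : z ∈ B) :
    (starRingEnd ℂ) (RR U V a b n z) =
      -((-1) ^ a.natAbs * (-1) ^ b.natAbs) * RR U V (-a-2) (-b-2) n z := by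
  unfold RR
  rw [map_sub, map_mul, map_mul, hU.cj n _ z hz, hV.cj n _ z hz, hU.cj n _ z hz, hV.cj n _ z hz,
    eps_two, eps_two]
  rw [show -a - 2 + 2 = -a by ring, show -b - 2 + 2 = -b by ring,
    show -(a + 2) = -a - 2 by ring, show -(b + 2) = -b - 2 by ring]
  ring

lemma CC_norm (a b : ℤ) : ‖CC a b‖ ≤ if a + b = 0 then 1 else 0 := by
  unfold CC
  split_ifs <;> simp

/-- the bound for the Gram matrix -/
def gb (ρ : ℤ → ℝ) (e k l : ℤ) : ℝ :=
  (if l = k + 1 then 1 else 0) + 2 * (if l = k then 1 else 0) + (if l = k - 1 then 1 else 0) +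
  (ρ (e + 2 * (k + l) + 4) + 2 * ρ (e + 2 * (k + l) + 2) + ρ (e + 2 * (k + l)))

lemma LL_bound {κ : ℤ → ℤ → ℂ} {γ : ℤ → ℝ} (hγ : ∀ a b, ‖κ a b‖ ≤ γ (a + b)) (hγ0 : ∀ m, 0 ≤ γ m)
    (i j k l : ℤ) :
    ‖LL κ CC CC (i + 2*k) (j - 2*k - 2) (-i - 2*l - 2) (-j + 2*l)‖ ≤
      gb (fun m => γ m * γ (-m)) (i - j) k l := by
  unfold LL gb
  have c1 := CC_norm (i + 2*k + 2) (-i - 2*l - 2 + 2)
  have c1' := CC_norm (j - 2*k - 2) (-j + 2*l)
  have c2 := CC_norm (i + 2*k + 1) (-i - 2*l - 2 + 1)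
  have c2' := CC_norm (j - 2*k - 2 + 1) (-j + 2*l + 1)
  have c3 := CC_norm (i + 2*k) (-i - 2*l - 2)
  have c3' := CC_norm (j - 2*k - 2 + 2) (-j + 2*l + 2)
  have b1 : ‖CC (i + 2*k + 2) (-i - 2*l - 2 + 2) * CC (j - 2*k - 2) (-j + 2*l)‖ ≤
      if l = k + 1 then 1 else 0 := by
    rw [norm_mul]
    by_cases hl : l = k + 1
    · rw [if_pos hl]
      rw [if_pos (by omega)] at c1 c1'
      exact mul_le_one₀ c1 (norm_nonneg _) c1'
    · rw [if_neg hl]
      rw [if_neg (by omega)] at c1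
      rw [le_antisymm c1 (norm_nonneg _), zero_mul]
  have b2 : ‖CC (i + 2*k + 1) (-i - 2*l - 2 + 1) * CC (j - 2*k - 2 + 1) (-j + 2*l + 1)‖ ≤
      if l = k then 1 else 0 := by
    rw [norm_mul]
    by_cases hl : l = k
    · rw [if_pos hl]
      rw [if_pos (by omega)] at c2 c2'
      exact mul_le_one₀ c2 (norm_nonneg _) c2'
    · rw [if_neg hl]
      rw [if_neg (by omega)] at c2
      rw [le_antisymm c2 (norm_nonneg _), zero_mul]
  have b3 : ‖CC (i + 2*k) (-i - 2*l - 2) * CC (j - 2*k - 2 + 2) (-j + 2*l + 2)‖ ≤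
      if l = k - 1 then 1 else 0 := by
    rw [norm_mul]
    by_cases hl : l = k - 1
    · rw [if_pos hl]
      rw [if_pos (by omega)] at c3 c3'
      exact mul_le_one₀ c3 (norm_nonneg _) c3'
    · rw [if_neg hl]
      rw [if_neg (by omega)] at c3
      rw [le_antisymm c3 (norm_nonneg _), zero_mul]
  have d : ∀ a b c d m, a + b = m → c + d = -m → ‖κ a b * κ c d‖ ≤ γ m * γ (-m) := by
    intro a b c d m h1 h2
    rw [norm_mul]
    have e1 := hγ a b
    have e2 := hγ c d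
    rw [h1] at e1
    rw [h2] at e2
    exact mul_le_mul e1 e2 (norm_nonneg _) (hγ0 m)
  have d1 := d (i + 2*k + 2) (-j + 2*l + 2) (-i - 2*l - 2) (j - 2*k - 2)
    (i - j + 2 * (k + l) + 4) (by ring) (by ring)
  have d2 := d (i + 2*k + 1) (-j + 2*l + 1) (-i - 2*l - 2 + 1) (j - 2*k - 2 + 1)
    (i - j + 2 * (k + l) + 2) (by ring) (by ring)
  have d3 := d (i + 2*k) (-j + 2*l) (-i - 2*l - 2 + 2) (j - 2*k - 2 + 2)
    (i - j + 2 * (k + l)) (by ring) (by ring)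
  have n2 : ∀ x y : ℂ, ‖2 * x * y‖ = 2 * ‖x * y‖ := by
    intro x y
    rw [mul_assoc, norm_mul]; simp
  refine (norm_sub_le _ _).trans ?_
  refine add_le_add ?_ ?_
  · refine (norm_add_le _ _).trans (add_le_add ((norm_sub_le _ _).trans (add_le_add b1 ?_)) b3)
    rw [n2]
    exact mul_le_mul_of_nonneg_left b2 (by norm_num)
  · refine (norm_add_le _ _).trans (add_le_add ((norm_sub_le _ _).trans (add_le_add d1 ?_)) d3)
    rw [n2]
    exact mul_le_mul_of_nonneg_left d2 (by norm_num)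

lemma sum_ind (S : Finset ℤ) (m : ℤ) : ∑ l ∈ S, (if l = m then (1 : ℝ) else 0) ≤ 1 := by
  rw [Finset.sum_ite_eq']
  split_ifs <;> norm_num

lemma sum_shift {ρ : ℤ → ℝ} {Γ : ℝ} (hρ : ∀ S : Finset ℤ, ∑ m ∈ S, ρ m ≤ Γ) (f : ℤ → ℤ)
    (hf : Function.Injective f) (S : Finset ℤ) : ∑ l ∈ S, ρ (f l) ≤ Γ := by
  rw [← Finset.sum_image (g := f) (f := ρ) (fun x _ y _ h => hf h)]
  exact hρ _

lemma gb_sum {ρ : ℤ → ℝ} {Γ : ℝ} (hρ : ∀ S : Finset ℤ, ∑ m ∈ S, ρ m ≤ Γ) (e k : ℤ)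
    (S : Finset ℤ) : ∑ l ∈ S, gb ρ e k l ≤ 4 + 4 * Γ := by
  unfold gb
  simp only [Finset.sum_add_distrib, ← Finset.mul_sum]
  have a1 := sum_ind S (k + 1)
  have a2 := sum_ind S k
  have a3 := sum_ind S (k - 1)
  have b1 := sum_shift hρ (fun l => e + 2 * (k + l) + 4) (fun x y h => by
    simp only at h; omega) S
  have b2 := sum_shift hρ (fun l => e + 2 * (k + l) + 2) (fun x y h => by
    simp only at h; omega) S
  have b3 := sum_shift hρ (fun l => e + 2 * (k + l)) (fun x y h => by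
    simp only at h; omega) S
  linarith

lemma gb_sum_nat {ρ : ℤ → ℝ} {Γ : ℝ} (hρ : ∀ S : Finset ℤ, ∑ m ∈ S, ρ m ≤ Γ) (e k : ℤ)
    (N : ℕ) : ∑ l ∈ Finset.range N, gb ρ e k l ≤ 4 + 4 * Γ := by
  have := gb_sum hρ e k ((Finset.range N).image (fun l : ℕ => (l : ℤ)))
  rw [Finset.sum_image (fun x _ y _ h => by exact_mod_cast h)] at this
  exact this

/-- the weighted sums -/
def SS (U V : ℕ → ℤ → ℂ → ℂ) (i j : ℤ) (w : ℕ → ℝ) (N : ℕ) (n : ℕ) (z : ℂ) : ℂ :=
  ∑ k ∈ Finset.range N, (w k : ℂ) * RR U V (i + 2*k) (j - 2*k - 2) n z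

lemma SS_bound {B : Set ℂ} (hB : IsOpen B) {h : ℕ → ℝ} (hh : ∀ n, h n ≠ 0)
    {U V : ℕ → ℤ → ℂ → ℂ} (hU : Fam B h U) (hV : Fam B h V) (uU : Unit2 B U) (uV : Unit2 B V)
    {κ : ℤ → ℤ → ℂ} (pUV : Pair B U V κ) (pU : Pair B U U CC) (pV : Pair B V V CC)
    {γ : ℤ → ℝ} (hγ : ∀ a b, ‖κ a b‖ ≤ γ (a + b)) (hγ0 : ∀ m, 0 ≤ γ m) {Γ : ℝ}
    (hΓ : ∀ S : Finset ℤ, ∑ m ∈ S, γ m * γ (-m) ≤ Γ)
    {ψ : ℂ → ℝ} (hψ : TF B ψ) (hψ0 : ∀ z, 0 ≤ ψ z) (i j : ℤ) {w : ℕ → ℝ} (hw : ∀ k, |w k| ≤ 2)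
    (N : ℕ) : ∀ᶠ n in atTop, ∫ z, ψ z * ‖SS U V i j w N n z‖ ^ 2 ≤
      16 * (1 + Γ) * N * (∫ z, ψ z) + 1 := by
  -- Gram limits
  have gl : ∀ k l : ℕ, Tendsto (fun n => ∫ z, (ψ z : ℂ) * (RR U V (i + 2*k) (j - 2*k - 2) n z *
      (starRingEnd ℂ) (RR U V (i + 2*l) (j - 2*l - 2) n z))) atTop
      (𝓝 (-((-1) ^ (i + 2*(l:ℤ)).natAbs * (-1) ^ (j - 2*(l:ℤ) - 2).natAbs) *
        LL κ CC CC (i + 2*k) (j - 2*k - 2) (-i - 2*l - 2) (-j + 2*l) * (∫ z, ψ z : ℝ))) := by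
    intro k l
    have r := RR_lim hB hh hU hV uU uV pUV pU pV hψ (i + 2*k) (j - 2*k - 2) (-i - 2*l - 2)
      (-j + 2*l)
    have r := r.const_mul (-((-1) ^ (i + 2*(l:ℤ)).natAbs * (-1) ^ (j - 2*(l:ℤ) - 2).natAbs : ℂ))
    rw [← mul_assoc] at r
    refine Tendsto.congr (fun n => ?_) r
    rw [← integral_const_mul]
    refine integral_congr_ae (Eventually.of_forall fun z => ?_)
    simp only
    by_cases hz : z ∈ B
    · rw [RR_conj hU hV _ _ n hz, show -(i + 2*(l:ℤ)) - 2 = -i - 2*l - 2 by ring,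
        show -(j - 2*(l:ℤ) - 2) - 2 = -j + 2*l by ring]
      ring
    · rw [TF.zero hψ hz]; simp
  have tot : Tendsto (fun n => ∑ k ∈ Finset.range N, ∑ l ∈ Finset.range N,
      ((w k * w l : ℝ) : ℂ) * ∫ z, (ψ z : ℂ) * (RR U V (i + 2*k) (j - 2*k - 2) n z *
      (starRingEnd ℂ) (RR U V (i + 2*l) (j - 2*l - 2) n z))) atTop
      (𝓝 (∑ k ∈ Finset.range N, ∑ l ∈ Finset.range N, ((w k * w l : ℝ) : ℂ) *
        (-((-1) ^ (i + 2*(l:ℤ)).natAbs * (-1) ^ (j - 2*(l:ℤ) - 2).natAbs) *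
        LL κ CC CC (i + 2*k) (j - 2*k - 2) (-i - 2*l - 2) (-j + 2*l) * (∫ z, ψ z : ℝ)))) :=
    tendsto_finsetSum _ (fun k _ => tendsto_finsetSum _ (fun l _ => (gl k l).const_mul _))
  set P := ∫ z, ψ z with hP
  have hP0 : 0 ≤ P := integral_nonneg hψ0
  have bd : ‖∑ k ∈ Finset.range N, ∑ l ∈ Finset.range N, ((w k * w l : ℝ) : ℂ) *
        (-((-1) ^ (i + 2*(l:ℤ)).natAbs * (-1) ^ (j - 2*(l:ℤ) - 2).natAbs) *
        LL κ CC CC (i + 2*k) (j - 2*k - 2) (-i - 2*l - 2) (-j + 2*l) * (P : ℂ))‖ ≤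
        16 * (1 + Γ) * N * P := by
    calc _ ≤ ∑ k ∈ Finset.range N, ∑ l ∈ Finset.range N,
          4 * (gb (fun m => γ m * γ (-m)) (i - j) k l * P) := by
          refine (norm_sum_le _ _).trans (Finset.sum_le_sum fun k _ => ?_)
          refine (norm_sum_le _ _).trans (Finset.sum_le_sum fun l _ => ?_)
          rw [norm_mul, norm_mul, norm_mul, _root_.norm_neg, norm_mul, norm_pow, norm_pow,
            _root_.norm_neg, norm_one, one_pow, one_pow, one_mul, one_mul, Complex.norm_real,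
            Complex.norm_real, Real.norm_eq_abs, abs_mul, Real.norm_of_nonneg hP0]
          have h1 : |w k| * |w l| ≤ 2 * 2 :=
            mul_le_mul (hw k) (hw l) (abs_nonneg _) (by norm_num)
          have h2 := LL_bound hγ hγ0 i j k l
          have h3 : 0 ≤ ‖LL κ CC CC (i + 2*k) (j - 2*k - 2) (-i - 2*l - 2) (-j + 2*l)‖ * P := by
            positivity
          have h4 := mul_le_mul_of_nonneg_right h2 hP0
          nlinarith [mul_le_mul h1 h4 h3 (by norm_num)]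
      _ = ∑ k ∈ Finset.range N, 4 * ((∑ l ∈ Finset.range N,
            gb (fun m => γ m * γ (-m)) (i - j) k l) * P) := by
          refine Finset.sum_congr rfl fun k _ => ?_
          rw [Finset.sum_mul, Finset.mul_sum]
      _ ≤ ∑ k ∈ Finset.range N, 4 * ((4 + 4 * Γ) * P) := by
          refine Finset.sum_le_sum fun k _ => ?_
          have := gb_sum_nat (ρ := fun m => γ m * γ (-m)) hΓ (i - j) k N
          have := mul_le_mul_of_nonneg_right this hP0
          linarith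
      _ = 16 * (1 + Γ) * N * P := by
          rw [Finset.sum_const, Finset.card_range, nsmul_eq_mul]; ring
  have ev := (tot.norm).eventually (gt_mem_nhds (lt_of_le_of_lt bd (lt_add_one _)))
  filter_upwards [ev] with n hn
  refine le_trans ?_ hn.le
  have cR : ∀ k l : ℕ, ContinuousOn (fun z => RR U V (i + 2*k) (j - 2*k - 2) n z *
      (starRingEnd ℂ) (RR U V (i + 2*l) (j - 2*l - 2) n z)) B := by
    have s : ∀ i, ContinuousOn (U n i) B := fun i => (hU.smooth n i).continuousOn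
    have t : ∀ i, ContinuousOn (V n i) B := fun i => (hV.smooth n i).continuousOn
    have c : ∀ a b, ContinuousOn (fun z => RR U V a b n z) B := fun a b =>
      ((s _).mul (t _)).sub ((s _).mul (t _))
    exact fun k l => (c _ _).mul (Complex.continuous_conj.comp_continuousOn (c _ _))
  have e : ((∫ z, ψ z * ‖SS U V i j w N n z‖ ^ 2 : ℝ) : ℂ) =
      ∑ k ∈ Finset.range N, ∑ l ∈ Finset.range N,
      ((w k * w l : ℝ) : ℂ) * ∫ z, (ψ z : ℂ) * (RR U V (i + 2*k) (j - 2*k - 2) n z *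
      (starRingEnd ℂ) (RR U V (i + 2*l) (j - 2*l - 2) n z)) := by
    simp_rw [← integral_const_mul]
    have ii : ∀ k l : ℕ, Integrable (fun z => ((w k * w l : ℝ) : ℂ) * ((ψ z : ℂ) *
        (RR U V (i + 2*k) (j - 2*k - 2) n z *
        (starRingEnd ℂ) (RR U V (i + 2*l) (j - 2*l - 2) n z)))) := fun k l =>
      (int_mul hB hψ (cR k l)).const_mul _
    simp_rw [← integral_finsetSum _ (fun l _ => ii _ l)]
    rw [← integral_finsetSum _ (fun k _ => integrable_finsetSum _ (fun l _ => ii k l)),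
      ← integral_complex_ofReal]
    refine integral_congr_ae (Eventually.of_forall fun z => ?_)
    simp only
    have h1 := Complex.mul_conj (SS U V i j w N n z)
    rw [Complex.normSq_eq_norm_sq] at h1
    push_cast at h1 ⊢
    rw [← h1]
    unfold SS
    rw [map_sum, Finset.sum_mul_sum, Finset.mul_sum]
    refine Finset.sum_congr rfl fun k _ => ?_
    rw [Finset.mul_sum]
    refine Finset.sum_congr rfl fun l _ => ?_
    rw [map_mul, Complex.conj_ofReal]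
    ring
  rw [← e, Complex.norm_real]
  exact le_abs_self _

/-- weights -/
def wt3 (k : ℕ) : ℝ := if k % 3 = 0 then 2 else if k % 3 = 1 then 1 else 0

lemma wt3_le (k : ℕ) : |wt3 k| ≤ 2 := by
  unfold wt3; split_ifs <;> norm_num

/-- **third moments vanish** -/
theorem third {B : Set ℂ} (hB : IsOpen B) {h : ℕ → ℝ} (hh : ∀ n, h n ≠ 0)
    (hlim : Tendsto h atTop (𝓝 0))
    {U V Z : ℕ → ℤ → ℂ → ℂ} (hU : Fam B h U) (hV : Fam B h V) (hZ : Fam B h Z)
    (uU : Unit2 B U) (uV : Unit2 B V) (uZ : Unit2 B Z)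
    {κ : ℤ → ℤ → ℂ} (pUV : Pair B U V κ) (pU : Pair B U U CC) (pV : Pair B V V CC)
    {γ : ℤ → ℝ} (hγ : ∀ a b, ‖κ a b‖ ≤ γ (a + b)) (hγ0 : ∀ m, 0 ≤ γ m) {Γ : ℝ}
    (hΓ : ∀ S : Finset ℤ, ∑ m ∈ S, γ m * γ (-m) ≤ Γ)
    {φ : ℂ → ℝ} (hφ : TF B φ) (i j l : ℤ) : Null (M3 φ U V Z i j l) := by
  have r1 : ∀ a b c, Null (fun n => M3 φ U V Z (a+1) b c n + M3 φ U V Z a (b+1) c n +
      M3 φ U V Z a b (c+1) n) := by
    intro a b c
    have := rel hB hlim hU hV hZ uU pU uV uZ hφ (s := -1) (Or.inr rfl) a b c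
    simpa only [sub_neg_eq_add] using this
  have r2 : ∀ a b c, Null (fun n => M3 φ U V Z (a-1) b c n + M3 φ U V Z a (b-1) c n +
      M3 φ U V Z a b (c-1) n) := fun a b c =>
    rel hB hlim hU hV hZ uU pU uV uZ hφ (s := 1) (Or.inl rfl) a b c
  set T : ℕ → ℕ → ℂ := fun k n => M3 φ U V Z (i + 2*k) (j - 2*k) l n with hT
  have t3 : ∀ k, Null (fun n => T (k+2) n + T (k+1) n + T k n) := by
    intro k
    have := relS r1 r2 (i + 2*k) (j - 2*k - 4) l
    refine Tendsto.congr (fun n => ?_) this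
    simp only [hT]
    push_cast
    rw [show i + 2*(k:ℤ) + 4 = i + 2*((k:ℤ) + 2) by ring, show j - 2*(k:ℤ) - 4 = j - 2*((k:ℤ)+2) by ring,
      show i + 2*(k:ℤ) + 2 = i + 2*((k:ℤ)+1) by ring, show j - 2*((k:ℤ)+2) + 2 = j - 2*((k:ℤ)+1) by ring,
      show j - 2*((k:ℤ)+2) + 4 = j - 2*(k:ℤ) by ring]
  have tp : ∀ m : ℕ, Null (fun n => T (3*m) n - T 0 n) := by
    intro m
    induction m with
    | zero =>
      refine Tendsto.congr (fun n => ?_) (tendsto_const_nhds (x := (0:ℂ)))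
      simp
    | succ m ih =>
      have a1 := t3 (3*m)
      have a2 := t3 (3*m+1)
      refine Tendsto.congr (fun n => ?_) (Null.add (Null.sub a2 a1) ih)
      rw [show 3*m+1+2 = 3*(m+1) by ring, show 3*m+1+1 = 3*m+2 by ring]
      ring
  have ts : ∀ M : ℕ, Null (fun n => (∑ k ∈ Finset.range (3*M), (wt3 k : ℂ) * (T (k+1) n - T k n)) +
      3 * M * T 0 n) := by
    intro M
    induction M with
    | zero =>
      refine Tendsto.congr (fun n => ?_) (tendsto_const_nhds (x := (0:ℂ)))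
      simp
    | succ M ih =>
      have a1 := t3 (3*M)
      have a2 := Null.cmul (tp M) (-3)
      refine Tendsto.congr (fun n => ?_) (Null.add ih (Null.add a1 a2))
      rw [show 3*(M+1) = 3*M+1+1+1 by ring, Finset.sum_range_succ, Finset.sum_range_succ,
        Finset.sum_range_succ]
      have w0 : wt3 (3*M) = 2 := by unfold wt3; rw [if_pos (by omega)]
      have w1 : wt3 (3*M+1) = 1 := by
        unfold wt3; rw [if_neg (by omega), if_pos (by omega)]
      have w2 : wt3 (3*M+1+1) = 0 := by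
        unfold wt3; rw [if_neg (by omega), if_neg (by omega)]
      rw [w0, w1, w2]
      push_cast
      ring_nf
  -- the integral of the weighted sum
  have hint : ∀ N n, ∑ k ∈ Finset.range N, (wt3 k : ℂ) * (T (k+1) n - T k n) =
      ∫ z, (φ z : ℂ) * (SS U V i j wt3 N n z * Z n l z) := by
    intro N n
    have s : ∀ i, ContinuousOn (U n i) B := fun i => (hU.smooth n i).continuousOn
    have t : ∀ i, ContinuousOn (V n i) B := fun i => (hV.smooth n i).continuousOn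
    have q : ContinuousOn (Z n l) B := (hZ.smooth n l).continuousOn
    have i1 : ∀ k : ℕ, Integrable (fun z => (wt3 k : ℂ) * ((φ z : ℂ) *
        (RR U V (i + 2*k) (j - 2*k - 2) n z * Z n l z))) := fun k =>
      (int_mul hB hφ ((((s _).mul (t _)).sub ((s _).mul (t _))).mul q)).const_mul _
    have e1 : ∀ k : ℕ, (wt3 k : ℂ) * (T (k+1) n - T k n) = ∫ z, (wt3 k : ℂ) * ((φ z : ℂ) *
        (RR U V (i + 2*k) (j - 2*k - 2) n z * Z n l z)) := by
      intro k
      have j1 := int_mul hB hφ (((s (i + 2*((k+1:ℕ):ℤ))).mul (t (j - 2*((k+1:ℕ):ℤ)))).mul q)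
      have j2 := int_mul hB hφ (((s (i + 2*(k:ℤ))).mul (t (j - 2*(k:ℤ)))).mul q)
      rw [integral_const_mul]
      congr 1
      simp only [hT, M3]
      have := integral_sub j1 j2
      refine this.symm.trans ?_
      refine integral_congr_ae (Eventually.of_forall fun z => ?_)
      simp only [RR, Pi.mul_apply]
      push_cast
      rw [show i + 2*((k:ℤ)+1) = i + 2*(k:ℤ) + 2 by ring,
        show j - 2*((k:ℤ)+1) = j - 2*(k:ℤ) - 2 by ring, show j - 2*(k:ℤ) - 2 + 2 = j - 2*(k:ℤ) by ring]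
      ring
    rw [Finset.sum_congr rfl (fun k _ => e1 k), ← integral_finsetSum _ (fun k _ => i1 k)]
    refine integral_congr_ae (Eventually.of_forall fun z => ?_)
    simp only [SS]
    rw [Finset.sum_mul, Finset.mul_sum]
    refine Finset.sum_congr rfl fun k _ => ?_
    ring
  obtain ⟨ψ, hψ, hφψ⟩ := major hB hφ
  have hψ0 : ∀ z, 0 ≤ ψ z := fun z => (abs_nonneg _).trans (hφψ z)
  set P := ∫ z, ψ z with hP
  have hP0 : 0 ≤ P := integral_nonneg hψ0
  have hΓ0 : 0 ≤ Γ := by simpa using hΓ ∅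
  have main : ∀ M : ℕ, 0 < M → ∀ᶠ n in atTop, ‖T 0 n‖ ≤ (24 * (1 + Γ) * P + P + 3) / M := by
    intro M hM
    have hMr : (0 : ℝ) < M := by exact_mod_cast hM
    have hM1 : (1 : ℝ) ≤ M := by exact_mod_cast hM
    have b1 := SS_bound hB hh hU hV uU uV pUV pU pV hγ hγ0 hΓ hψ hψ0 i j wt3_le (3 * (M*M))
    have b2 := (uZ ψ hψ l).eventually (gt_mem_nhds (lt_add_one _))
    have b3 := (ts (M*M)).norm
    rw [norm_zero] at b3
    have b3 := b3.eventually (gt_mem_nhds (zero_lt_one))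
    filter_upwards [b1, b2, b3] with n h1 h2 h3
    rw [hint] at h3
    have s : ∀ i, ContinuousOn (U n i) B := fun i => (hU.smooth n i).continuousOn
    have t : ∀ i, ContinuousOn (V n i) B := fun i => (hV.smooth n i).continuousOn
    have cS : ContinuousOn (fun z => SS U V i j wt3 (3*(M*M)) n z) B := by
      unfold SS
      exact continuousOn_finsetSum _ (fun k _ => continuousOn_const.mul
        (((s _).mul (t _)).sub ((s _).mul (t _))))
    have iS : Integrable (fun z => ψ z * ‖SS U V i j wt3 (3*(M*M)) n z‖ ^ 2) :=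
      int_mulr hB hψ (cS.norm.pow 2)
    have iZ : Integrable (fun z => ψ z * ‖Z n l z‖ ^ 2) :=
      int_mulr hB hψ ((hZ.smooth n l).continuousOn.norm.pow 2)
    have cs : ‖∫ z, (φ z : ℂ) * (SS U V i j wt3 (3*(M*M)) n z * Z n l z)‖ ≤
        ∫ z, ((1 / (2 * M)) * (ψ z * ‖SS U V i j wt3 (3*(M*M)) n z‖ ^ 2) +
          (M / 2) * (ψ z * ‖Z n l z‖ ^ 2)) := by
      refine norm_integral_le_of_norm_le ((iS.const_mul _).add (iZ.const_mul _))
        (Eventually.of_forall fun z => ?_)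
      rw [norm_mul, norm_mul, Complex.norm_real, Real.norm_eq_abs]
      set x := ‖SS U V i j wt3 (3*(M*M)) n z‖
      set y := ‖Z n l z‖
      have hx : 0 ≤ x := norm_nonneg _
      have hy : 0 ≤ y := norm_nonneg _
      have q : x * y ≤ (1 / (2 * M)) * x ^ 2 + (M / 2) * y ^ 2 := by
        have : (1 / (2 * M : ℝ)) * x ^ 2 + (M / 2) * y ^ 2 - x * y =
            (1 / (2 * M)) * (x - M * y) ^ 2 := by field_simp; ring
        nlinarith [sq_nonneg (x - M * y), show 0 ≤ (1 / (2 * M : ℝ)) * (x - M * y) ^ 2 by positivity]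
      have h4 := hφψ z
      calc |φ z| * (x * y) ≤ ψ z * (x * y) := by gcongr
        _ ≤ ψ z * ((1 / (2 * M)) * x ^ 2 + (M / 2) * y ^ 2) :=
            mul_le_mul_of_nonneg_left q (hψ0 z)
        _ = _ := by ring
    rw [integral_add (iS.const_mul _) (iZ.const_mul _), integral_const_mul, integral_const_mul] at cs
    have c1 : (1 / (2 * M)) * ∫ z, ψ z * ‖SS U V i j wt3 (3*(M*M)) n z‖ ^ 2 ≤
        (1 / (2 * M)) * (16 * (1 + Γ) * ((3 * (M*M) : ℕ) : ℝ) * P + 1) :=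
      mul_le_mul_of_nonneg_left h1 (by positivity)
    have c2 : (M / 2 : ℝ) * ∫ z, ψ z * ‖Z n l z‖ ^ 2 ≤ (M / 2) * (P + 1) :=
      mul_le_mul_of_nonneg_left h2.le (by positivity)
    have c3 : ‖3 * ((M*M : ℕ) : ℂ) * T 0 n‖ ≤ ‖∫ z, (φ z : ℂ) * (SS U V i j wt3 (3*(M*M)) n z *
        Z n l z)‖ + 1 := by
      have := norm_sub_le ((∫ z, (φ z : ℂ) * (SS U V i j wt3 (3*(M*M)) n z * Z n l z)) +
        3 * ((M*M : ℕ) : ℂ) * T 0 n) (∫ z, (φ z : ℂ) * (SS U V i j wt3 (3*(M*M)) n z * Z n l z))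
      rw [add_sub_cancel_left] at this
      linarith
    have c4 : ‖3 * ((M*M : ℕ) : ℂ) * T 0 n‖ = 3 * (M * M) * ‖T 0 n‖ := by
      rw [norm_mul, norm_mul, Complex.norm_natCast]
      push_cast
      simp
    rw [c4] at c3
    rw [le_div_iff₀ hMr]
    have c5 : (1 / (2 * M)) * (16 * (1 + Γ) * ((3 * (M*M) : ℕ) : ℝ) * P + 1) =
        24 * (1 + Γ) * P * M + 1 / (2 * M) := by
      push_cast; field_simp; ring
    have c6 : 1 / (2 * M : ℝ) ≤ M := by
      rw [div_le_iff₀ (by positivity)]; nlinarith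
    have c7 : 3 * (M * M) * ‖T 0 n‖ ≤ M * (24 * (1 + Γ) * P + P + 3) := by
      nlinarith [mul_nonneg hMr.le hP0]
    have c8 : 3 * (‖T 0 n‖ * M) ≤ 24 * (1 + Γ) * P + P + 3 := by
      have : M * (3 * (‖T 0 n‖ * M)) ≤ M * (24 * (1 + Γ) * P + P + 3) := by linarith
      exact le_of_mul_le_mul_left this hMr
    have : 0 ≤ ‖T 0 n‖ * M := by positivity
    linarith
  have fin : Tendsto (T 0) atTop (𝓝 0) := by
    rw [Metric.tendsto_atTop']
    intro ε hε
    obtain ⟨M, hM⟩ := exists_nat_gt ((24 * (1 + Γ) * P + P + 3) / ε)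
    have hC : 0 < 24 * (1 + Γ) * P + P + 3 := by positivity
    have hM0 : 0 < M := by
      have : (0 : ℝ) < M := lt_of_le_of_lt (by positivity) hM
      exact_mod_cast this
    have := main M hM0
    rw [eventually_atTop] at this
    obtain ⟨N, hN⟩ := this
    refine ⟨N, fun n hn => ?_⟩
    rw [dist_zero_right]
    refine (hN n hn.le).trans_lt ?_
    have hMr : (0 : ℝ) < M := by exact_mod_cast hM0
    rw [div_lt_iff₀ hMr]
    rw [div_lt_iff₀ hε] at hM
    linarith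
  have e0 : T 0 = M3 φ U V Z i j l := by
    funext n
    simp [hT]
  rw [← e0]
  exact fin

end

end Pool.Agent.Y265.RW
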