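import Mathlib

/-! The covariances of the random wave, as the solution of a linear system in `ℓ²`. -/
set_option autoImplicit false
open Filter Topology Complex
open scoped ENNReal lp

namespace Pool.Agent.Y265.RW

noncomputable section

abbrev L2Z := lp (fun _ : ℤ => ℂ) 2

lemma two_pos' : (0 : ℝ) < (2 : ℝ≥0∞).toReal := by norm_num

lemma sh_mem (k : ℤ) (f : L2Z) : Memℓp (fun i : ℤ => f (i + k)) 2 := by
  have h1 := (memℓp_gen_iff two_pos').1 (lp.memℓp f)
  rw [memℓp_gen_iff two_pos']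
  exact (Equiv.addRight k).summable_iff.2 h1

/-- shift -/
def sh (k : ℤ) : L2Z →L[ℂ] L2Z :=
  LinearMap.mkContinuous
    { toFun := fun f => ⟨fun i => f (i + k), sh_mem k f⟩
      map_add' := fun f g => by ext i; rfl
      map_smul' := fun c f => by ext i; rfl } 1 (fun f => by
    rw [one_mul]
    refine le_of_eq ?_
    have h1 := lp.norm_eq_tsum_rpow two_pos' f
    have h2 := lp.norm_eq_tsum_rpow two_pos' (⟨fun i => f (i + k), sh_mem k f⟩ : L2Z)
    change ‖(⟨fun i => f (i + k), sh_mem k f⟩ : L2Z)‖ = _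
    rw [h1, h2]
    congr 1
    exact (Equiv.addRight k).tsum_eq (fun i => ‖f i‖ ^ (2 : ℝ≥0∞).toReal))

lemma sh_apply (k : ℤ) (f : L2Z) (i : ℤ) : sh k f i = f (i + k) := rfl

/-- the generator -/
def TT (w : ℂ) : L2Z →L[ℂ] L2Z := (w / 2) • sh 1 - ((starRingEnd ℂ) w / 2) • sh (-1)

lemma TT_apply (w : ℂ) (f : L2Z) (i : ℤ) :
    TT w f i = (w * f (i + 1) - (starRingEnd ℂ) w * f (i - 1)) / 2 := by
  have : TT w f i = (w / 2) * f (i + 1) - ((starRingEnd ℂ) w / 2) * f (i + -1) := rfl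
  rw [this, ← sub_eq_add_neg]; ring

def del : L2Z := lp.single 2 0 (1 : ℂ)

/-- the covariances `x_b(t)` -/
def cvv (w : ℂ) (t : ℝ) : L2Z := NormedSpace.exp (t • TT w) del

lemma cvv_zero (w : ℂ) (b : ℤ) : cvv w 0 b = if b = 0 then 1 else 0 := by
  unfold cvv
  rw [zero_smul, NormedSpace.exp_zero]
  change del b = _
  unfold del
  by_cases hb : b = 0
  · subst hb
    rw [if_pos rfl]
    exact lp.single_apply_self 2 0 1
  · rw [if_neg hb]
    exact lp.single_apply_ne 2 0 1 hb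

lemma cvv_hd (w : ℂ) (t : ℝ) : HasDerivAt (cvv w) (TT w (cvv w t)) t := by
  have h1 := hasDerivAt_exp_smul_const' (𝕂 := ℝ) (TT w) t
  exact ((ContinuousLinearMap.apply ℂ L2Z del).restrictScalars ℝ).hasFDerivAt.comp_hasDerivAt t h1

lemma cvv_deriv (w : ℂ) (b : ℤ) (t : ℝ) : HasDerivAt (fun t => cvv w t b)
    ((w * cvv w t (b + 1) - (starRingEnd ℂ) w * cvv w t (b - 1)) / 2) t := by
  have h2 := cvv_hd w t
  have h3 := ((lp.evalCLM ℂ (fun _ : ℤ => ℂ) 2 b).restrictScalars ℝ).hasFDerivAt.comp_hasDerivAt t h2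
  have e : (w * cvv w t (b + 1) - (starRingEnd ℂ) w * cvv w t (b - 1)) / 2 = TT w (cvv w t) b :=
    (TT_apply w (cvv w t) b).symm
  rw [e]
  exact h3

lemma cvv_bound (w : ℂ) : ∃ C : ℝ, ∀ t ∈ Set.Icc (0 : ℝ) 1, ∀ b, ‖cvv w t b‖ ≤ C := by
  have hc : Continuous (cvv w) :=
    continuous_iff_continuousAt.2 fun t => (cvv_hd w t).continuousAt
  obtain ⟨C, hC⟩ := (isCompact_Icc (a := (0:ℝ)) (b := 1)).exists_bound_of_continuousOn hc.continuousOn
  exact ⟨C, fun t ht b => (lp.norm_apply_le_norm (by norm_num) (cvv w t) b).trans (hC t ht)⟩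

lemma cvv_sum (w : ℂ) (S : Finset ℤ) : ∑ b ∈ S, ‖cvv w 1 b‖ ^ 2 ≤ ‖cvv w 1‖ ^ 2 := by
  have := lp.sum_rpow_le_norm_rpow two_pos' (cvv w 1) S
  have e : (2 : ℝ≥0∞).toReal = ((2 : ℕ) : ℝ) := by norm_num
  rw [e] at this
  simpa only [Real.rpow_natCast] using this

/-- comparison -/
lemma taylor_bound {a ε C : ℝ} (ha : 0 ≤ a) {e e' : ℤ → ℝ → ℂ}
    (hd : ∀ b, ∀ t ∈ Set.Icc (0:ℝ) 1, HasDerivAt (e b) (e' b t) t)
    (hb : ∀ b, ∀ t ∈ Set.Icc (0:ℝ) 1, ‖e' b t‖ ≤ (a / 2) * (‖e (b+1) t‖ + ‖e (b-1) t‖)) (hε : 0 ≤ ε) :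
    ∀ K : ℕ, ∀ b : ℤ, (∀ j : ℤ, |j - b| ≤ K → ‖e j 0‖ ≤ ε) →
      (∀ j : ℤ, |j - b| ≤ K → ∀ t ∈ Set.Icc (0:ℝ) 1, ‖e j t‖ ≤ C) →
      ∀ t ∈ Set.Icc (0:ℝ) 1, ‖e b t‖ ≤ ε * Real.exp (a * t) + C * (a * t) ^ K / K.factorial := by
  intro K
  induction K with
  | zero =>
    intro b _ h2 t ht
    have := h2 b (by simp) t ht
    have h3 : 0 ≤ ε * Real.exp (a * t) := by positivity
    simp only [pow_zero, mul_one, Nat.factorial_zero, Nat.cast_one, div_one]
    linarith
  | succ K ih =>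
    intro b h1 h2
    have i1 := ih (b+1) (fun j hj => h1 j (by
      have := abs_sub_le j (b+1) b
      rw [show b + 1 - b = 1 by ring, abs_one] at this
      push_cast; linarith)) (fun j hj => h2 j (by
      have := abs_sub_le j (b+1) b
      rw [show b + 1 - b = 1 by ring, abs_one] at this
      push_cast; linarith))
    have i2 := ih (b-1) (fun j hj => h1 j (by
      have := abs_sub_le j (b-1) b
      rw [show b - 1 - b = -1 by ring, abs_neg, abs_one] at this
      push_cast; linarith)) (fun j hj => h2 j (by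
      have := abs_sub_le j (b-1) b
      rw [show b - 1 - b = -1 by ring, abs_neg, abs_one] at this
      push_cast; linarith))
    have hB : ∀ x : ℝ, HasDerivAt (fun t => ε * Real.exp (a * t) + C * (a * t) ^ (K+1) /
        ((K+1).factorial : ℝ)) (a * (ε * Real.exp (a * x) + C * (a * x) ^ K / (K.factorial : ℝ))) x := by
      intro x
      have q1 : HasDerivAt (fun t : ℝ => a * t) a x := by
        simpa using (hasDerivAt_id x).const_mul a
      have q2 := (q1.exp).const_mul ε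
      have q3 := ((q1.pow (K+1)).const_mul C).div_const ((K+1).factorial : ℝ)
      have q4 := q2.add q3
      refine q4.congr_deriv ?_
      have : ((K+1).factorial : ℝ) = (K+1) * K.factorial := by
        rw [Nat.factorial_succ]; push_cast; ring
      rw [this]
      have hK : (K.factorial : ℝ) ≠ 0 := by positivity
      have hK1 : ((K : ℝ) + 1) ≠ 0 := by positivity
      simp only [Nat.add_sub_cancel]
      push_cast
      field_simp
    intro t ht
    refine image_norm_le_of_norm_deriv_right_le_deriv_boundary (f' := e' b)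
      (fun s hs => (hd b s hs).continuousAt.continuousWithinAt)
      (fun s hs => (hd b s ⟨hs.1, hs.2.le⟩).hasDerivWithinAt) ?_ hB ?_ ht
    · have := h1 b (by simp; positivity)
      simpa using this
    · intro s hs
      have hs' : s ∈ Set.Icc (0:ℝ) 1 := ⟨hs.1, hs.2.le⟩
      have j1 := i1 s hs'
      have j2 := i2 s hs'
      have j3 := hb b s hs'
      nlinarith [mul_le_mul_of_nonneg_left (add_le_add j1 j2) (by positivity : 0 ≤ a / 2)]

end

end Pool.Agent.Y265.RW
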