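import Pool.Agent.Y265.RW.T3

/-! The basic family. -/
set_option autoImplicit false
open MeasureTheory Filter Topology Complex
open scoped ContDiff Manifold

namespace Pool.Agent.Y265.RW

open Pool.Agent.W745.RW

noncomputable section

def WW (h : ℕ → ℝ) (u : ℕ → ℂ → ℝ) (n : ℕ) (a : ℤ) (z : ℂ) : ℂ := W (h n) (u n) a z

lemma famW {B : Set ℂ} (hB : IsOpen B) {h : ℕ → ℝ} {u : ℕ → ℂ → ℝ} (hS : Sys B h u) :
    Fam B h (WW h u) := by
  refine ⟨fun n a => ?_, fun n a z hz => ?_, fun n a z hz => ?_, fun n a z hz => ?_⟩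
  · exact (Pool.Agent.W924.RW.WP.main B hB (h n) (u n) (hS.sol n)).1 a
  · exact (Pool.Agent.W924.RW.WP.main B hB (h n) (u n) (hS.sol n)).2.1 a z hz
  · exact (Pool.Agent.W924.RW.WP.main B hB (h n) (u n) (hS.sol n)).2.2.1 a z hz
  · exact (Pool.Agent.W924.RW.WP.main B hB (h n) (u n) (hS.sol n)).2.2.2 a z hz

lemma L2b_base {B : Set ℂ} (hB : IsOpen B) {h : ℕ → ℝ} {u : ℕ → ℂ → ℝ} (hS : Sys B h u) :
    L2b B (WW h u) 0 := by
  have hF := famW hB hS
  intro K hK hKB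
  obtain ⟨ζ, hζ, hζ0, -, hζ1⟩ := cutoff hB hK hKB
  have q := hS.qe ζ hζ 0
  rw [if_pos rfl] at q
  have e : ∀ n, ∫ z, (ζ z : ℂ) * ((u n z : ℂ) * W (h n) (u n) (0:ℕ) z) =
      ((∫ z, ζ z * ‖WW h u n 0 z‖ ^ 2 : ℝ) : ℂ) := by
    intro n
    rw [← integral_complex_ofReal]
    refine integral_congr_ae (Eventually.of_forall fun z => ?_)
    have : W (h n) (u n) (0:ℕ) z = (u n z : ℂ) := rfl
    have h2 : WW h u n 0 z = (u n z : ℂ) := rfl
    simp only
    rw [this, h2, Complex.norm_real, Real.norm_eq_abs, sq_abs]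
    push_cast; ring
  simp_rw [e] at q
  have q' : Tendsto (fun n => ∫ z, ζ z * ‖WW h u n 0 z‖ ^ 2) atTop (𝓝 (∫ z, ζ z)) := by
    have := (Complex.continuous_re.tendsto _).comp q
    simpa [Function.comp_def] using this
  refine ⟨(∫ z, ζ z) + 1, ?_⟩
  filter_upwards [q'.eventually (gt_mem_nhds (lt_add_one _))] with n hn
  have i1 : Integrable (fun z => ζ z * ‖WW h u n 0 z‖ ^ 2) :=
    int_mulr hB hζ ((hF.smooth n 0).continuousOn.norm.pow 2)
  refine le_trans ?_ hn.le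
  calc ∫ z in K, ‖WW h u n 0 z‖ ^ 2 = ∫ z in K, ζ z * ‖WW h u n 0 z‖ ^ 2 := by
        refine setIntegral_congr_fun hK.measurableSet (fun z hz => ?_)
        simp only [hζ1 z hz, one_mul]
    _ ≤ _ := by
        refine setIntegral_le_integral i1 (Eventually.of_forall fun z => ?_)
        have := hζ0 z
        simp only [Pi.zero_apply]
        positivity

/-- from the pair correlations at `a = 0` to all pair correlations -/
lemma Pair.of_zero {B : Set ℂ} (hB : IsOpen B) {h : ℕ → ℝ} (hpos : ∀ n, 0 < h n)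
    (hlim : Tendsto h atTop (𝓝 0)) {U V : ℕ → ℤ → ℂ → ℂ} (hU : Fam B h U) (hV : Fam B h V)
    (bU : ∀ a, L2b B U a) (bV : ∀ b, L2b B V b) {κ : ℤ → ℤ → ℂ}
    (hκ : ∀ a b, κ (a + 1) b + κ a (b + 1) = 0)
    (h0 : ∀ φ, TF B φ → ∀ b, Tendsto (fun n => ∫ z, (φ z : ℂ) * (U n 0 z * V n b z)) atTop
      (𝓝 (κ 0 b * (∫ z, φ z : ℝ)))) : Pair B U V κ := by
  intro φ hφ a
  induction a using Int.induction_on with
  | zero => exact fun b => h0 φ hφ b
  | succ i ih =>
    intro b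
    have h1 := step2_null hB hpos hlim hU hV bU bV hφ i b
    have h2 := Tendsto.sub h1 (ih (b + 1))
    have h3 : (0 : ℂ) - κ i (b + 1) * (∫ z, φ z : ℝ) = κ (i + 1) b * (∫ z, φ z : ℝ) := by
      have := hκ i b
      linear_combination (-((∫ z, φ z : ℝ) : ℂ)) * this
    rw [h3] at h2
    refine h2.congr fun n => ?_
    ring
  | pred i ih =>
    intro b
    have h1 := step2_null hB hpos hlim hU hV bU bV hφ (-i - 1) (b - 1)
    have h2 := Tendsto.sub h1 (ih (b - 1))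
    have e1 : (-(i : ℤ) - 1 + 1) = -i := by ring
    have e2 : (b - 1 + 1) = b := by ring
    have h3 : (0 : ℂ) - κ (-i) (b - 1) * (∫ z, φ z : ℝ) = κ (-i - 1) b * (∫ z, φ z : ℝ) := by
      have := hκ (-i - 1) (b - 1)
      rw [e1, e2] at this
      linear_combination (-((∫ z, φ z : ℝ) : ℂ)) * this
    rw [h3] at h2
    refine h2.congr fun n => ?_
    rw [e1, e2]
    ring

lemma pairW {B : Set ℂ} (hB : IsOpen B) {h : ℕ → ℝ} {u : ℕ → ℂ → ℝ} (hS : Sys B h u) :
    Pair B (WW h u) (WW h u) CC := by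
  have hpos : ∀ n, 0 < h n := fun n => (hS.sol n).hpos
  have hF := famW hB hS
  have hb := L2b.all hB hpos hS.hlim hF (L2b_base hB hS)
  refine Pair.of_zero hB hpos hS.hlim hF hF hb hb Pool.Agent.W75.RW.Two.CC_step ?_
  intro φ hφ b
  exact Pool.Agent.W75.RW.Two.base Pool.Agent.W924.RW.WP.main hB hS hφ b

lemma CC_self (a : ℤ) : (-1) ^ a.natAbs * CC a (-a) = 1 := by
  unfold CC
  rw [if_pos (by ring), neg_one_sq]

lemma Unit2.of_pair {B : Set ℂ} {h : ℕ → ℝ} {U : ℕ → ℤ → ℂ → ℂ} (hU : Fam B h U)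
    (hp : Pair B U U CC) : Unit2 B U := by
  intro φ hφ a
  have h1 := (hp φ hφ a (-a)).const_mul ((-1) ^ a.natAbs)
  rw [← mul_assoc, CC_self, one_mul] at h1
  have h2 := (Complex.continuous_re.tendsto _).comp h1
  rw [Complex.ofReal_re] at h2
  refine h2.congr (fun n => ?_)
  have e : (-1) ^ a.natAbs * ∫ z, (φ z : ℂ) * (U n a z * U n (-a) z) =
      ((∫ z, φ z * ‖U n a z‖ ^ 2 : ℝ) : ℂ) := by
    rw [← integral_const_mul, ← integral_complex_ofReal]
    refine integral_congr_ae (Eventually.of_forall fun z => ?_)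
    simp only
    by_cases hz : z ∈ B
    · have := Fam.nsq hU n a hz
      push_cast at this ⊢
      rw [this]; ring
    · rw [TF.zero hφ hz]; simp
  simp only [Function.comp_apply]
  rw [e, Complex.ofReal_re]

/-- third moments of a quantum ergodic sequence -/
theorem third_W {B : Set ℂ} (hB : IsOpen B) {h : ℕ → ℝ} {u : ℕ → ℂ → ℝ} (hS : Sys B h u)
    {φ : ℂ → ℝ} (hφ : TF B φ) (i j l : ℤ) :
    Null (M3 φ (WW h u) (WW h u) (WW h u) i j l) := by
  have hF := famW hB hS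
  have hp := pairW hB hS
  have hu := Unit2.of_pair hF hp
  refine third hB (fun n => (hS.sol n).hpos.ne') hS.hlim hF hF hF hu hu hu hp hp hp
    (γ := fun m => if m = 0 then 1 else 0) CC_norm (fun m => by positivity) (Γ := 1) ?_ hφ i j l
  intro S
  have : ∀ m : ℤ, (if m = 0 then (1:ℝ) else 0) * (if -m = 0 then (1:ℝ) else 0) =
      if m = 0 then 1 else 0 := by
    intro m
    by_cases hm : m = 0
    · simp [hm]
    · simp [hm]
  simp_rw [this]
  exact sum_ind S 0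

/-- null quartic statistics -/
theorem quart_W {B : Set ℂ} (hB : IsOpen B) {h : ℕ → ℝ} {u : ℕ → ℂ → ℝ} (hS : Sys B h u)
    {φ : ℂ → ℝ} (hφ : TF B φ) (a b c d : ℤ) :
    Tendsto (fun n => ∫ z, (φ z : ℂ) * (RR (WW h u) (WW h u) a b n z *
      RR (WW h u) (WW h u) c d n z)) atTop (𝓝 (LL CC CC CC a b c d * (∫ z, φ z : ℝ))) := by
  have hF := famW hB hS
  have hp := pairW hB hS
  have hu := Unit2.of_pair hF hp
  exact RR_lim hB (fun n => (hS.sol n).hpos.ne') hF hF hu hu hp hp hp hφ a b c d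

end

end Pool.Agent.Y265.RW
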