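import Pool.Agent.Y265.RW.Bs
import Pool.Agent.Y265.RW.Bes

/-! Displaced families. -/
set_option autoImplicit false
open MeasureTheory Filter Topology Complex
open scoped ContDiff Manifold Convolution

namespace Pool.Agent.Y265.RW

open Pool.Agent.W745.RW

noncomputable section

/-- domains for displaced families -/
structure Cfg (Ω B L : Set ℂ) (h : ℕ → ℝ) (R : ℝ) : Prop where
  oΩ : IsOpen Ω
  oB : IsOpen B
  cL : IsCompact L
  LΩ : L ⊆ Ω
  R0 : 0 ≤ R
  mv : ∀ n, ∀ z ∈ B, ∀ y : ℂ, ‖y‖ ≤ h n * R → z + y ∈ interior L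

/-- the displaced family -/
def VV (h : ℕ → ℝ) (u : ℕ → ℂ → ℝ) (w : ℂ) (n : ℕ) (a : ℤ) (z : ℂ) : ℂ :=
  WW h u n a (z + (h n : ℂ) * w)

lemma tbound {L : Set ℂ} (hL : IsCompact L) {A C : ℂ → ℂ} (hA : ContinuousOn A L)
    (hC : ContinuousOn C L) {θ : ℂ → ℂ} {M : ℝ} (hM : 0 ≤ M) (hθ : ∀ z, ‖θ z‖ ≤ M) {p q : ℂ}
    (hs : ∀ z, θ z ≠ 0 → z + p ∈ L ∧ z + q ∈ L) :
    ‖∫ z, θ z * (A (z + p) * C (z + q))‖ ≤
      M * ((∫ z in L, ‖A z‖ ^ 2) + ∫ z in L, ‖C z‖ ^ 2) := by
  have iA : Integrable (L.indicator (fun z => ‖A z‖ ^ 2)) := by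
    rw [integrable_indicator_iff hL.measurableSet]
    exact (hA.norm.pow 2).integrableOn_compact hL
  have iC : Integrable (L.indicator (fun z => ‖C z‖ ^ 2)) := by
    rw [integrable_indicator_iff hL.measurableSet]
    exact (hC.norm.pow 2).integrableOn_compact hL
  have jA : Integrable (fun z => L.indicator (fun z => ‖A z‖ ^ 2) (z + p)) := iA.comp_add_right p
  have jC : Integrable (fun z => L.indicator (fun z => ‖C z‖ ^ 2) (z + q)) := iC.comp_add_right q
  refine (norm_integral_le_of_norm_le (g := fun z => M * (L.indicator (fun z => ‖A z‖ ^ 2) (z + p) +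
    L.indicator (fun z => ‖C z‖ ^ 2) (z + q))) ((jA.add jC).const_mul _)
    (Eventually.of_forall fun z => ?_)).trans ?_
  · by_cases hz : θ z = 0
    · rw [hz, zero_mul, norm_zero]
      exact mul_nonneg hM (add_nonneg (Set.indicator_nonneg (fun _ _ => by positivity) _)
        (Set.indicator_nonneg (fun _ _ => by positivity) _))
    · obtain ⟨h1, h2⟩ := hs z hz
      rw [Set.indicator_of_mem h1, Set.indicator_of_mem h2, norm_mul, norm_mul]
      refine mul_le_mul (hθ z) ?_ (by positivity) hM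
      nlinarith [sq_nonneg (‖A (z + p)‖ - ‖C (z + q)‖), sq_nonneg ‖A (z + p)‖,
        sq_nonneg ‖C (z + q)‖]
  · rw [integral_const_mul, integral_add jA jC, integral_add_right_eq_self (μ := (volume : Measure ℂ))
      (fun z => L.indicator (fun z => ‖A z‖ ^ 2) z), integral_add_right_eq_self
      (μ := (volume : Measure ℂ)) (fun z => L.indicator (fun z => ‖C z‖ ^ 2) z),
      integral_indicator hL.measurableSet, integral_indicator hL.measurableSet]

lemma fderiv_shift (f : ℂ → ℂ) (c z v : ℂ) :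
    fderiv ℝ (fun z => f (z + c)) z v = fderiv ℝ f (z + c) v := by
  rw [fderiv_comp_add_right]

lemma famV {Ω B L : Set ℂ} {h : ℕ → ℝ} {R : ℝ} (c : Cfg Ω B L h R) {u : ℕ → ℂ → ℝ}
    (hS : Sys Ω h u) {w : ℂ} (hw : ‖w‖ ≤ R) : Fam B h (VV h u w) := by
  have hF := famW c.oΩ hS
  have hm : ∀ n, ∀ z ∈ B, z + (h n : ℂ) * w ∈ Ω := by
    intro n z hz
    have hp := (hS.sol n).hpos
    refine c.LΩ (interior_subset (c.mv n z hz _ ?_))
    rw [norm_mul, Complex.norm_real, Real.norm_of_nonneg hp.le]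
    exact mul_le_mul_of_nonneg_left hw hp.le
  refine ⟨fun n a => ?_, fun n a z hz => ?_, fun n a z hz => ?_, fun n a z hz => ?_⟩
  · exact (hF.smooth n a).comp (contDiff_id.add contDiff_const).contDiffOn (fun z hz => hm n z hz)
  · have := hF.dp n a _ (hm n z hz)
    simp only [Dp, dx, dy] at this ⊢
    unfold VV
    simp only [fderiv_shift]
    exact this
  · have := hF.dm n a _ (hm n z hz)
    simp only [Dm, dx, dy] at this ⊢
    unfold VV
    simp only [fderiv_shift]
    exact this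
  · exact hF.cj n a _ (hm n z hz)

lemma conv_deriv {P g : ℂ → ℂ} (hP : Continuous P) (hg : SC g) (v : ℂ) (t : ℝ) :
    HasDerivAt (fun t : ℝ => ∫ z, P z * g (z + t * v)) (∫ z, P z * fderiv ℝ g (z + t * v) v) t := by
  set f : ℂ → ℂ := fun z => P (-z) with hf
  have fc : Continuous f := hP.comp continuous_neg
  have cv : ∀ (g : ℂ → ℂ) (y : ℂ), (f ⋆[ContinuousLinearMap.mul ℝ ℂ, volume] g) y =
      ∫ z, P z * g (z + y) := by
    intro g y
    rw [convolution_def]
    have := integral_neg_eq_self (μ := (volume : Measure ℂ)) (fun z => P z * g (z + y))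
    rw [← this]
    refine integral_congr_ae (Eventually.of_forall fun z => ?_)
    simp only [hf, ContinuousLinearMap.mul_apply']
    rw [show y - z = -z + y by ring]
  have h1 := hg.2.hasFDerivAt_convolution_right (ContinuousLinearMap.mul ℝ ℂ)
    (fc.locallyIntegrable (μ := volume)) (hg.1.of_le (by simp)) (t * v)
  have h2 : HasDerivAt (fun t : ℝ => (t : ℂ) * v) v t := by
    simpa using (Complex.ofRealCLM.hasDerivAt (x := t)).mul_const v
  have h3 := h1.comp_hasDerivAt t h2
  have e1 : (f ⋆[ContinuousLinearMap.mul ℝ ℂ, volume] g) ∘ (fun t : ℝ => (t : ℂ) * v) =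
      fun t : ℝ => ∫ z, P z * g (z + t * v) := by
    funext s
    exact cv g _
  rw [e1] at h3
  refine h3.congr_deriv ?_
  rw [convolution_precompR_apply _ (fc.locallyIntegrable (μ := volume)) (hg.2.fderiv ℝ)
    (hg.1.continuous_fderiv (by simp))]
  exact cv _ _

/-- the derivative along a displacement -/
lemma Fam.disp {B : Set ℂ} {h : ℕ → ℝ} {U : ℕ → ℤ → ℂ → ℂ} (hU : Fam B h U) (n : ℕ) (b : ℤ) (w : ℂ)
    {z : ℂ} (hz : z ∈ B) : fderiv ℝ (U n b) z ((h n : ℂ) * w) =
      (w * U n (b + 1) z - (starRingEnd ℂ) w * U n (b - 1) z) / 2 := by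
  have e1 := hU.dp n b z hz
  have e2 := hU.dm n b z hz
  simp only [Dp, Dm, dx, dy] at e1 e2
  have hv : (h n : ℂ) * w = (h n * w.re) • (1 : ℂ) + (h n * w.im) • I := by
    simp only [real_smul, mul_one]
    push_cast
    conv_lhs => rw [← Complex.re_add_im w]
    ring
  rw [hv, map_add, map_smul, map_smul]
  simp only [real_smul]
  push_cast
  have hw : w = w.re + w.im * I := (Complex.re_add_im w).symm
  have hc : (starRingEnd ℂ) w = w.re - w.im * I := by
    apply Complex.ext <;> simp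
  rw [hc]
  nth_rewrite 3 [hw]
  have hI : I * I = -1 := Complex.I_mul_I
  linear_combination (w.re / 2 + w.im * I / 2) * e1 + (w.re / 2 - w.im * I / 2) * e2 +
    (h n * w.im * fderiv ℝ (U n b) z I) * hI

end

end Pool.Agent.Y265.RW
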