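import Pool.Agent.Y265.RW.Dp1

/-! Pair correlations of displaced families. -/
set_option autoImplicit false
open MeasureTheory Filter Topology Complex
open scoped ContDiff Manifold Convolution

namespace Pool.Agent.Y265.RW

open Pool.Agent.W745.RW

noncomputable section

/-- pair constants of the random wave at displacement `w` -/
def KW (w : ℂ) (a b : ℤ) : ℂ := (-1) ^ a.natAbs * cvv w 1 (a + b)

lemma KW_step (w : ℂ) (a b : ℤ) : KW w (a + 1) b + KW w a (b + 1) = 0 := by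
  unfold KW
  rw [natAbs_succ, show a + 1 + b = a + (b + 1) by ring]; ring

lemma unit_mass {Ω : Set ℂ} (hΩ : IsOpen Ω) {h : ℕ → ℝ} {u : ℕ → ℂ → ℝ} (hS : Sys Ω h u)
    {L : Set ℂ} (hL : IsCompact L) (hLΩ : L ⊆ Ω) :
    ∃ Q : ℝ, 0 ≤ Q ∧ ∀ b : ℤ, ∀ᶠ n in atTop, ∫ z in L, ‖WW h u n b z‖ ^ 2 ≤ Q := by
  have hF := famW hΩ hS
  have hu := Unit2.of_pair hF (pairW hΩ hS)
  obtain ⟨ζ, hζ, hζ0, -, hζ1⟩ := cutoff hΩ hL hLΩ
  refine ⟨(∫ z, ζ z) + 1, add_nonneg (integral_nonneg hζ0) zero_le_one, fun b => ?_⟩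
  filter_upwards [(hu ζ hζ b).eventually (gt_mem_nhds (lt_add_one _))] with n hn
  have i1 : Integrable (fun z => ζ z * ‖WW h u n b z‖ ^ 2) :=
    int_mulr hΩ hζ ((hF.smooth n b).continuousOn.norm.pow 2)
  refine le_trans ?_ hn.le
  calc ∫ z in L, ‖WW h u n b z‖ ^ 2 = ∫ z in L, ζ z * ‖WW h u n b z‖ ^ 2 := by
        refine setIntegral_congr_fun hL.measurableSet (fun z hz => ?_)
        simp only [hζ1 z hz, one_mul]
    _ ≤ _ := by
        refine setIntegral_le_integral i1 (Eventually.of_forall fun z => ?_)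
        have := hζ0 z
        simp only [Pi.zero_apply]
        positivity

lemma Cfg.sub {Ω B L : Set ℂ} {h : ℕ → ℝ} {R : ℝ} (c : Cfg Ω B L h R) (hp : ∀ n, 0 < h n) :
    B ⊆ interior L := by
  intro z hz
  have := c.mv 0 z hz 0 (by rw [norm_zero]; exact mul_nonneg (hp 0).le c.R0)
  rwa [add_zero] at this

lemma TF.mono' {B Ω : Set ℂ} {φ : ℂ → ℝ} (hφ : TF B φ) (h : B ⊆ Ω) : TF Ω φ :=
  ⟨hφ.1, hφ.2.1, hφ.2.2.trans h⟩

lemma TF.bdd {B : Set ℂ} {φ : ℂ → ℝ} (hφ : TF B φ) : ∃ M : ℝ, 0 ≤ M ∧ ∀ z, ‖φ z‖ ≤ M := by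
  obtain ⟨M, hM⟩ := hφ.2.1.exists_bound_of_continuousOn hφ.1.continuous.continuousOn
  refine ⟨max M 0, le_max_right _ _, fun z => ?_⟩
  by_cases hz : z ∈ tsupport φ
  · exact (hM z hz).trans (le_max_left _ _)
  · rw [image_eq_zero_of_notMem_tsupport hz, norm_zero]
    exact le_max_right _ _

theorem disp0 {Ω B L : Set ℂ} {h : ℕ → ℝ} {R : ℝ} (c : Cfg Ω B L h R) {u : ℕ → ℂ → ℝ}
    (hS : Sys Ω h u) {w : ℂ} (hw : ‖w‖ ≤ R) {φ : ℂ → ℝ} (hφ : TF B φ) (b : ℤ) :
    Tendsto (fun n => ∫ z, (φ z : ℂ) * (WW h u n 0 z * VV h u w n b z)) atTop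
      (𝓝 (cvv w 1 b * (∫ z, φ z : ℝ))) := by
  have hpos : ∀ n, 0 < h n := fun n => (hS.sol n).hpos
  have hF := famW c.oΩ hS
  have hBL := c.sub hpos
  have hBΩ : B ⊆ Ω := hBL.trans (interior_subset.trans c.LΩ)
  obtain ⟨ζ, hζ, -, -, hζ1⟩ := cutoff c.oΩ c.cL c.LΩ
  obtain ⟨M, hM0, hM⟩ := TF.bdd hφ
  obtain ⟨Q, hQ0, hQ⟩ := unit_mass c.oΩ hS c.cL c.LΩ
  obtain ⟨Cx, hCx⟩ := cvv_bound w
  set Pφ : ℂ := ((∫ z, φ z : ℝ) : ℂ) with hPφ
  -- the localised functions
  set g : ℕ → ℤ → ℂ → ℂ := fun n j z => (ζ z : ℂ) * WW h u n j z with hg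
  have sg : ∀ n j, SC (g n j) := fun n j => tfS c.oΩ hζ (hF.smooth n j)
  set P : ℕ → ℂ → ℂ := fun n z => (φ z : ℂ) * WW h u n 0 z with hP
  have cP : ∀ n, Continuous (P n) := fun n =>
    cont_mul c.oB hφ ((hF.smooth n 0).continuousOn.mono hBΩ)
  have csP : ∀ n, HasCompactSupport (P n) := fun n =>
    (hφ.2.1.comp_left (g := fun x : ℝ => (x : ℂ)) Complex.ofReal_zero).mul_right
  set f : ℕ → ℤ → ℝ → ℂ := fun n j t => ∫ z, P n z * g n j (z + t * ((h n : ℂ) * w)) with hf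
  have hmv : ∀ n, ∀ t ∈ Set.Icc (0:ℝ) 1, ∀ z ∈ B, z + (t : ℂ) * ((h n : ℂ) * w) ∈ interior L := by
    intro n t ht z hz
    refine c.mv n z hz _ ?_
    rw [norm_mul, norm_mul, Complex.norm_real, Complex.norm_real, Real.norm_of_nonneg ht.1,
      Real.norm_of_nonneg (hpos n).le]
    calc t * (h n * ‖w‖) ≤ 1 * (h n * ‖w‖) := by
          refine mul_le_mul_of_nonneg_right ht.2 (mul_nonneg (hpos n).le (norm_nonneg _))
      _ ≤ h n * R := by rw [one_mul]; exact mul_le_mul_of_nonneg_left hw (hpos n).le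
  have hg1 : ∀ n j z, z ∈ L → g n j z = WW h u n j z := by
    intro n j z hz
    simp only [hg, hζ1 z hz, Complex.ofReal_one, one_mul]
  have hPB : ∀ n z, P n z ≠ 0 → z ∈ B := by
    intro n z hz
    by_contra h0
    exact hz (by simp only [hP]; rw [TF.zero hφ h0]; simp)
  have hfe : ∀ n j, ∀ t ∈ Set.Icc (0:ℝ) 1, f n j t =
      ∫ z, (φ z : ℂ) * (WW h u n 0 (z + 0) * WW h u n j (z + t * ((h n : ℂ) * w))) := by
    intro n j t ht
    simp only [hf]
    refine integral_congr_ae (Eventually.of_forall fun z => ?_)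
    simp only
    by_cases hz : z ∈ B
    · rw [hg1 n j _ (interior_subset (hmv n t ht z hz)), add_zero]
      simp only [hP]; ring
    · simp only [hP]; rw [TF.zero hφ hz]; simp
  have hfb : ∀ n j, ∀ t ∈ Set.Icc (0:ℝ) 1, ‖f n j t‖ ≤
      M * ((∫ z in L, ‖WW h u n 0 z‖ ^ 2) + ∫ z in L, ‖WW h u n j z‖ ^ 2) := by
    intro n j t ht
    rw [hfe n j t ht]
    refine tbound c.cL ((hF.smooth n 0).continuousOn.mono c.LΩ)
      ((hF.smooth n j).continuousOn.mono c.LΩ) hM0 (fun z => by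
        rw [Complex.norm_real]; exact hM z) (fun z hz => ?_)
    have hzB : z ∈ B := by
      by_contra h0
      exact hz (by rw [TF.zero hφ h0]; simp)
    exact ⟨by rw [add_zero]; exact interior_subset (hBL hzB), interior_subset (hmv n t ht z hzB)⟩
  have hfd : ∀ n j, ∀ t ∈ Set.Icc (0:ℝ) 1, HasDerivAt (f n j)
      ((w * f n (j+1) t - (starRingEnd ℂ) w * f n (j-1) t) / 2) t := by
    intro n j t ht
    have h1 := conv_deriv (cP n) (sg n j) ((h n : ℂ) * w) t
    refine h1.congr_deriv ?_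
    have ig : ∀ j, Integrable (fun z => P n z * g n j (z + t * ((h n : ℂ) * w))) := by
      intro j
      refine Continuous.integrable_of_hasCompactSupport ((cP n).mul
        ((sg n j).1.continuous.comp (continuous_id.add continuous_const))) (csP n).mul_right
    have i1 := (ig (j+1)).const_mul w
    have i2 := (ig (j-1)).const_mul ((starRingEnd ℂ) w)
    simp only [hf]
    rw [← integral_const_mul, ← integral_const_mul, ← integral_sub i1 i2, ← integral_div]
    refine integral_congr_ae (Eventually.of_forall fun z => ?_)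
    simp only
    by_cases hz : P n z = 0
    · rw [hz]; simp
    · have hzB := hPB n z hz
      have hzL := hmv n t ht z hzB
      have he : g n j =ᶠ[𝓝 (z + t * ((h n : ℂ) * w))] WW h u n j := by
        filter_upwards [isOpen_interior.mem_nhds hzL] with y hy
        exact hg1 n j y (interior_subset hy)
      rw [he.fderiv_eq, Fam.disp hF n j w (c.LΩ (interior_subset hzL)),
        hg1 n _ _ (interior_subset hzL), hg1 n _ _ (interior_subset hzL)]
      ring
  -- the difference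
  set e : ℕ → ℤ → ℝ → ℂ := fun n j t => f n j t - cvv w t j * Pφ with he
  have hed : ∀ n j, ∀ t ∈ Set.Icc (0:ℝ) 1, HasDerivAt (e n j)
      ((w * e n (j+1) t - (starRingEnd ℂ) w * e n (j-1) t) / 2) t := by
    intro n j t ht
    have h1 := (hfd n j t ht).sub ((cvv_deriv w j t).mul_const Pφ)
    refine h1.congr_deriv ?_
    simp only [he]
    ring
  have heb : ∀ n j, ∀ t ∈ Set.Icc (0:ℝ) 1,
      ‖(w * e n (j+1) t - (starRingEnd ℂ) w * e n (j-1) t) / 2‖ ≤
      (‖w‖ / 2) * (‖e n (j+1) t‖ + ‖e n (j-1) t‖) := by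
    intro n j t _
    rw [norm_div, Complex.norm_ofNat]
    have h1 := norm_sub_le (w * e n (j+1) t) ((starRingEnd ℂ) w * e n (j-1) t)
    rw [norm_mul, norm_mul, RCLike.norm_conj] at h1
    rw [div_le_iff₀ (by norm_num)]
    linarith
  have hQe : ∀ᶠ n in atTop, ∫ z in L, ‖WW h u n 0 z‖ ^ 2 ≤ Q := hQ 0
  set C : ℝ := M * (Q + Q) + Cx * ‖Pφ‖ with hC
  have hCe : ∀ j, ∀ᶠ n in atTop, ∀ t ∈ Set.Icc (0:ℝ) 1, ‖e n j t‖ ≤ C := by
    intro j
    filter_upwards [hQe, hQ j] with n h1 h2 t ht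
    refine (norm_sub_le _ _).trans (add_le_add ((hfb n j t ht).trans ?_) ?_)
    · exact mul_le_mul_of_nonneg_left (add_le_add h1 h2) hM0
    · rw [norm_mul]
      exact mul_le_mul_of_nonneg_right (hCx t ht j) (norm_nonneg _)
  have h0e : ∀ j, Tendsto (fun n => e n j 0) atTop (𝓝 0) := by
    intro j
    have h1 := pairW c.oΩ hS φ (TF.mono' hφ hBΩ) 0 j
    have h2 := h1.sub_const (CC 0 j * (∫ z, φ z : ℝ))
    rw [sub_self] at h2
    refine h2.congr (fun n => ?_)
    simp only [he]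
    rw [hfe n j 0 ⟨le_rfl, zero_le_one⟩, cvv_zero]
    have e1 : CC 0 j = if j = 0 then 1 else 0 := by
      unfold CC
      simp
    rw [e1]
    simp [hPφ]
  have fin : Tendsto (fun n => e n b 1) atTop (𝓝 0) := by
    rw [Metric.tendsto_atTop']
    intro η hη
    have hfac := (FloorSemiring.tendsto_pow_div_factorial_atTop ‖w‖).const_mul C
    rw [mul_zero] at hfac
    obtain ⟨K, hK⟩ := (hfac.eventually (gt_mem_nhds (by positivity : 0 < η / 2))).exists
    set ε := η / (2 * Real.exp ‖w‖) / 2 with hε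
    have hε0 : 0 < ε := by positivity
    have ev1 : ∀ᶠ n in atTop, ∀ j ∈ Finset.Icc (b - K) (b + K), ‖e n j 0‖ ≤ ε := by
      rw [Filter.eventually_all_finset]
      intro j _
      have := (h0e j).norm
      rw [norm_zero] at this
      exact (this.eventually (gt_mem_nhds hε0)).mono fun n hn => hn.le
    have ev2 : ∀ᶠ n in atTop, ∀ j ∈ Finset.Icc (b - K) (b + K), ∀ t ∈ Set.Icc (0:ℝ) 1,
        ‖e n j t‖ ≤ C := by
      rw [Filter.eventually_all_finset]
      exact fun j _ => hCe j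
    have ev := ev1.and ev2
    rw [eventually_atTop] at ev
    obtain ⟨N, hN⟩ := ev
    refine ⟨N, fun n hn => ?_⟩
    obtain ⟨a1, a2⟩ := hN n hn.le
    rw [dist_zero_right]
    have hj : ∀ j : ℤ, |j - b| ≤ K → j ∈ Finset.Icc (b - K) (b + K) := by
      intro j hj
      rw [abs_le] at hj
      rw [Finset.mem_Icc]
      constructor <;> linarith [hj.1, hj.2]
    have tb := taylor_bound (norm_nonneg w) (hed n) (heb n) hε0.le K b (C := C)
      (fun j h => a1 j (hj j h)) (fun j h => a2 j (hj j h)) 1 ⟨zero_le_one, le_rfl⟩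
    rw [mul_one] at tb
    have t1 : ε * Real.exp ‖w‖ = η / 4 := by
      rw [hε]; field_simp; norm_num
    rw [t1] at tb
    have t2 : C * ‖w‖ ^ K / (K.factorial : ℝ) = C * (‖w‖ ^ K / (K.factorial : ℝ)) := by ring
    rw [t2] at tb
    linarith
  have fin2 := fin.add_const (cvv w 1 b * Pφ)
  rw [zero_add] at fin2
  refine fin2.congr (fun n => ?_)
  simp only [he]
  rw [hfe n b 1 ⟨zero_le_one, le_rfl⟩]
  simp only [add_zero, ofReal_one, one_mul, sub_add_cancel, VV]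

end

end Pool.Agent.Y265.RW
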