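import Pool.Agent.Y265.RW.Dp2

/-! Pair correlations of displaced families. -/
set_option autoImplicit false
open MeasureTheory Filter Topology Complex
open scoped ContDiff Manifold Convolution

namespace Pool.Agent.Y265.RW

open Pool.Agent.W745.RW

noncomputable section

lemma L2b_V {Ω B L : Set ℂ} {h : ℕ → ℝ} {R : ℝ} (c : Cfg Ω B L h R) {u : ℕ → ℂ → ℝ}
    (hS : Sys Ω h u) {w : ℂ} (hw : ‖w‖ ≤ R) (b : ℤ) : L2b B (VV h u w) b := by
  have hpos : ∀ n, 0 < h n := fun n => (hS.sol n).hpos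
  have hF := famW c.oΩ hS
  obtain ⟨Q, hQ0, hQ⟩ := unit_mass c.oΩ hS c.cL c.LΩ
  intro K hK hKB
  refine ⟨Q, ?_⟩
  filter_upwards [hQ b] with n hn
  refine le_trans ?_ hn
  have hm : ∀ z ∈ B, z + (h n : ℂ) * w ∈ L := by
    intro z hz
    refine interior_subset (c.mv n z hz _ ?_)
    rw [norm_mul, Complex.norm_real, Real.norm_of_nonneg (hpos n).le]
    exact mul_le_mul_of_nonneg_left hw (hpos n).le
  have cL' : ContinuousOn (fun z => ‖WW h u n b z‖ ^ 2) L :=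
    ((hF.smooth n b).continuousOn.mono c.LΩ).norm.pow 2
  have iL : Integrable (L.indicator (fun z => ‖WW h u n b z‖ ^ 2)) := by
    rw [integrable_indicator_iff c.cL.measurableSet]
    exact cL'.integrableOn_compact c.cL
  have iL' := iL.comp_add_right ((h n : ℂ) * w)
  have cK : ContinuousOn (fun z => ‖VV h u w n b z‖ ^ 2) K := by
    refine cL'.comp (continuousOn_id.add continuousOn_const) (fun z hz => hm z (hKB hz))
  calc ∫ z in K, ‖VV h u w n b z‖ ^ 2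
      ≤ ∫ z in K, L.indicator (fun z => ‖WW h u n b z‖ ^ 2) (z + (h n : ℂ) * w) := by
        refine setIntegral_mono_on (cK.integrableOn_compact hK) iL'.integrableOn
          hK.measurableSet (fun z hz => ?_)
        rw [Set.indicator_of_mem (hm z (hKB hz))]
        exact le_rfl
    _ ≤ ∫ z, L.indicator (fun z => ‖WW h u n b z‖ ^ 2) (z + (h n : ℂ) * w) := by
        refine setIntegral_le_integral iL' (Eventually.of_forall fun z => ?_)
        exact Set.indicator_nonneg (fun _ _ => by positivity) _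
    _ = ∫ z in L, ‖WW h u n b z‖ ^ 2 := by
        rw [integral_add_right_eq_self (μ := (volume : Measure ℂ))
          (fun z => L.indicator (fun z => ‖WW h u n b z‖ ^ 2) z), integral_indicator c.cL.measurableSet]

lemma KW_zero (b : ℤ) (w : ℂ) : KW w 0 b = cvv w 1 b := by
  unfold KW; simp

lemma pair0 {Ω B L : Set ℂ} {h : ℕ → ℝ} {R : ℝ} (c : Cfg Ω B L h R) {u : ℕ → ℂ → ℝ}
    (hS : Sys Ω h u) {w : ℂ} (hw : ‖w‖ ≤ R) : Pair B (WW h u) (VV h u w) (KW w) := by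
  have hpos : ∀ n, 0 < h n := fun n => (hS.sol n).hpos
  have hF := famW c.oΩ hS
  have hBL := c.sub hpos
  have hBΩ : B ⊆ Ω := hBL.trans (interior_subset.trans c.LΩ)
  have hFB : Fam B h (WW h u) := ⟨fun n a => (hF.smooth n a).mono hBΩ,
    fun n a z hz => hF.dp n a z (hBΩ hz), fun n a z hz => hF.dm n a z (hBΩ hz),
    fun n a z hz => hF.cj n a z (hBΩ hz)⟩
  have hb := L2b.all c.oΩ hpos hS.hlim hF (L2b_base c.oΩ hS)
  have hb' : ∀ a, L2b B (WW h u) a := fun a K hK hKB => hb a K hK (hKB.trans hBΩ)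
  refine Pair.of_zero c.oB hpos hS.hlim hFB (famV c hS hw) hb' (L2b_V c hS hw) (KW_step w) ?_
  intro φ hφ b
  rw [KW_zero]
  exact disp0 c hS hw hφ b

/-- pair correlations of two displaced families -/
theorem pairV {Ω B L : Set ℂ} {h : ℕ → ℝ} {R : ℝ} (c : Cfg Ω B L h R) {u : ℕ → ℂ → ℝ}
    (hS : Sys Ω h u) {w₁ w₂ : ℂ} (h1 : ‖w₁‖ ≤ R) (h2 : ‖w₂‖ ≤ R) (h3 : ‖w₂ - w₁‖ ≤ R) :
    Pair B (VV h u w₁) (VV h u w₂) (KW (w₂ - w₁)) := by
  have hpos : ∀ n, 0 < h n := fun n => (hS.sol n).hpos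
  have hF := famW c.oΩ hS
  have hBL := c.sub hpos
  have hBΩ : B ⊆ Ω := hBL.trans (interior_subset.trans c.LΩ)
  have mv : ∀ {w : ℂ}, ‖w‖ ≤ R → ∀ n, ∀ z ∈ B, z + (h n : ℂ) * w ∈ L := by
    intro w hw n z hz
    refine interior_subset (c.mv n z hz _ ?_)
    rw [norm_mul, Complex.norm_real, Real.norm_of_nonneg (hpos n).le]
    exact mul_le_mul_of_nonneg_left hw (hpos n).le
  intro φ hφ a b
  have l1 := pair0 c hS h3 φ hφ a b
  -- the error
  obtain ⟨Lp, hLp⟩ := ContDiff.lipschitzWith_of_hasCompactSupport hφ.2.1 hφ.1 (by simp)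
  obtain ⟨Q, hQ0, hQ⟩ := unit_mass c.oΩ hS c.cL c.LΩ
  have er : Tendsto (fun n => ∫ z, ((φ (z - (h n : ℂ) * w₁) - φ z : ℝ) : ℂ) *
      (WW h u n a (z + 0) * WW h u n b (z + (h n : ℂ) * (w₂ - w₁)))) atTop (𝓝 0) := by
    have hl : Tendsto (fun n => h n * ((Lp * ‖w₁‖) * (Q + Q))) atTop (𝓝 0) := by
      have := hS.hlim.mul_const ((Lp * ‖w₁‖) * (Q + Q))
      rwa [zero_mul] at this
    refine squeeze_zero_norm' ?_ hl
    filter_upwards [hQ a, hQ b] with n ha hb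
    have tb := tbound c.cL ((hF.smooth n a).continuousOn.mono c.LΩ)
      ((hF.smooth n b).continuousOn.mono c.LΩ)
      (θ := fun z => ((φ (z - (h n : ℂ) * w₁) - φ z : ℝ) : ℂ)) (M := Lp * (h n * ‖w₁‖))
      (p := 0) (q := (h n : ℂ) * (w₂ - w₁))
      (mul_nonneg Lp.2 (mul_nonneg (hpos n).le (norm_nonneg _))) (fun z => by
        rw [Complex.norm_real]
        have := hLp.dist_le_mul (z - (h n : ℂ) * w₁) z
        rw [Real.dist_eq, dist_eq_norm] at this
        rw [Real.norm_eq_abs]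
        refine this.trans (le_of_eq ?_)
        rw [sub_sub_cancel_left, _root_.norm_neg, norm_mul, Complex.norm_real,
          Real.norm_of_nonneg (hpos n).le]) (fun z hz => ?_)
    · refine tb.trans ?_
      calc Lp * (h n * ‖w₁‖) * ((∫ z in L, ‖WW h u n a z‖ ^ 2) + ∫ z in L, ‖WW h u n b z‖ ^ 2)
          ≤ Lp * (h n * ‖w₁‖) * (Q + Q) := by
            refine mul_le_mul_of_nonneg_left (add_le_add ha hb)
              (mul_nonneg Lp.2 (mul_nonneg (hpos n).le (norm_nonneg _)))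
        _ = _ := by ring
    · by_cases hz1 : z ∈ B
      · exact ⟨by rw [add_zero]; exact interior_subset (hBL hz1), mv h3 n z hz1⟩
      · have hz2 : z - (h n : ℂ) * w₁ ∈ B := by
          by_contra h0
          exact hz (by rw [TF.zero hφ h0, TF.zero hφ hz1]; simp)
        have m1 := mv h1 n _ hz2
        have m2 := mv h2 n _ hz2
        rw [sub_add_cancel] at m1
        refine ⟨by rwa [add_zero], ?_⟩
        have : z + (h n : ℂ) * (w₂ - w₁) = z - (h n : ℂ) * w₁ + (h n : ℂ) * w₂ := by ring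
        rwa [this]
  have tot := er.add l1
  rw [zero_add] at tot
  refine tot.congr (fun n => ?_)
  have cB : ContinuousOn (fun z => WW h u n a z * VV h u (w₂ - w₁) n b z) B :=
    ((hF.smooth n a).continuousOn.mono hBΩ).mul ((famV c hS h3).smooth n b).continuousOn
  have cV : ContinuousOn (fun z => VV h u w₁ n a z * VV h u w₂ n b z) B :=
    ((famV c hS h1).smooth n a).continuousOn.mul ((famV c hS h2).smooth n b).continuousOn
  have i1 := int_mul c.oB hφ cB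
  have i2 := (int_mul c.oB hφ cV).comp_sub_right ((h n : ℂ) * w₁)
  have e2 : ∀ z, (φ (z - (h n : ℂ) * w₁) : ℂ) * (VV h u w₁ n a (z - (h n : ℂ) * w₁) *
      VV h u w₂ n b (z - (h n : ℂ) * w₁)) = (φ (z - (h n : ℂ) * w₁) : ℂ) *
      (WW h u n a z * VV h u (w₂ - w₁) n b z) := by
    intro z
    unfold VV
    rw [sub_add_cancel, show z - (h n : ℂ) * w₁ + (h n : ℂ) * w₂ = z + (h n : ℂ) * (w₂ - w₁) by ring]
  have e3 : ∫ z, (φ z : ℂ) * (VV h u w₁ n a z * VV h u w₂ n b z) =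
      ∫ z, (φ (z - (h n : ℂ) * w₁) : ℂ) * (WW h u n a z * VV h u (w₂ - w₁) n b z) := by
    rw [← integral_sub_right_eq_self (μ := (volume : Measure ℂ))
      (fun z => (φ z : ℂ) * (VV h u w₁ n a z * VV h u w₂ n b z)) ((h n : ℂ) * w₁)]
    exact integral_congr_ae (Eventually.of_forall e2)
  have i2' : Integrable (fun z => (φ (z - (h n : ℂ) * w₁) : ℂ) *
      (WW h u n a z * VV h u (w₂ - w₁) n b z)) :=
    i2.congr (Eventually.of_forall e2)
  have e4 : ∫ z, ((φ (z - (h n : ℂ) * w₁) - φ z : ℝ) : ℂ) *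
      (WW h u n a (z + 0) * WW h u n b (z + (h n : ℂ) * (w₂ - w₁))) =
      (∫ z, (φ (z - (h n : ℂ) * w₁) : ℂ) * (WW h u n a z * VV h u (w₂ - w₁) n b z)) -
      ∫ z, (φ z : ℂ) * (WW h u n a z * VV h u (w₂ - w₁) n b z) := by
    rw [← integral_sub i2' i1]
    refine integral_congr_ae (Eventually.of_forall fun z => ?_)
    simp only [VV, add_zero]
    push_cast
    ring
  rw [e3, e4]
  ring

lemma KW_self : KW 0 = CC := by
  funext a b
  unfold KW CC
  have h1 : TT 0 = 0 := by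
    unfold TT; simp
  have h2 : cvv 0 1 = del := by
    unfold cvv
    rw [h1, smul_zero, NormedSpace.exp_zero]
    rfl
  rw [h2]
  by_cases h : a + b = 0
  · rw [if_pos h, h]
    have : del 0 = 1 := lp.single_apply_self 2 0 1
    rw [this, mul_one]
  · rw [if_neg h]
    have : del (a + b) = 0 := lp.single_apply_ne 2 0 1 h
    rw [this, mul_zero]

lemma KW_norm (w : ℂ) (a b : ℤ) : ‖KW w a b‖ ≤ ‖cvv w 1 (a + b)‖ := by
  unfold KW
  rw [norm_mul, norm_pow, _root_.norm_neg, norm_one, one_pow, one_mul]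

lemma KW_sum (w : ℂ) (S : Finset ℤ) :
    ∑ m ∈ S, ‖cvv w 1 m‖ * ‖cvv w 1 (-m)‖ ≤ ‖cvv w 1‖ ^ 2 := by
  have h1 := cvv_sum w S
  have h2 := cvv_sum w (S.image (fun m => -m))
  rw [Finset.sum_image (fun x _ y _ h => by simpa using h)] at h2
  have h3 : ∑ m ∈ S, ‖cvv w 1 m‖ * ‖cvv w 1 (-m)‖ ≤
      ∑ m ∈ S, ((1/2) * ‖cvv w 1 m‖ ^ 2 + (1/2) * ‖cvv w 1 (-m)‖ ^ 2) := by
    refine Finset.sum_le_sum fun m _ => ?_
    nlinarith [sq_nonneg (‖cvv w 1 m‖ - ‖cvv w 1 (-m)‖)]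
  rw [Finset.sum_add_distrib, ← Finset.mul_sum, ← Finset.mul_sum] at h3
  linarith

lemma pairVV {Ω B L : Set ℂ} {h : ℕ → ℝ} {R : ℝ} (c : Cfg Ω B L h R) {u : ℕ → ℂ → ℝ}
    (hS : Sys Ω h u) {w : ℂ} (hw : ‖w‖ ≤ R) : Pair B (VV h u w) (VV h u w) CC := by
  have := pairV c hS hw hw (by rw [sub_self, norm_zero]; exact c.R0)
  rwa [sub_self, KW_self] at this

/-- third moments of displaced families -/
theorem third_V {Ω B L : Set ℂ} {h : ℕ → ℝ} {R : ℝ} (c : Cfg Ω B L h R) {u : ℕ → ℂ → ℝ}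
    (hS : Sys Ω h u) {w₁ w₂ w₃ : ℂ} (h1 : ‖w₁‖ ≤ R) (h2 : ‖w₂‖ ≤ R) (h3 : ‖w₃‖ ≤ R)
    (h12 : ‖w₂ - w₁‖ ≤ R) {φ : ℂ → ℝ} (hφ : TF B φ) (i j l : ℤ) :
    Null (M3 φ (VV h u w₁) (VV h u w₂) (VV h u w₃) i j l) := by
  have hpos : ∀ n, 0 < h n := fun n => (hS.sol n).hpos
  have f1 := famV c hS h1
  have f2 := famV c hS h2
  have f3 := famV c hS h3
  have p1 := pairVV c hS h1
  have p2 := pairVV c hS h2
  have p3 := pairVV c hS h3
  exact third c.oB (fun n => (hpos n).ne') hS.hlim f1 f2 f3 (Unit2.of_pair f1 p1)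
    (Unit2.of_pair f2 p2) (Unit2.of_pair f3 p3) (pairV c hS h1 h2 h12) p1 p2
    (γ := fun m => ‖cvv (w₂ - w₁) 1 m‖) (KW_norm _) (fun m => norm_nonneg _)
    (Γ := ‖cvv (w₂ - w₁) 1‖ ^ 2) (KW_sum _) hφ i j l

end

end Pool.Agent.Y265.RW
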