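import Pool.Agent.Y265.RW.N2

/-! Families of solutions and limits of null forms. -/
set_option autoImplicit false
open MeasureTheory Filter Topology Complex
open scoped ContDiff Manifold

namespace Pool.Agent.Y265.RW

open Pool.Agent.W745.RW
open Pool.Agent.W450.RW.RE (cut_smooth)

noncomputable section

/-- chains -/
def Ch (B : Set ℂ) (V0 V1 V2 : ℂ → ℂ) : Prop :=
  ContDiffOn ℝ ∞ V0 B ∧ ContDiffOn ℝ ∞ V1 B ∧ ContDiffOn ℝ ∞ V2 B ∧ ∀ z ∈ B,
    (dx V0 z - I * dy V0 z) + (dx V1 z + I * dy V1 z) = 0 ∧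
    (dx V1 z - I * dy V1 z) + (dx V2 z + I * dy V2 z) = 0

def comb (a b c : ℂ) (p q r : ℂ → ℂ) (z : ℂ) : ℂ := a * p z + b * q z + c * r z

lemma comb_d {B : Set ℂ} (hB : IsOpen B) {p q r : ℂ → ℂ} (hp : ContDiffOn ℝ ∞ p B)
    (hq : ContDiffOn ℝ ∞ q B) (hr : ContDiffOn ℝ ∞ r B) (a b c : ℂ) {z : ℂ} (hz : z ∈ B) (v : ℂ) :
    fderiv ℝ (comb a b c p q r) z v =
      a * fderiv ℝ p z v + b * fderiv ℝ q z v + c * fderiv ℝ r z v := by
  have d : ∀ {w : ℂ → ℂ}, ContDiffOn ℝ ∞ w B → HasFDerivAt w (fderiv ℝ w z) z := fun h =>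
    ((h.contDiffAt (hB.mem_nhds hz)).differentiableAt (by simp)).hasFDerivAt
  have f1 := ((((d hp).const_mul a).add ((d hq).const_mul b)).add ((d hr).const_mul c)).fderiv
  change fderiv ℝ (comb a b c p q r) z = _ at f1
  rw [f1]
  simp

lemma comb_smooth {B : Set ℂ} {p q r : ℂ → ℂ} (hp : ContDiffOn ℝ ∞ p B)
    (hq : ContDiffOn ℝ ∞ q B) (hr : ContDiffOn ℝ ∞ r B) (a b c : ℂ) :
    ContDiffOn ℝ ∞ (comb a b c p q r) B :=
  ((contDiffOn_const.mul hp).add (contDiffOn_const.mul hq)).add (contDiffOn_const.mul hr)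

lemma Ch.DF {B : Set ℂ} (hB : IsOpen B) {V0 V1 V2 : ℂ → ℂ} (h : Ch B V0 V1 V2) :
    DF B (comb (-1/4) (-1/2) (-1/4) V0 V1 V2) (comb (I/4) 0 (-I/4) V0 V1 V2)
      (comb (1/4) (-1/2) (1/4) V0 V1 V2) := by
  obtain ⟨s0, s1, s2, hd⟩ := h
  refine ⟨comb_smooth s0 s1 s2 _ _ _, comb_smooth s0 s1 s2 _ _ _, comb_smooth s0 s1 s2 _ _ _, ?_⟩
  intro z hz
  obtain ⟨e1, e2⟩ := hd z hz
  simp only [dx, dy] at e1 e2 ⊢
  rw [comb_d hB s0 s1 s2 _ _ _ hz, comb_d hB s0 s1 s2 _ _ _ hz, comb_d hB s0 s1 s2 _ _ _ hz,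
    comb_d hB s0 s1 s2 _ _ _ hz]
  have hI : I * I = -1 := Complex.I_mul_I
  constructor
  · linear_combination (-1/4) * e1 + (-1/4) * e2
  · linear_combination (I/4) * e1 - (I/4) * e2 + (fderiv ℝ V0 z I / 4 - fderiv ℝ V1 z I / 2
      + fderiv ℝ V2 z I / 4) * hI

lemma L1b.comb {B : Set ℂ} {p q r : ℕ → ℂ → ℂ} (hp : ∀ n, ContDiffOn ℝ ∞ (p n) B)
    (hq : ∀ n, ContDiffOn ℝ ∞ (q n) B) (hr : ∀ n, ContDiffOn ℝ ∞ (r n) B) (bp : L1b B p)
    (bq : L1b B q) (br : L1b B r) (a b c : ℂ) :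
    L1b B (fun n => comb a b c (p n) (q n) (r n)) := by
  intro K hK hKB
  obtain ⟨Cp, hCp⟩ := bp K hK hKB
  obtain ⟨Cq, hCq⟩ := bq K hK hKB
  obtain ⟨Cr, hCr⟩ := br K hK hKB
  refine ⟨‖a‖ * Cp + ‖b‖ * Cq + ‖c‖ * Cr, ?_⟩
  filter_upwards [hCp, hCq, hCr] with n h1 h2 h3
  have i : ∀ {s : ℂ → ℂ}, ContDiffOn ℝ ∞ s B → IntegrableOn (fun z => ‖s z‖) K := fun hs =>
    ContinuousOn.integrableOn_compact hK ((hs.continuousOn.mono hKB).norm)
  have j1 := (i (hp n)).const_mul ‖a‖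
  have j2 := (i (hq n)).const_mul ‖b‖
  have j3 := (i (hr n)).const_mul ‖c‖
  have j12 : IntegrableOn (fun z => ‖a‖ * ‖p n z‖ + ‖b‖ * ‖q n z‖) K := j1.add j2
  calc ∫ z in K, ‖Pool.Agent.Y265.RW.comb a b c (p n) (q n) (r n) z‖
      ≤ ∫ z in K, (‖a‖ * ‖p n z‖ + ‖b‖ * ‖q n z‖ + ‖c‖ * ‖r n z‖) := by
        refine integral_mono (i (comb_smooth (hp n) (hq n) (hr n) a b c)) (j12.add j3) (fun z => ?_)
        simp only [Pool.Agent.Y265.RW.comb]
        refine (norm_add_le _ _).trans (add_le_add ((norm_add_le _ _).trans ?_) ?_)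
        · rw [norm_mul, norm_mul]
        · rw [norm_mul]
    _ = ‖a‖ * (∫ z in K, ‖p n z‖) + ‖b‖ * (∫ z in K, ‖q n z‖) + ‖c‖ * ∫ z in K, ‖r n z‖ := by
        rw [integral_add j12 j3, integral_add j1 j2, integral_const_mul, integral_const_mul,
          integral_const_mul]
    _ ≤ _ := by
        have := mul_le_mul_of_nonneg_left h1 (norm_nonneg a)
        have := mul_le_mul_of_nonneg_left h2 (norm_nonneg b)
        have := mul_le_mul_of_nonneg_left h3 (norm_nonneg c)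
        linarith

lemma UG.comb {B : Set ℂ} (hB : IsOpen B) {p q r : ℕ → ℂ → ℂ}
    (hp : ∀ n, ContDiffOn ℝ ∞ (p n) B)
    (hq : ∀ n, ContDiffOn ℝ ∞ (q n) B) (hr : ∀ n, ContDiffOn ℝ ∞ (r n) B) (bp : UG B p)
    (bq : UG B q) (br : UG B r) (a b c : ℂ) :
    UG B (fun n => comb a b c (p n) (q n) (r n)) := by
  intro ψ hψ K hK ε hε
  have hpos : 0 < ε / (‖a‖ + ‖b‖ + ‖c‖ + 1) := by positivity
  filter_upwards [bp ψ hψ K hK _ hpos, bq ψ hψ K hK _ hpos, br ψ hψ K hK _ hpos] with n h1 h2 h3 z hz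
  have h1 := h1 z hz
  have h2 := h2 z hz
  have h3 := h3 z hz
  have i1 := (int_mul hB hψ (hp n).continuousOn).integrableOn (s := qd z)
  have i2 := (int_mul hB hψ (hq n).continuousOn).integrableOn (s := qd z)
  have i3 := (int_mul hB hψ (hr n).continuousOn).integrableOn (s := qd z)
  have j1 := i1.const_mul a
  have j2 := i2.const_mul b
  have j3 := i3.const_mul c
  have j12 : IntegrableOn (fun w => a * ((ψ w : ℂ) * p n w) + b * ((ψ w : ℂ) * q n w)) (qd z) :=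
    j1.add j2
  have e : GG (fun w => (ψ w : ℂ) * Pool.Agent.Y265.RW.comb a b c (p n) (q n) (r n) w) z =
      a * GG (fun w => (ψ w : ℂ) * p n w) z + b * GG (fun w => (ψ w : ℂ) * q n w) z +
      c * GG (fun w => (ψ w : ℂ) * r n w) z := by
    unfold GG
    rw [← integral_const_mul, ← integral_const_mul, ← integral_const_mul, ← integral_add j1 j2,
      ← integral_add j12 j3]
    refine integral_congr_ae (Eventually.of_forall fun w => ?_)
    simp only [Pool.Agent.Y265.RW.comb]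
    ring
  rw [e]
  set η := ε / (‖a‖ + ‖b‖ + ‖c‖ + 1) with hη
  have hηe : (‖a‖ + ‖b‖ + ‖c‖ + 1) * η = ε := by
    rw [hη]; field_simp
  refine (norm_add_le _ _).trans ?_
  refine (add_le_add (norm_add_le _ _) le_rfl).trans ?_
  rw [norm_mul, norm_mul, norm_mul]
  have := mul_le_mul_of_nonneg_left h1 (norm_nonneg a)
  have := mul_le_mul_of_nonneg_left h2 (norm_nonneg b)
  have := mul_le_mul_of_nonneg_left h3 (norm_nonneg c)
  linarith

theorem null_chain {B : Set ℂ} (hB : IsOpen B) {φ : ℂ → ℝ} (hφ : TF B φ)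
    {V0 V1 V2 X0 X1 X2 : ℕ → ℂ → ℂ} (h : ∀ n, Ch B (V0 n) (V1 n) (V2 n))
    (h' : ∀ n, Ch B (X0 n) (X1 n) (X2 n))
    (b0 : L1b B V0) (b1 : L1b B V1) (b2 : L1b B V2) (u0 : UG B X0) (u1 : UG B X1) (u2 : UG B X2) :
    Null (fun n => ∫ z, (φ z : ℂ) * (V2 n z * X0 n z - 2 * V1 n z * X1 n z + V0 n z * X2 n z)) := by
  have s0 : ∀ n, ContDiffOn ℝ ∞ (V0 n) B := fun n => (h n).1
  have s1 : ∀ n, ContDiffOn ℝ ∞ (V1 n) B := fun n => (h n).2.1
  have s2 : ∀ n, ContDiffOn ℝ ∞ (V2 n) B := fun n => (h n).2.2.1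
  have t0 : ∀ n, ContDiffOn ℝ ∞ (X0 n) B := fun n => (h' n).1
  have t1 : ∀ n, ContDiffOn ℝ ∞ (X1 n) B := fun n => (h' n).2.1
  have t2 : ∀ n, ContDiffOn ℝ ∞ (X2 n) B := fun n => (h' n).2.2.1
  have key := null_df hB hφ (fun n => (h n).DF hB) (fun n => (h' n).DF hB)
    (L1b.comb s0 s1 s2 b0 b1 b2 _ _ _) (L1b.comb s0 s1 s2 b0 b1 b2 _ _ _)
    (L1b.comb s0 s1 s2 b0 b1 b2 _ _ _) (UG.comb hB t0 t1 t2 u0 u1 u2 _ _ _)
    (UG.comb hB t0 t1 t2 u0 u1 u2 _ _ _) (UG.comb hB t0 t1 t2 u0 u1 u2 _ _ _)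
  have key := Null.cmul key (-4)
  refine Tendsto.congr (fun n => ?_) key
  rw [← integral_const_mul]
  refine integral_congr_ae (Eventually.of_forall fun z => ?_)
  simp only [Pool.Agent.Y265.RW.comb]
  have hI : I * I = -1 := Complex.I_mul_I
  linear_combination ((φ z : ℂ) * (V0 n z - V2 n z) * (X0 n z - X2 n z) / 2) * hI

/-- families of solutions with the ladder relations -/
structure Fam (B : Set ℂ) (h : ℕ → ℝ) (U : ℕ → ℤ → ℂ → ℂ) : Prop where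
  smooth : ∀ n a, ContDiffOn ℝ ∞ (U n a) B
  dp : ∀ n a, ∀ z ∈ B, Dp (h n) (U n a) z = U n (a + 1) z
  dm : ∀ n a, ∀ z ∈ B, Dm (h n) (U n a) z = - U n (a - 1) z
  cj : ∀ n a, ∀ z ∈ B, (starRingEnd ℂ) (U n a z) = (-1) ^ a.natAbs * U n (-a) z

/-- limits of the pair correlations -/
def Pair (B : Set ℂ) (U V : ℕ → ℤ → ℂ → ℂ) (κ : ℤ → ℤ → ℂ) : Prop :=
  ∀ φ, TF B φ → ∀ a b : ℤ, Tendsto (fun n => ∫ z, (φ z : ℂ) * (U n a z * V n b z)) atTop
    (𝓝 (κ a b * (∫ z, φ z : ℝ)))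

/-- unit local mass -/
def Unit2 (B : Set ℂ) (U : ℕ → ℤ → ℂ → ℂ) : Prop :=
  ∀ φ, TF B φ → ∀ a : ℤ, Tendsto (fun n => ∫ z, φ z * ‖U n a z‖ ^ 2) atTop (𝓝 (∫ z, φ z))

lemma prod_d {B : Set ℂ} (hB : IsOpen B) {p q : ℂ → ℂ} (hp : ContDiffOn ℝ ∞ p B)
    (hq : ContDiffOn ℝ ∞ q B) {z : ℂ} (hz : z ∈ B) (v : ℂ) :
    fderiv ℝ (fun z => p z * q z) z v = p z * fderiv ℝ q z v + q z * fderiv ℝ p z v := by
  have d : ∀ {w : ℂ → ℂ}, ContDiffOn ℝ ∞ w B → HasFDerivAt w (fderiv ℝ w z) z := fun h =>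
    ((h.contDiffAt (hB.mem_nhds hz)).differentiableAt (by simp)).hasFDerivAt
  have f1 := ((d hp).mul (d hq)).fderiv
  change fderiv ℝ (fun z => p z * q z) z = _ at f1
  rw [f1]
  simp

lemma Fam.step {B : Set ℂ} (hB : IsOpen B) {h : ℕ → ℝ} {U V : ℕ → ℤ → ℂ → ℂ} (hU : Fam B h U)
    (hV : Fam B h V) (n : ℕ) (hn : h n ≠ 0) (a c : ℤ) {z : ℂ} (hz : z ∈ B) :
    (dx (fun z => U n a z * V n c z) z - I * dy (fun z => U n a z * V n c z) z) +
    (dx (fun z => U n (a+1) z * V n (c+1) z) z + I * dy (fun z => U n (a+1) z * V n (c+1) z) z)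
      = 0 := by
  have e1 := hU.dp n a z hz
  have e2 := hV.dp n c z hz
  have e3 := hU.dm n (a+1) z hz
  have e4 := hV.dm n (c+1) z hz
  rw [add_sub_cancel_right] at e3 e4
  have p := prod_d hB (hU.smooth n a) (hV.smooth n c) hz
  have q := prod_d hB (hU.smooth n (a+1)) (hV.smooth n (c+1)) hz
  simp only [dx, dy, Dp, Dm] at e1 e2 e3 e4 ⊢
  rw [p, p, q, q]
  have hh : (h n : ℂ) ≠ 0 := by exact_mod_cast hn
  apply mul_left_cancel₀ hh
  linear_combination (V n c z) * e1 + (U n a z) * e2 + (V n (c+1) z) * e3 + (U n (a+1) z) * e4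

lemma fderiv_sub_c (f : ℂ → ℂ) (k z v : ℂ) : fderiv ℝ (fun z => f z - k) z v = fderiv ℝ f z v := by
  rw [fderiv_sub_const]

lemma Fam.ch {B : Set ℂ} (hB : IsOpen B) {h : ℕ → ℝ} {U V : ℕ → ℤ → ℂ → ℂ} (hU : Fam B h U)
    (hV : Fam B h V) (n : ℕ) (hn : h n ≠ 0) (a c : ℤ) (k0 k1 k2 : ℂ) :
    Ch B (fun z => U n a z * V n c z - k0) (fun z => U n (a+1) z * V n (c+1) z - k1)
      (fun z => U n (a+2) z * V n (c+2) z - k2) := by
  refine ⟨((hU.smooth n a).mul (hV.smooth n c)).sub contDiffOn_const,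
    ((hU.smooth n _).mul (hV.smooth n _)).sub contDiffOn_const,
    ((hU.smooth n _).mul (hV.smooth n _)).sub contDiffOn_const, fun z hz => ?_⟩
  have s1 := Fam.step hB hU hV n hn a c hz
  have s2 := Fam.step hB hU hV n hn (a+1) (c+1) hz
  have ea : a + 1 + 1 = a + 2 := by ring
  have ec : c + 1 + 1 = c + 2 := by ring
  rw [ea, ec] at s2
  simp only [dx, dy] at s1 s2 ⊢
  simp only [fderiv_sub_c]
  exact ⟨s1, s2⟩

lemma Unit2.L1b {B : Set ℂ} (hB : IsOpen B) {h : ℕ → ℝ} {U V : ℕ → ℤ → ℂ → ℂ} (hU : Fam B h U)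
    (hV : Fam B h V) (uU : Unit2 B U) (uV : Unit2 B V) (a c : ℤ) (k : ℂ) :
    L1b B (fun n z => U n a z * V n c z - k) := by
  intro K hK hKB
  obtain ⟨ζ, hζ, hζ0, -, hζ1⟩ := cutoff hB hK hKB
  refine ⟨(∫ z, ζ z) + 1 + ((∫ z, ζ z) + 1) + ∫ z, ζ z * ‖k‖, ?_⟩
  have t1 := (uU ζ hζ a).eventually (gt_mem_nhds (lt_add_one _))
  have t2 := (uV ζ hζ c).eventually (gt_mem_nhds (lt_add_one _))
  filter_upwards [t1, t2] with n h1 h2
  have i1 : Integrable (fun z => ζ z * ‖U n a z‖ ^ 2) :=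
    int_mulr hB hζ ((hU.smooth n a).continuousOn.norm.pow 2)
  have i2 : Integrable (fun z => ζ z * ‖V n c z‖ ^ 2) :=
    int_mulr hB hζ ((hV.smooth n c).continuousOn.norm.pow 2)
  have i3 := int_mulr hB hζ (continuousOn_const (c := ‖k‖))
  have i12 : Integrable (fun z => ζ z * ‖U n a z‖ ^ 2 + ζ z * ‖V n c z‖ ^ 2) := i1.add i2
  have i123 : Integrable (fun z => ζ z * ‖U n a z‖ ^ 2 + ζ z * ‖V n c z‖ ^ 2 + ζ z * ‖k‖) :=
    i12.add i3
  have hc : ContinuousOn (fun z => ‖U n a z * V n c z - k‖) K :=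
    ((((hU.smooth n a).mul (hV.smooth n c)).sub contDiffOn_const).continuousOn.mono hKB).norm
  calc ∫ z in K, ‖U n a z * V n c z - k‖
      ≤ ∫ z in K, (ζ z * ‖U n a z‖ ^ 2 + ζ z * ‖V n c z‖ ^ 2 + ζ z * ‖k‖) := by
        refine setIntegral_mono_on (hc.integrableOn_compact hK) i123.integrableOn
          hK.measurableSet (fun z hz => ?_)
        rw [hζ1 z hz]
        refine (norm_sub_le _ _).trans ?_
        rw [norm_mul]
        nlinarith [sq_nonneg (‖U n a z‖ - ‖V n c z‖), sq_nonneg ‖U n a z‖, sq_nonneg ‖V n c z‖]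
    _ ≤ ∫ z, (ζ z * ‖U n a z‖ ^ 2 + ζ z * ‖V n c z‖ ^ 2 + ζ z * ‖k‖) := by
        refine setIntegral_le_integral i123 (Eventually.of_forall fun z => ?_)
        have := hζ0 z
        simp only [Pi.zero_apply]
        positivity
    _ = (∫ z, ζ z * ‖U n a z‖ ^ 2) + (∫ z, ζ z * ‖V n c z‖ ^ 2) + ∫ z, ζ z * ‖k‖ := by
        rw [integral_add i12 i3, integral_add i1 i2]
    _ ≤ _ := by linarith

lemma Unit2.UG {B : Set ℂ} (hB : IsOpen B) {h : ℕ → ℝ} {U V : ℕ → ℤ → ℂ → ℂ} (hU : Fam B h U)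
    (hV : Fam B h V) (uU : Unit2 B U) (uV : Unit2 B V) {κ : ℤ → ℤ → ℂ} (hp : Pair B U V κ)
    (a c : ℤ) : UG B (fun n z => U n a z * V n c z - κ a c) := by
  intro ψ hψ K hK ε hε
  refine unifG hB (fun n z => U n a z * V n c z - κ a c)
    (fun n z => ‖U n a z‖ ^ 2 + ‖V n c z‖ ^ 2 + ‖κ a c‖) (2 + ‖κ a c‖) ?_ ?_ ?_ ?_ ?_ hψ hK hε
  · exact fun n => (((hU.smooth n a).mul (hV.smooth n c)).sub contDiffOn_const).continuousOn
  · exact fun n => (((hU.smooth n a).continuousOn.norm.pow 2).add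
      ((hV.smooth n c).continuousOn.norm.pow 2)).add continuousOn_const
  · intro n z _
    refine (norm_sub_le _ _).trans ?_
    rw [norm_mul]
    nlinarith [sq_nonneg (‖U n a z‖ - ‖V n c z‖), sq_nonneg ‖U n a z‖, sq_nonneg ‖V n c z‖]
  · intro φ hφ
    have h1 := hp φ hφ a c
    have h2 := h1.sub_const (κ a c * (∫ z, φ z : ℝ))
    rw [sub_self] at h2
    refine Tendsto.congr (fun n => ?_) h2
    have i1 := int_mul hB hφ ((hU.smooth n a).mul (hV.smooth n c)).continuousOn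
    have i2 := int_mul hB hφ (continuousOn_const (c := κ a c))
    have e : (∫ z, (φ z : ℂ) * κ a c) = κ a c * (∫ z, φ z : ℝ) := by
      rw [integral_mul_const, integral_complex_ofReal, mul_comm]
    rw [← e, ← integral_sub i1 i2]
    refine integral_congr_ae (Eventually.of_forall fun z => ?_)
    simp only
    ring
  · intro φ hφ
    have h1 := ((uU φ hφ a).add (uV φ hφ c)).add_const (∫ z, φ z * ‖κ a c‖)
    have e : (∫ z, φ z) + (∫ z, φ z) + (∫ z, φ z * ‖κ a c‖) = (2 + ‖κ a c‖) * ∫ z, φ z := by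
      rw [integral_mul_const]; ring
    rw [e] at h1
    refine Tendsto.congr (fun n => ?_) h1
    have i1 : Integrable (fun z => φ z * ‖U n a z‖ ^ 2) :=
      int_mulr hB hφ ((hU.smooth n a).continuousOn.norm.pow 2)
    have i2 : Integrable (fun z => φ z * ‖V n c z‖ ^ 2) :=
      int_mulr hB hφ ((hV.smooth n c).continuousOn.norm.pow 2)
    have i3 := int_mulr hB hφ (continuousOn_const (c := ‖κ a c‖))
    have i12 : Integrable (fun z => φ z * ‖U n a z‖ ^ 2 + φ z * ‖V n c z‖ ^ 2) := i1.add i2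
    rw [← integral_add i1 i2, ← integral_add i12 i3]
    refine integral_congr_ae (Eventually.of_forall fun z => ?_)
    simp only
    ring

/-- limits of null forms -/
theorem null_lim {B : Set ℂ} (hB : IsOpen B) {h : ℕ → ℝ} (hh : ∀ n, h n ≠ 0)
    {A C D E : ℕ → ℤ → ℂ → ℂ} (hA : Fam B h A) (hC : Fam B h C) (hD : Fam B h D) (hE : Fam B h E)
    (uA : Unit2 B A) (uC : Unit2 B C) (uD : Unit2 B D) (uE : Unit2 B E) {κ κ' : ℤ → ℤ → ℂ}
    (hAC : Pair B A C κ) (hDE : Pair B D E κ') {φ : ℂ → ℝ} (hφ : TF B φ) (a b c d : ℤ) :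
    Tendsto (fun n => ∫ z, (φ z : ℂ) * (A n (a+2) z * C n (b+2) z * (D n c z * E n d z) -
      2 * (A n (a+1) z * C n (b+1) z) * (D n (c+1) z * E n (d+1) z) +
      A n a z * C n b z * (D n (c+2) z * E n (d+2) z))) atTop
      (𝓝 ((κ (a+2) (b+2) * κ' c d - 2 * κ (a+1) (b+1) * κ' (c+1) (d+1) +
        κ a b * κ' (c+2) (d+2)) * (∫ z, φ z : ℝ))) := by
  have N := null_chain hB hφ (fun n => Fam.ch hB hA hC n (hh n) a b 0 0 0)
    (fun n => Fam.ch hB hD hE n (hh n) c d (κ' c d) (κ' (c+1) (d+1)) (κ' (c+2) (d+2)))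
    (Unit2.L1b hB hA hC uA uC a b 0) (Unit2.L1b hB hA hC uA uC (a+1) (b+1) 0)
    (Unit2.L1b hB hA hC uA uC (a+2) (b+2) 0) (Unit2.UG hB hD hE uD uE hDE c d)
    (Unit2.UG hB hD hE uD uE hDE (c+1) (d+1)) (Unit2.UG hB hD hE uD uE hDE (c+2) (d+2))
  have l0 := (hAC φ hφ a b).mul_const (κ' (c+2) (d+2))
  have l1 := (hAC φ hφ (a+1) (b+1)).mul_const (2 * κ' (c+1) (d+1))
  have l2 := (hAC φ hφ (a+2) (b+2)).mul_const (κ' c d)
  have tot := (N.add ((l2.sub l1).add l0))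
  have e : (0 : ℂ) + (κ (a+2) (b+2) * (∫ z, φ z : ℝ) * κ' c d -
      κ (a+1) (b+1) * (∫ z, φ z : ℝ) * (2 * κ' (c+1) (d+1)) +
      κ a b * (∫ z, φ z : ℝ) * κ' (c+2) (d+2)) =
      (κ (a+2) (b+2) * κ' c d - 2 * κ (a+1) (b+1) * κ' (c+1) (d+1) +
        κ a b * κ' (c+2) (d+2)) * (∫ z, φ z : ℝ) := by ring
  rw [e] at tot
  refine Tendsto.congr (fun n => ?_) tot
  have sV : ∀ i j, ContinuousOn (fun z => A n i z * C n j z) B := fun i j =>
    ((hA.smooth n i).mul (hC.smooth n j)).continuousOn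
  have sX : ∀ i j, ContinuousOn (fun z => D n i z * E n j z) B := fun i j =>
    ((hD.smooth n i).mul (hE.smooth n j)).continuousOn
  have i0 := (int_mul hB hφ (sV a b)).mul_const (κ' (c+2) (d+2))
  have i1 := (int_mul hB hφ (sV (a+1) (b+1))).mul_const (2 * κ' (c+1) (d+1))
  have i2 := (int_mul hB hφ (sV (a+2) (b+2))).mul_const (κ' c d)
  have iN := int_mul hB hφ (((((sV (a+2) (b+2)).sub continuousOn_const).mul
    ((sX c d).sub continuousOn_const)).sub (((continuousOn_const (c := (2 : ℂ))).mul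
    ((sV (a+1) (b+1)).sub continuousOn_const)).mul ((sX (c+1) (d+1)).sub continuousOn_const))).add
    (((sV a b).sub continuousOn_const).mul ((sX (c+2) (d+2)).sub continuousOn_const)))
    (F := fun z => (A n (a+2) z * C n (b+2) z - 0) * (D n c z * E n d z - κ' c d) -
      2 * (A n (a+1) z * C n (b+1) z - 0) * (D n (c+1) z * E n (d+1) z - κ' (c+1) (d+1)) +
      (A n a z * C n b z - 0) * (D n (c+2) z * E n (d+2) z - κ' (c+2) (d+2)))
  have i21 : Integrable (fun z => (φ z : ℂ) * (A n (a+2) z * C n (b+2) z) * κ' c d -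
    (φ z : ℂ) * (A n (a+1) z * C n (b+1) z) * (2 * κ' (c+1) (d+1))) := i2.sub i1
  have i210 : Integrable (fun z => (φ z : ℂ) * (A n (a+2) z * C n (b+2) z) * κ' c d -
    (φ z : ℂ) * (A n (a+1) z * C n (b+1) z) * (2 * κ' (c+1) (d+1)) +
    (φ z : ℂ) * (A n a z * C n b z) * κ' (c+2) (d+2)) := i21.add i0
  rw [← integral_mul_const, ← integral_mul_const, ← integral_mul_const, ← integral_sub i2 i1,
    ← integral_add i21 i0, ← integral_add iN i210]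
  refine integral_congr_ae (Eventually.of_forall fun z => ?_)
  simp only
  ring

end

end Pool.Agent.Y265.RW
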