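import Pool.Agent.Y265.RW.Dp3

/-! Final assembly. -/
set_option autoImplicit false
open MeasureTheory Filter Topology Complex
open scoped ContDiff Manifold Convolution

namespace Pool.Agent.Y265.RW

open Pool.Agent.W745.RW

noncomputable section

/-- the raw hypotheses give a `Sys` -/
theorem raw_sys (Ω : Set ℂ) (lam : ℕ → ℝ) (u : ℕ → ℂ → ℝ)
    (hpos : ∀ n, 0 < lam n) (hlam : Tendsto lam atTop atTop)
    (hu : ∀ n, ContDiffOn ℝ ∞ (u n) Ω)
    (heq : ∀ n, ∀ z ∈ Ω, lap (u n) z + lam n * u n z = 0)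
    (hqe : ∀ φ, TF Ω φ → ∀ k : ℕ, Tendsto (fun n => ∫ z, (φ z : ℂ) *
      ((u n z : ℂ) * (Dp (1 / √(lam n)))^[k] (fun w => (u n w : ℂ)) z)) atTop
      (𝓝 (if k = 0 then ((∫ z, φ z : ℝ) : ℂ) else 0))) :
    Sys Ω (fun n => 1 / √(lam n)) u := by
  refine ⟨fun n => ⟨?_, hu n, ?_⟩, ?_, fun φ hφ k => ?_⟩
  · exact div_pos one_pos (Real.sqrt_pos.2 (hpos n))
  · intro z hz
    have h1 := heq n z hz
    have h2 : (1 / √(lam n)) ^ 2 = 1 / lam n := by
      rw [div_pow, Real.sq_sqrt (hpos n).le, one_pow]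
    show (1 / √(lam n)) ^ 2 * lap (u n) z + u n z = 0
    rw [h2]
    have h3 := (hpos n).ne'
    field_simp
    linarith
  · have : Tendsto (fun n => √(lam n)) atTop atTop := Real.tendsto_sqrt_atTop.comp hlam
    exact (this.inv_tendsto_atTop).congr (fun n => by simp [one_div])
  · exact hqe φ hφ k

lemma ofReal_fderiv' {g : ℂ → ℝ} {z : ℂ} (hg : DifferentiableAt ℝ g z) (v : ℂ) :
    fderiv ℝ (fun z => (g z : ℂ)) z v = ((fderiv ℝ g z v : ℝ) : ℂ) := by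
  have h1 : HasFDerivAt (fun w => (g w : ℂ)) (ofRealCLM.comp (fderiv ℝ g z)) z :=
    ofRealCLM.hasFDerivAt.comp z hg.hasFDerivAt
  rw [h1.fderiv]; rfl

lemma Sys.shift {Ω : Set ℂ} {h : ℕ → ℝ} {u : ℕ → ℂ → ℝ} (hS : Sys Ω h u) (N : ℕ) :
    Sys Ω (fun n => h (n + N)) (fun n => u (n + N)) := by
  refine ⟨fun n => hS.sol (n + N), ?_, fun φ hφ k => ?_⟩
  · exact (tendsto_add_atTop_iff_nat N).2 hS.hlim
  · exact (tendsto_add_atTop_iff_nat N).2 (hS.qe φ hφ k)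

/-- a configuration exists after a shift -/
lemma exists_cfg {Ω : Set ℂ} (hΩ : IsOpen Ω) {h : ℕ → ℝ}
    (hlim : Tendsto h atTop (𝓝 0)) {φ : ℂ → ℝ} (hφ : TF Ω φ) (R : ℝ) (hR : 0 ≤ R) :
    ∃ (N : ℕ) (B L : Set ℂ), Cfg Ω B L (fun n => h (n + N)) R ∧ TF B φ := by
  have hK : IsCompact (tsupport φ) := hφ.2.1
  obtain ⟨L, hL, hL1, hL2⟩ := exists_compact_between hK hΩ hφ.2.2
  obtain ⟨δ, hδ, hth⟩ := hK.exists_thickening_subset_open isOpen_interior hL1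
  have hlR : Tendsto (fun n => h n * R) atTop (𝓝 0) := by
    have := hlim.mul_const R
    rwa [zero_mul] at this
  have hev := hlR.eventually (gt_mem_nhds (by positivity : 0 < δ / 2))
  rw [eventually_atTop] at hev
  obtain ⟨N, hN⟩ := hev
  refine ⟨N, Metric.thickening (δ / 2) (tsupport φ), L, ⟨hΩ, Metric.isOpen_thickening, hL, hL2, hR,
    ?_⟩, hφ.1, hφ.2.1, ?_⟩
  · intro n z hz y hy
    refine hth ?_
    rw [Metric.mem_thickening_iff] at hz ⊢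
    obtain ⟨x, hx, hzx⟩ := hz
    refine ⟨x, hx, ?_⟩
    have h1 := hN (n + N) (by omega)
    have h2 : dist (z + y) x ≤ dist (z + y) z + dist z x := dist_triangle _ _ _
    have h3 : dist (z + y) z = ‖y‖ := by rw [dist_eq_norm]; congr 1; ring
    rw [h3] at h2
    linarith
  · exact Metric.self_subset_thickening (by positivity) _

/-- linear combinations of the `W_m` with constant coefficients -/
def LC (Ω : Set ℂ) (h : ℕ → ℝ) (u : ℕ → ℂ → ℝ) (f : ℕ → ℂ → ℂ) : Prop :=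
  ∃ (N : ℕ) (c : Fin N → ℂ) (m : Fin N → ℤ), ∀ n, ∀ z ∈ Ω, f n z = ∑ i, c i * WW h u n (m i) z

lemma LC.of {Ω : Set ℂ} {h : ℕ → ℝ} {u : ℕ → ℂ → ℝ} (m : ℤ) : LC Ω h u (fun n => WW h u n m) :=
  ⟨1, fun _ => 1, fun _ => m, fun n z _ => by simp⟩

lemma LC.zero {Ω : Set ℂ} {h : ℕ → ℝ} {u : ℕ → ℂ → ℝ} : LC Ω h u (fun _ _ => 0) :=
  ⟨0, fun _ => 1, fun _ => 0, fun n z _ => by simp⟩

lemma LC.congr {Ω : Set ℂ} {h : ℕ → ℝ} {u : ℕ → ℂ → ℝ} {f g : ℕ → ℂ → ℂ} (hf : LC Ω h u f)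
    (e : ∀ n, ∀ z ∈ Ω, f n z = g n z) : LC Ω h u g := by
  obtain ⟨N, c, m, hN⟩ := hf
  exact ⟨N, c, m, fun n z hz => by rw [← e n z hz, hN n z hz]⟩

lemma LC.add {Ω : Set ℂ} {h : ℕ → ℝ} {u : ℕ → ℂ → ℝ} {f g : ℕ → ℂ → ℂ} (hf : LC Ω h u f)
    (hg : LC Ω h u g) : LC Ω h u (fun n z => f n z + g n z) := by
  obtain ⟨N, c, m, hN⟩ := hf
  obtain ⟨N', c', m', hN'⟩ := hg
  refine ⟨N + N', Fin.append c c', Fin.append m m', fun n z hz => ?_⟩
  show f n z + g n z = _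
  rw [hN n z hz, hN' n z hz, Fin.sum_univ_add]
  congr 1
  · exact Finset.sum_congr rfl fun i _ => by rw [Fin.append_left, Fin.append_left]
  · exact Finset.sum_congr rfl fun i _ => by rw [Fin.append_right, Fin.append_right]

lemma LC.cmul {Ω : Set ℂ} {h : ℕ → ℝ} {u : ℕ → ℂ → ℝ} {f : ℕ → ℂ → ℂ} (hf : LC Ω h u f) (k : ℂ) :
    LC Ω h u (fun n z => k * f n z) := by
  obtain ⟨N, c, m, hN⟩ := hf
  refine ⟨N, fun i => k * c i, m, fun n z hz => ?_⟩
  show k * f n z = _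
  rw [hN n z hz, Finset.mul_sum]
  exact Finset.sum_congr rfl fun i _ => by ring

lemma LC.sum {Ω : Set ℂ} {h : ℕ → ℝ} {u : ℕ → ℂ → ℝ} {N : ℕ} {f : Fin N → ℕ → ℂ → ℂ}
    (hf : ∀ i, LC Ω h u (f i)) : LC Ω h u (fun n z => ∑ i, f i n z) := by
  induction N with
  | zero => exact LC.zero.congr (fun n z _ => by simp)
  | succ N ih =>
    exact ((hf 0).add (ih (fun i => hf i.succ))).congr (fun n z _ => by rw [Fin.sum_univ_succ])

/-- stability under `h ∂_v` -/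
lemma LC.d {Ω : Set ℂ} (hΩ : IsOpen Ω) {h : ℕ → ℝ} {u : ℕ → ℂ → ℝ} (hS : Sys Ω h u)
    {f : ℕ → ℂ → ℂ} (hf : LC Ω h u f) (w : ℂ) :
    LC Ω h u (fun n z => fderiv ℝ (f n) z ((h n : ℂ) * w)) := by
  have hF := famW hΩ hS
  obtain ⟨N, c, m, hN⟩ := hf
  have h1 : LC Ω h u (fun n z => ∑ i, c i *
      ((w / 2) * WW h u n (m i + 1) z + (-(starRingEnd ℂ) w / 2) * WW h u n (m i - 1) z)) :=
    LC.sum (fun i => (((LC.of (m i + 1)).cmul (w / 2)).add
      ((LC.of (m i - 1)).cmul (-(starRingEnd ℂ) w / 2))).cmul (c i))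
  refine h1.congr (fun n z hz => ?_)
  have he : f n =ᶠ[𝓝 z] fun z => ∑ i, c i * WW h u n (m i) z := by
    filter_upwards [hΩ.mem_nhds hz] with y hy
    exact hN n y hy
  have hd : ∀ i, HasFDerivAt (fun z => c i * WW h u n (m i) z)
      (c i • fderiv ℝ (WW h u n (m i)) z) z := by
    intro i
    exact ((((hF.smooth n (m i)).contDiffAt (hΩ.mem_nhds hz)).differentiableAt
      (by simp)).hasFDerivAt).const_mul (c i)
  have hs := (HasFDerivAt.fun_sum (u := Finset.univ) (fun i _ => hd i)).fderiv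
  rw [he.fderiv_eq, hs]
  simp only [FunLike.coe_sum, Finset.sum_apply, FunLike.coe_smul,
    Pi.smul_apply, smul_eq_mul]
  refine Finset.sum_congr rfl fun i _ => ?_
  rw [Fam.disp hF n (m i) w hz]
  ring

/-- **three point functions** -/
theorem three_pt {Ω : Set ℂ} (hΩ : IsOpen Ω) {h : ℕ → ℝ} {u : ℕ → ℂ → ℝ} (hS : Sys Ω h u)
    {f₁ f₂ f₃ : ℕ → ℂ → ℂ} (l₁ : LC Ω h u f₁) (l₂ : LC Ω h u f₂) (l₃ : LC Ω h u f₃)
    {φ : ℂ → ℝ} (hφ : TF Ω φ) (w₁ w₂ w₃ : ℂ) :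
    Null (fun n => ∫ z, (φ z : ℂ) * (f₁ n (z + (h n : ℂ) * w₁) * f₂ n (z + (h n : ℂ) * w₂) *
      f₃ n (z + (h n : ℂ) * w₃))) := by
  obtain ⟨N₁, c₁, m₁, e₁⟩ := l₁
  obtain ⟨N₂, c₂, m₂, e₂⟩ := l₂
  obtain ⟨N₃, c₃, m₃, e₃⟩ := l₃
  set R := ‖w₁‖ + ‖w₂‖ + ‖w₃‖ with hR
  have hR0 : 0 ≤ R := by positivity
  obtain ⟨N, B, L, c, hφB⟩ := exists_cfg hΩ hS.hlim hφ R hR0
  have hS' := Sys.shift hS N
  have b1 : ‖w₁‖ ≤ R := by have := norm_nonneg w₂; have := norm_nonneg w₃; linarith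
  have b2 : ‖w₂‖ ≤ R := by have := norm_nonneg w₁; have := norm_nonneg w₃; linarith
  have b3 : ‖w₃‖ ≤ R := by have := norm_nonneg w₁; have := norm_nonneg w₂; linarith
  have b12 : ‖w₂ - w₁‖ ≤ R := by
    have := norm_sub_le w₂ w₁
    have := norm_nonneg w₃; linarith
  refine (tendsto_add_atTop_iff_nat N).1 ?_
  have key : Tendsto (fun n => ∑ i, ∑ j, ∑ k, (c₁ i * c₂ j * c₃ k) *
      M3 φ (VV (fun n => h (n + N)) (fun n => u (n + N)) w₁)
        (VV (fun n => h (n + N)) (fun n => u (n + N)) w₂)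
        (VV (fun n => h (n + N)) (fun n => u (n + N)) w₃) (m₁ i) (m₂ j) (m₃ k) n) atTop
      (𝓝 (∑ i : Fin N₁, ∑ j : Fin N₂, ∑ k : Fin N₃, (0 : ℂ))) := by
    refine tendsto_finsetSum _ (fun i _ => tendsto_finsetSum _ (fun j _ =>
      tendsto_finsetSum _ (fun k _ => ?_)))
    exact Null.cmul (third_V c hS' b1 b2 b3 b12 hφB (m₁ i) (m₂ j) (m₃ k)) _
  simp only [Finset.sum_const_zero] at key
  refine key.congr (fun n => ?_)
  have f1 := famV c hS' b1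
  have f2 := famV c hS' b2
  have f3 := famV c hS' b3
  have ii : ∀ i j k, Integrable (fun z => (c₁ i * c₂ j * c₃ k) * ((φ z : ℂ) *
      (VV (fun n => h (n + N)) (fun n => u (n + N)) w₁ n (m₁ i) z *
        VV (fun n => h (n + N)) (fun n => u (n + N)) w₂ n (m₂ j) z *
        VV (fun n => h (n + N)) (fun n => u (n + N)) w₃ n (m₃ k) z))) := fun i j k =>
    (int_mul c.oB hφB (((f1.smooth n _).continuousOn.mul (f2.smooth n _).continuousOn).mul
      (f3.smooth n _).continuousOn)).const_mul _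
  unfold M3
  simp_rw [← integral_const_mul]
  simp_rw [← integral_finsetSum _ (fun k _ => ii _ _ k)]
  simp_rw [← integral_finsetSum _ (fun j _ => integrable_finsetSum _ (fun k _ => ii _ j k))]
  rw [← integral_finsetSum _ (fun i _ => integrable_finsetSum _ (fun j _ =>
    integrable_finsetSum _ (fun k _ => ii i j k)))]
  refine integral_congr_ae (Eventually.of_forall fun z => ?_)
  simp only
  by_cases hz : z ∈ B
  · have hm : ∀ {w : ℂ}, ‖w‖ ≤ R → z + (h (n + N) : ℂ) * w ∈ Ω := by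
      intro w hw
      refine c.LΩ (interior_subset (c.mv n z hz _ ?_))
      have hp := (hS.sol (n + N)).hpos
      rw [norm_mul, Complex.norm_real, Real.norm_of_nonneg hp.le]
      exact mul_le_mul_of_nonneg_left hw hp.le
    rw [e₁ _ _ (hm b1), e₂ _ _ (hm b2), e₃ _ _ (hm b3), Finset.sum_mul_sum, Finset.sum_mul,
      Finset.mul_sum]
    refine Finset.sum_congr rfl fun i _ => ?_
    rw [Finset.sum_mul, Finset.mul_sum]
    refine Finset.sum_congr rfl fun j _ => ?_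
    rw [Finset.mul_sum, Finset.mul_sum]
    refine Finset.sum_congr rfl fun k _ => ?_
    simp only [VV, WW]
    ring
  · rw [TF.zero hφB hz]; simp

end

end Pool.Agent.Y265.RW
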