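import Pool.Agent.Y265.RW.Fn1

/-! Three point functions of all derivatives. -/
set_option autoImplicit false
open MeasureTheory Filter Topology Complex
open scoped ContDiff Manifold Convolution

namespace Pool.Agent.Y265.RW

open Pool.Agent.W745.RW

noncomputable section

/-- real sequences which are linear combinations of the `W_m` -/
def LR (Ω : Set ℂ) (h : ℕ → ℝ) (u : ℕ → ℂ → ℝ) (g : ℕ → ℂ → ℝ) : Prop :=
  (∀ n, ContDiffOn ℝ ∞ (g n) Ω) ∧ LC Ω h u (fun n z => (g n z : ℂ))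

lemma ofReal_fderiv0 {g : ℂ → ℝ} {z : ℂ} (hg : DifferentiableAt ℝ g z) (v : ℂ) :
    fderiv ℝ (fun z => (g z : ℂ)) z v = ((fderiv ℝ g z v : ℝ) : ℂ) := by
  have h1 : HasFDerivAt (fun w => (g w : ℂ)) (ofRealCLM.comp (fderiv ℝ g z)) z :=
    ofRealCLM.hasFDerivAt.comp z hg.hasFDerivAt
  rw [h1.fderiv]; rfl

lemma LR.d {Ω : Set ℂ} (hΩ : IsOpen Ω) {h : ℕ → ℝ} {u : ℕ → ℂ → ℝ} (hS : Sys Ω h u)
    {g : ℕ → ℂ → ℝ} (hg : LR Ω h u g) (v : ℂ) :
    LR Ω h u (fun n z => h n * fderiv ℝ (g n) z v) := by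
  refine ⟨fun n => contDiffOn_const.mul
    (((hg.1 n).fderiv_of_isOpen hΩ (by simp)).clm_apply contDiffOn_const), ?_⟩
  refine (hg.2.d hΩ hS v).congr (fun n z hz => ?_)
  have hd : DifferentiableAt ℝ (g n) z :=
    ((hg.1 n).contDiffAt (hΩ.mem_nhds hz)).differentiableAt (by simp)
  rw [ofReal_fderiv0 hd]
  have : (h n : ℂ) * v = (h n) • v := by rw [real_smul]
  rw [this, map_smul, smul_eq_mul]

/-- normalised partial derivatives -/
def pdv (h : ℝ) (a b : ℕ) (u : ℂ → ℝ) (z : ℂ) : ℝ := h ^ (a + b) * (dx^[a] (dy^[b] u)) z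

lemma LR.pdv {Ω : Set ℂ} (hΩ : IsOpen Ω) {h : ℕ → ℝ} {u : ℕ → ℂ → ℝ} (hS : Sys Ω h u)
    (a b : ℕ) : LR Ω h u (fun n z => pdv (h n) a b (u n) z) := by
  have key : ∀ (g : ℕ → ℂ → ℝ) (k : ℕ) (v : ℂ), (LR Ω h u (fun n z => h n ^ k * g n z)) →
      LR Ω h u (fun n z => h n ^ (k + 1) * fderiv ℝ (g n) z v) := by
    intro g k v hg
    have h1 := hg.d hΩ hS v
    have e : (fun n z => h n * fderiv ℝ (fun z => h n ^ k * g n z) z v) =
        fun n z => h n ^ (k + 1) * fderiv ℝ (g n) z v := by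
      funext n z
      have : fderiv ℝ (fun z => h n ^ k * g n z) z = h n ^ k • fderiv ℝ (g n) z := by
        have hne : h n ^ k ≠ 0 := (pow_pos (hS.sol n).hpos k).ne'
        by_cases hd : DifferentiableAt ℝ (g n) z
        · exact fderiv_const_mul hd _
        · rw [fderiv_zero_of_not_differentiableAt hd, smul_zero,
            fderiv_zero_of_not_differentiableAt]
          intro hd'
          refine hd ?_
          have := hd'.const_mul (h n ^ k)⁻¹
          refine this.congr_of_eventuallyEq (Eventually.of_forall fun w => ?_)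
          simp only
          field_simp
      rw [this]
      simp only [FunLike.coe_smul, Pi.smul_apply, smul_eq_mul]
      ring
    rw [← e]; exact h1
  have hb : ∀ b : ℕ, LR Ω h u (fun n z => h n ^ b * (dy^[b] (u n)) z) := by
    intro b
    induction b with
    | zero =>
      refine ⟨fun n => contDiffOn_const.mul (hS.sol n).smooth, ?_⟩
      refine (LC.of 0).congr (fun n z _ => ?_)
      show (u n z : ℂ) = _
      simp
    | succ b ih =>
      have := key (fun n => dy^[b] (u n)) b I ih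
      simp only [Function.iterate_succ_apply']
      exact this
  have ha : ∀ a : ℕ, LR Ω h u (fun n z => h n ^ (b + a) * (dx^[a] (dy^[b] (u n))) z) := by
    intro a
    induction a with
    | zero => simpa using hb b
    | succ a ih =>
      have := key (fun n => dx^[a] (dy^[b] (u n))) (b + a) 1 ih
      simp only [Function.iterate_succ_apply']
      exact this
  have := ha a
  simp only [Pool.Agent.Y265.RW.pdv, add_comm a b]
  exact this

theorem three_pdv {Ω : Set ℂ} (hΩ : IsOpen Ω) {h : ℕ → ℝ} {u : ℕ → ℂ → ℝ} (hS : Sys Ω h u)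
    (a b : Fin 3 → ℕ) (w : Fin 3 → ℂ) {φ : ℂ → ℝ} (hφ : TF Ω φ) :
    Tendsto (fun n => ∫ z, φ z * ∏ i, pdv (h n) (a i) (b i) (u n) (z + (h n : ℂ) * w i)) atTop
      (𝓝 0) := by
  have key := three_pt hΩ hS (LR.pdv hΩ hS (a 0) (b 0)).2 (LR.pdv hΩ hS (a 1) (b 1)).2
    (LR.pdv hΩ hS (a 2) (b 2)).2 hφ (w 0) (w 1) (w 2)
  have h2 := (Complex.continuous_re.tendsto _).comp key
  rw [Complex.zero_re] at h2
  refine h2.congr (fun n => ?_)
  simp only [Function.comp_apply]
  have e : ∫ z, (φ z : ℂ) * ((pdv (h n) (a 0) (b 0) (u n) (z + (h n : ℂ) * w 0) : ℂ) *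
      (pdv (h n) (a 1) (b 1) (u n) (z + (h n : ℂ) * w 1) : ℂ) *
      (pdv (h n) (a 2) (b 2) (u n) (z + (h n : ℂ) * w 2) : ℂ)) =
      ((∫ z, φ z * ∏ i, pdv (h n) (a i) (b i) (u n) (z + (h n : ℂ) * w i) : ℝ) : ℂ) := by
    rw [← integral_complex_ofReal]
    refine integral_congr_ae (Eventually.of_forall fun z => ?_)
    simp only [Fin.prod_univ_three]
    push_cast
    ring
  rw [e, Complex.ofReal_re]

end

end Pool.Agent.Y265.RW
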