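import Pool.Agent.Y265.RW.Q

/-! The bilinear identity for pairs of divergence free symmetric tensors. -/
set_option autoImplicit false
open MeasureTheory Filter Topology Complex
open scoped ContDiff Convolution

namespace Pool.Agent.Y265.RW

open Pool.Agent.W745.RW

noncomputable section

lemma dx_smooth' {Y : ℂ → ℂ} (h : ContDiff ℝ ∞ Y) : ContDiff ℝ ∞ (dx Y) :=
  (h.fderiv_right (by simp)).clm_apply contDiff_const
lemma dy_smooth' {Y : ℂ → ℂ} (h : ContDiff ℝ ∞ Y) : ContDiff ℝ ∞ (dy Y) :=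
  (h.fderiv_right (by simp)).clm_apply contDiff_const

lemma pair_int {X Y : ℂ → ℂ} (hX : SC X) (hY : ContDiff ℝ ∞ Y) :
    Integrable (fun z => X z * Y z) := (hX.mul hY).int

lemma symm' {Y : ℂ → ℂ} (h : ContDiff ℝ ∞ Y) (z : ℂ) : dx (dy Y) z = dy (dx Y) z :=
  Pool.Agent.W924.RW.WP.symm isOpen_univ h.contDiffOn (Set.mem_univ z)

lemma ptx {X Y : ℂ → ℂ} (hX : SC X) (hY : ContDiff ℝ ∞ Y) :
    ∫ z, X z * dx Y z = - ∫ z, dx X z * Y z := pt hX hY 1
lemma pty {X Y : ℂ → ℂ} (hX : SC X) (hY : ContDiff ℝ ∞ Y) :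
    ∫ z, X z * dy Y z = - ∫ z, dy X z * Y z := pt hX hY I

lemma d3 {a b c : ℂ → ℂ} (ha : ContDiff ℝ ∞ a) (hb : ContDiff ℝ ∞ b) (hc : ContDiff ℝ ∞ c)
    (z v : ℂ) : fderiv ℝ (fun w => a w + b w - c w) z v =
      fderiv ℝ a z v + fderiv ℝ b z v - fderiv ℝ c z v := by
  have h1 := (ha.differentiable (by simp) z).hasFDerivAt
  have h2 := (hb.differentiable (by simp) z).hasFDerivAt
  have h3 := (hc.differentiable (by simp) z).hasFDerivAt
  have := ((h1.add h2).sub h3).fderiv
  change fderiv ℝ (fun w => a w + b w - c w) z = _ at this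
  rw [this]
  simp

theorem ident {A B C P Q R f1 f2 g1 g2 : ℂ → ℂ} (hA : SC A) (hB : SC B) (hC : SC C) (hP : SC P)
    (hQ : SC Q) (hR : SC R) (hf1 : SC f1) (hf2 : SC f2) (hg1 : SC g1) (hg2 : SC g2)
    (hf : ∀ z, dx P z + dy Q z = f1 z + f2 z) (hg : ∀ z, dx Q z + dy R z = g1 z + g2 z)
    (vA : ∀ z, A z = 0 ∨ dx (GG g1) z = 0)
    (vB : ∀ z, B z = 0 ∨ (dy (GG g2) z = 0 ∧ dx (GG f1) z = 0))
    (vC : ∀ z, C z = 0 ∨ dy (GG f2) z = 0) :
    ∫ z, (A z * R z + C z * P z - 2 * B z * Q z) =
      - (∫ z, (dx (fun z => dx A z + dy B z) z + dy (fun z => dx B z + dy C z) z) * GG Q z)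
      - (∫ z, (dx A z + dy B z) * GG g2 z) - ∫ z, (dx B z + dy C z) * GG f1 z := by
  have sQ := GG_smooth hQ
  have sR := GG_smooth hR
  have sP := GG_smooth hP
  have sg1 := GG_smooth hg1
  have sg2 := GG_smooth hg2
  have sf1 := GG_smooth hf1
  have sf2 := GG_smooth hf2
  have e1 : dx (GG Q) = fun w => GG g1 w + GG g2 w - dy (GG R) w := by
    funext w
    have a1 : dx (GG Q) w = GG (dx Q) w := GG_fderiv hQ w 1
    have a2 : dy (GG R) w = GG (dy R) w := GG_fderiv hR w I
    rw [a1, a2, ← GG_add hg1 hg2, ← GG_sub (hg1.add hg2) hR.dy]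
    refine congrFun (GG_congr (fun z => ?_)) w
    have := hg z
    linear_combination this
  have e2 : dy (GG Q) = fun w => GG f1 w + GG f2 w - dx (GG P) w := by
    funext w
    have a1 : dy (GG Q) w = GG (dy Q) w := GG_fderiv hQ w I
    have a2 : dx (GG P) w = GG (dx P) w := GG_fderiv hP w 1
    rw [a1, a2, ← GG_add hf1 hf2, ← GG_sub (hf1.add hf2) hP.dx]
    refine congrFun (GG_congr (fun z => ?_)) w
    have := hf z
    linear_combination this
  have r1 : ∀ z, R z = dx (GG g1) z + dx (GG g2) z - dx (dx (GG Q)) z := by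
    intro z
    have := d3 sg1 sg2 (dy_smooth' sR) z 1
    have a1 : dx (dx (GG Q)) z = dx (GG g1) z + dx (GG g2) z - dx (dy (GG R)) z := by
      rw [e1]; exact this
    rw [GG_dxdy hR] at a1
    linear_combination a1
  have r2 : ∀ z, P z = dy (GG f1) z + dy (GG f2) z - dy (dy (GG Q)) z := by
    intro z
    have := d3 sf1 sf2 (dx_smooth' sP) z I
    have a1 : dy (dy (GG Q)) z = dy (GG f1) z + dy (GG f2) z - dy (dx (GG P)) z := by
      rw [e2]; exact this
    rw [← symm' sP, GG_dxdy hP] at a1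
    linear_combination a1
  have r3 : ∀ z, Q z = dx (dy (GG Q)) z := fun z => (GG_dxdy hQ z).symm
  have r4 : ∀ z, Q z = dy (dx (GG Q)) z := fun z => by rw [← symm' sQ, GG_dxdy hQ z]
  have i1 := pair_int hA (dx_smooth' sg2)
  have i2 := pair_int hC (dy_smooth' sf1)
  have i3 := pair_int hA (dx_smooth' (dx_smooth' sQ))
  have i4 := pair_int hC (dy_smooth' (dy_smooth' sQ))
  have i5 := pair_int hB (dx_smooth' (dy_smooth' sQ))
  have i6 := pair_int hB (dy_smooth' (dx_smooth' sQ))
  have L : ∫ z, (A z * R z + C z * P z - 2 * B z * Q z) =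
      (∫ z, A z * dx (GG g2) z) + (∫ z, C z * dy (GG f1) z) - (∫ z, A z * dx (dx (GG Q)) z)
      - (∫ z, C z * dy (dy (GG Q)) z) - (∫ z, B z * dx (dy (GG Q)) z)
      - ∫ z, B z * dy (dx (GG Q)) z := by
    have w2 : Integrable (fun z => A z * dx (GG g2) z + C z * dy (GG f1) z) := i1.add i2
    have w3 : Integrable (fun z => A z * dx (GG g2) z + C z * dy (GG f1) z
      - A z * dx (dx (GG Q)) z) := w2.sub i3
    have w4 : Integrable (fun z => A z * dx (GG g2) z + C z * dy (GG f1) z
      - A z * dx (dx (GG Q)) z - C z * dy (dy (GG Q)) z) := w3.sub i4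
    have w5 : Integrable (fun z => A z * dx (GG g2) z + C z * dy (GG f1) z
      - A z * dx (dx (GG Q)) z - C z * dy (dy (GG Q)) z - B z * dx (dy (GG Q)) z) := w4.sub i5
    rw [← integral_add i1 i2, ← integral_sub w2 i3, ← integral_sub w3 i4,
      ← integral_sub w4 i5, ← integral_sub w5 i6]
    refine integral_congr_ae (Eventually.of_forall fun z => ?_)
    simp only [Pi.add_apply, Pi.sub_apply]
    have q1 : A z * dx (GG g1) z = 0 := by rcases vA z with h | h <;> rw [h] <;> simp
    have q2 : C z * dy (GG f2) z = 0 := by rcases vC z with h | h <;> rw [h] <;> simp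
    have q3 := r1 z
    have q4 := r2 z
    have q5 := r3 z
    have q6 := r4 z
    linear_combination (A z) * q3 + (C z) * q4 - (B z) * q5 - (B z) * q6 + q1 + q2
  rw [L, ptx hA sg2, pty hC sf1, ptx hA (dx_smooth' sQ), pty hC (dy_smooth' sQ),
    ptx hB (dy_smooth' sQ), pty hB (dx_smooth' sQ)]
  have hα : SC (fun z => dx A z + dy B z) := hA.dx.add hB.dy
  have hβ : SC (fun z => dx B z + dy C z) := hB.dx.add hC.dy
  have j1 := pair_int hα.dx sQ
  have j2 := pair_int hβ.dy sQ
  have k1 : ∫ z, (dx (fun z => dx A z + dy B z) z + dy (fun z => dx B z + dy C z) z) * GG Q z =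
      - (∫ z, (dx A z + dy B z) * dx (GG Q) z) - ∫ z, (dx B z + dy C z) * dy (GG Q) z := by
    rw [ptx hα sQ, pty hβ sQ, neg_neg, sub_neg_eq_add, ← integral_add j1 j2]
    refine integral_congr_ae (Eventually.of_forall fun z => ?_)
    simp only
    ring
  have m1 := pair_int hA.dx (dx_smooth' sQ)
  have m2 := pair_int hB.dy (dx_smooth' sQ)
  have m3 := pair_int hB.dx (dy_smooth' sQ)
  have m4 := pair_int hC.dy (dy_smooth' sQ)
  have k2 : ∫ z, (dx A z + dy B z) * dx (GG Q) z =
      (∫ z, dx A z * dx (GG Q) z) + ∫ z, dy B z * dx (GG Q) z := by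
    rw [← integral_add m1 m2]
    refine integral_congr_ae (Eventually.of_forall fun z => ?_)
    simp only
    ring
  have k3 : ∫ z, (dx B z + dy C z) * dy (GG Q) z =
      (∫ z, dx B z * dy (GG Q) z) + ∫ z, dy C z * dy (GG Q) z := by
    rw [← integral_add m3 m4]
    refine integral_congr_ae (Eventually.of_forall fun z => ?_)
    simp only
    ring
  have n1 := pair_int hA.dx sg2
  have n2 := pair_int hB.dy sg2
  have n3 := pair_int hB.dx sf1
  have n4 := pair_int hC.dy sf1
  have z1 : ∫ z, dy B z * GG g2 z = 0 := by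
    have := pty hB sg2
    have h0 : ∫ z, B z * dy (GG g2) z = 0 := by
      refine integral_eq_zero_of_ae (Eventually.of_forall fun z => ?_)
      rcases vB z with h | h
      · simp [h]
      · simp [h.1]
    rw [h0] at this
    linear_combination this
  have z2 : ∫ z, dx B z * GG f1 z = 0 := by
    have := ptx hB sf1
    have h0 : ∫ z, B z * dx (GG f1) z = 0 := by
      refine integral_eq_zero_of_ae (Eventually.of_forall fun z => ?_)
      rcases vB z with h | h
      · simp [h]
      · simp [h.2]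
    rw [h0] at this
    linear_combination this
  have k4 : ∫ z, (dx A z + dy B z) * GG g2 z = ∫ z, dx A z * GG g2 z := by
    have : ∫ z, (dx A z + dy B z) * GG g2 z =
        (∫ z, dx A z * GG g2 z) + ∫ z, dy B z * GG g2 z := by
      rw [← integral_add n1 n2]
      refine integral_congr_ae (Eventually.of_forall fun z => ?_)
      simp only
      ring
    rw [this, z1, add_zero]
  have k5 : ∫ z, (dx B z + dy C z) * GG f1 z = ∫ z, dy C z * GG f1 z := by
    have : ∫ z, (dx B z + dy C z) * GG f1 z =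
        (∫ z, dx B z * GG f1 z) + ∫ z, dy C z * GG f1 z := by
      rw [← integral_add n3 n4]
      refine integral_congr_ae (Eventually.of_forall fun z => ?_)
      simp only
      ring
    rw [this, z2, zero_add]
  rw [k1, k2, k3, k4, k5]
  ring

end

end Pool.Agent.Y265.RW
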