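import Pool.Agent.Y265.RW.U

/-! The null form lemma on a box. -/
set_option autoImplicit false
open MeasureTheory Filter Topology Complex
open scoped ContDiff Manifold

namespace Pool.Agent.Y265.RW

open Pool.Agent.W745.RW
open Pool.Agent.W450.RW.RE (cut_smooth)

noncomputable section

/-- symmetric divergence free tensors -/
def DF (B : Set ℂ) (p q r : ℂ → ℂ) : Prop :=
  ContDiffOn ℝ ∞ p B ∧ ContDiffOn ℝ ∞ q B ∧ ContDiffOn ℝ ∞ r B ∧
  ∀ z ∈ B, dx p z + dy q z = 0 ∧ dx q z + dy r z = 0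

/-- bounded in `L¹` locally -/
def L1b (B : Set ℂ) (p : ℕ → ℂ → ℂ) : Prop :=
  ∀ K : Set ℂ, IsCompact K → K ⊆ B → ∃ C : ℝ, ∀ᶠ n in atTop, ∫ z in K, ‖p n z‖ ≤ C

/-- the quadrant potentials of all localisations are uniformly small -/
def UG (B : Set ℂ) (p : ℕ → ℂ → ℂ) : Prop :=
  ∀ ψ, TF B ψ → ∀ K : Set ℂ, IsCompact K → ∀ ε : ℝ, 0 < ε →
    ∀ᶠ n in atTop, ∀ z ∈ K, ‖GG (fun w => (ψ w : ℂ) * p n w) z‖ ≤ ε

lemma tfS {B : Set ℂ} (hB : IsOpen B) {φ : ℂ → ℝ} (hφ : TF B φ) {p : ℂ → ℂ}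
    (hp : ContDiffOn ℝ ∞ p B) : SC (fun z => (φ z : ℂ) * p z) :=
  ⟨cut_smooth hB hφ.1 hφ.2.2 hp,
    (hφ.2.1.comp_left (g := fun x : ℝ => (x : ℂ)) Complex.ofReal_zero).mul_right⟩

lemma tfd {B : Set ℂ} {φ : ℂ → ℝ} (hφ : TF B φ) (v : ℂ) : TF B (fun z => fderiv ℝ φ z v) :=
  Pool.Agent.W450.RW.T.tf_deriv hφ v
lemma tfx {B : Set ℂ} {φ : ℂ → ℝ} (hφ : TF B φ) : TF B (dx φ) := tfd hφ 1
lemma tfy {B : Set ℂ} {φ : ℂ → ℝ} (hφ : TF B φ) : TF B (dy φ) := tfd hφ I

/-- Leibniz rule for a localised function, valid everywhere -/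
lemma loc_d {B : Set ℂ} (hB : IsOpen B) {φ : ℂ → ℝ} (hφ : TF B φ) {p : ℂ → ℂ}
    (hp : ContDiffOn ℝ ∞ p B) (z v : ℂ) :
    fderiv ℝ (fun z => (φ z : ℂ) * p z) z v =
      (φ z : ℂ) * fderiv ℝ p z v + ((fderiv ℝ φ z v : ℝ) : ℂ) * p z := by
  by_cases hz : z ∈ B
  · have dφ : HasFDerivAt φ (fderiv ℝ φ z) z :=
      (hφ.1.differentiable (by simp) z).hasFDerivAt
    have dφ' : HasFDerivAt (fun z => (φ z : ℂ)) (Complex.ofRealCLM.comp (fderiv ℝ φ z)) z :=
      Complex.ofRealCLM.hasFDerivAt.comp z dφ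
    have dG : HasFDerivAt p (fderiv ℝ p z) z :=
      ((hp.contDiffAt (hB.mem_nhds hz)).differentiableAt (by simp)).hasFDerivAt
    have f1 := (dφ'.mul dG).fderiv
    change fderiv ℝ (fun z => (φ z : ℂ) * p z) z = _ at f1
    rw [f1]
    simp
    ring
  · have h0 : φ =ᶠ[𝓝 z] 0 := notMem_tsupport_iff_eventuallyEq.1 (fun h => hz (hφ.2.2 h))
    have h1 : (fun z => (φ z : ℂ) * p z) =ᶠ[𝓝 z] fun _ => 0 := by
      filter_upwards [h0] with w hw
      simp [hw]
    have e1 : φ z = 0 := h0.eq_of_nhds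
    have e2 : fderiv ℝ φ z = 0 := by
      rw [h0.fderiv_eq]; simp
    rw [h1.fderiv_eq]
    simp [e1, e2]

/-- the box cutoff -/
def bx (c : ℂ) (r : ℝ) (w : ℂ) : ℝ := tb c.re r w.re * tb c.im r w.im

lemma bx_smooth (c : ℂ) (r : ℝ) : ContDiff ℝ ∞ (bx c r) := by
  have sre : ContDiff ℝ ∞ (fun w : ℂ => w.re) := Complex.reCLM.contDiff
  have sim : ContDiff ℝ ∞ (fun w : ℂ => w.im) := Complex.imCLM.contDiff
  exact ((tb_smooth _ _).comp sre).mul ((tb_smooth _ _).comp sim)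

lemma bx_tf {c : ℂ} {r : ℝ} (hr : 0 < r) {B : Set ℂ} (h : Metric.ball c (4 * r) ⊆ B) :
    TF B (bx c r) := by
  have hs : Function.support (bx c r) ⊆ Metric.closedBall c (3 * r) := by
    intro w hw
    simp only [Function.mem_support, bx, ne_eq, mul_eq_zero, not_or] at hw
    have h1 : |w.re - c.re| < 2 * r := by
      by_contra hh
      exact hw.1 (tb_zero hr (not_lt.1 hh))
    have h2 : |w.im - c.im| < 2 * r := by
      by_contra hh
      exact hw.2 (tb_zero hr (not_lt.1 hh))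
    rw [Metric.mem_closedBall, dist_eq_norm]
    have h3 : ‖w - c‖ ^ 2 = (w.re - c.re) ^ 2 + (w.im - c.im) ^ 2 := by
      rw [← Complex.normSq_eq_norm_sq, Complex.normSq_apply]
      simp only [sub_re, sub_im]; ring
    have h4 : (w.re - c.re) ^ 2 ≤ (2 * r) ^ 2 := by
      rw [← sq_abs (w.re - c.re)]
      exact pow_le_pow_left₀ (abs_nonneg _) h1.le 2
    have h5 : (w.im - c.im) ^ 2 ≤ (2 * r) ^ 2 := by
      rw [← sq_abs (w.im - c.im)]
      exact pow_le_pow_left₀ (abs_nonneg _) h2.le 2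
    have h6 : ‖w - c‖ ^ 2 ≤ (3 * r) ^ 2 := by
      rw [h3]; nlinarith
    exact abs_le_of_sq_le_sq' h6 (by positivity) |>.2
  have hs' : tsupport (bx c r) ⊆ Metric.closedBall c (3 * r) :=
    closure_minimal hs Metric.isClosed_closedBall
  refine ⟨bx_smooth c r, ?_, ?_⟩
  · exact HasCompactSupport.intro (isCompact_closedBall c (3 * r)) (fun w hw => by
      by_contra h
      exact hw (hs h))
  · refine hs'.trans ((Metric.closedBall_subset_ball ?_).trans h)
    linarith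

lemma bx_dx {c : ℂ} {r : ℝ} (hr : 0 < r) {w : ℂ} (h : |w.re - c.re| < r) :
    fderiv ℝ (bx c r) w 1 = 0 := by
  have sim : ContDiff ℝ ∞ (fun w : ℂ => w.im) := Complex.imCLM.contDiff
  have hd : DifferentiableAt ℝ (fun w : ℂ => tb c.im r w.im) w :=
    ((tb_smooth c.im r).comp sim).differentiable (by simp) w
  have he : bx c r =ᶠ[𝓝 w] fun w => tb c.im r w.im := by
    have ho : IsOpen {w : ℂ | |w.re - c.re| < r} :=
      isOpen_lt ((continuous_re.sub continuous_const).abs) continuous_const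
    filter_upwards [ho.mem_nhds h] with v hv
    have hv' : |v.re - c.re| < r := hv
    rw [abs_lt] at hv'
    unfold bx
    rw [tb_one hr (by linarith) (by linarith), one_mul]
  rw [he.fderiv_eq]
  have h1 : HasFDerivAt (fun w : ℂ => tb c.im r w.im)
      ((fderiv ℝ (tb c.im r) w.im).comp Complex.imCLM) w :=
    (((tb_smooth c.im r).differentiable (by simp) w.im).hasFDerivAt).comp w
      Complex.imCLM.hasFDerivAt
  rw [h1.fderiv]
  simp

lemma bx_dy {c : ℂ} {r : ℝ} (hr : 0 < r) {w : ℂ} (h : |w.im - c.im| < r) :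
    fderiv ℝ (bx c r) w I = 0 := by
  have he : bx c r =ᶠ[𝓝 w] fun w => tb c.re r w.re := by
    have ho : IsOpen {w : ℂ | |w.im - c.im| < r} :=
      isOpen_lt ((continuous_im.sub continuous_const).abs) continuous_const
    filter_upwards [ho.mem_nhds h] with v hv
    have hv' : |v.im - c.im| < r := hv
    rw [abs_lt] at hv'
    unfold bx
    rw [tb_one (x := c.im) hr (by linarith) (by linarith), mul_one]
  rw [he.fderiv_eq]
  have h1 : HasFDerivAt (fun w : ℂ => tb c.re r w.re)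
      ((fderiv ℝ (tb c.re r) w.re).comp Complex.reCLM) w :=
    (((tb_smooth c.re r).differentiable (by simp) w.re).hasFDerivAt).comp w
      Complex.reCLM.hasFDerivAt
  rw [h1.fderiv]
  simp

lemma bx_one {c : ℂ} {r : ℝ} (hr : 0 < r) {w : ℂ} (h1 : |w.re - c.re| < r)
    (h2 : |w.im - c.im| < r) : bx c r w = 1 := by
  rw [abs_lt] at h1 h2
  unfold bx
  rw [tb_one hr (by linarith) (by linarith), tb_one hr (by linarith) (by linarith), one_mul]

/-- the identity on a box -/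
theorem box_ident {B : Set ℂ} (hB : IsOpen B) {c : ℂ} {r₀ : ℝ} (hr : 0 < r₀)
    (hcB : Metric.ball c (4 * r₀) ⊆ B) {φ : ℂ → ℝ} (hφ : TF (Metric.ball c r₀) φ)
    {p q r p' q' r' : ℂ → ℂ} (h : DF B p q r) (h' : DF B p' q' r') :
    ∫ z, (φ z : ℂ) * (p z * r' z + r z * p' z - 2 * q z * q' z) =
      - (∫ z, (((dx (dx φ) z : ℝ) : ℂ) * p z + 2 * ((dx (dy φ) z : ℝ) : ℂ) * q z + ((dy (dy φ) z : ℝ) : ℂ) * r z) *
          GG (fun w => (bx c r₀ w : ℂ) * q' w) z)
      - (∫ z, (((dx φ z : ℝ) : ℂ) * p z + ((dy φ z : ℝ) : ℂ) * q z) *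
          GG (fun w => ((dy (bx c r₀) w : ℝ) : ℂ) * r' w) z)
      - ∫ z, (((dx φ z : ℝ) : ℂ) * q z + ((dy φ z : ℝ) : ℂ) * r z) *
          GG (fun w => ((dx (bx c r₀) w : ℝ) : ℂ) * p' w) z := by
  obtain ⟨sp, sq, sr, hd⟩ := h
  obtain ⟨sp', sq', sr', hd'⟩ := h'
  have hφB : TF B φ := ⟨hφ.1, hφ.2.1, hφ.2.2.trans
    ((Metric.ball_subset_ball (by linarith)).trans hcB)⟩
  have hχ : TF B (bx c r₀) := bx_tf hr hcB
  have tA := tfS hB hφB sp
  have tB := tfS hB hφB sq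
  have tC := tfS hB hφB sr
  have tP := tfS hB hχ sp'
  have tQ := tfS hB hχ sq'
  have tR := tfS hB hχ sr'
  have tf1 := tfS hB (tfx hχ) sp'
  have tf2 := tfS hB (tfy hχ) sq'
  have tg1 := tfS hB (tfx hχ) sq'
  have tg2 := tfS hB (tfy hχ) sr'
  have hin : ∀ z, φ z ≠ 0 → |z.re - c.re| < r₀ ∧ |z.im - c.im| < r₀ := by
    intro z hz
    have h1 : z ∈ Metric.ball c r₀ := hφ.2.2 (subset_tsupport _ hz)
    rw [Metric.mem_ball, dist_eq_norm] at h1
    have h2 := Complex.abs_re_le_norm (z - c)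
    have h3 := Complex.abs_im_le_norm (z - c)
    rw [sub_re] at h2
    rw [sub_im] at h3
    exact ⟨h2.trans_lt h1, h3.trans_lt h1⟩
  have zx : ∀ s' : ℂ → ℂ, ContDiffOn ℝ ∞ s' B → ∀ z, |z.re - c.re| < r₀ →
      dx (GG (fun w => ((dx (bx c r₀) w : ℝ) : ℂ) * s' w)) z = 0 := by
    intro s' hs' z hz
    rw [GG_dx (tfS hB (tfx hχ) hs')]
    refine integral_eq_zero_of_ae (Eventually.of_forall fun t => ?_)
    have : fderiv ℝ (bx c r₀) ((z.re : ℂ) + t * I) 1 = 0 := bx_dx hr (by simpa using hz)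
    simp [dx, this]
  have zy : ∀ s' : ℂ → ℂ, ContDiffOn ℝ ∞ s' B → ∀ z, |z.im - c.im| < r₀ →
      dy (GG (fun w => ((dy (bx c r₀) w : ℝ) : ℂ) * s' w)) z = 0 := by
    intro s' hs' z hz
    rw [GG_dy (tfS hB (tfy hχ) hs')]
    refine integral_eq_zero_of_ae (Eventually.of_forall fun t => ?_)
    have : fderiv ℝ (bx c r₀) ((t : ℂ) + z.im * I) I = 0 := bx_dy hr (by simpa using hz)
    simp [dy, this]
  have hfg : ∀ (s t : ℂ → ℂ), ContDiffOn ℝ ∞ s B → ContDiffOn ℝ ∞ t B →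
      (∀ z ∈ B, dx s z + dy t z = 0) → ∀ θ : ℂ → ℝ, TF B θ → ∀ z,
      dx (fun w => (θ w : ℂ) * s w) z + dy (fun w => (θ w : ℂ) * t w) z =
        ((dx θ z : ℝ) : ℂ) * s z + ((dy θ z : ℝ) : ℂ) * t z := by
    intro s t hs ht hst θ hθ z
    have a1 := loc_d hB hθ hs z 1
    have a2 := loc_d hB hθ ht z I
    have a3 : (θ z : ℂ) * (dx s z + dy t z) = 0 := by
      by_cases hz : z ∈ B
      · rw [hst z hz, mul_zero]
      · rw [TF.zero hθ hz]; simp
    simp only [dx, dy] at a1 a2 a3 ⊢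
    rw [a1, a2]
    linear_combination a3
  have key := ident tA tB tC tP tQ tR tf1 tf2 tg1 tg2
    (hfg p' q' sp' sq' (fun z hz => (hd' z hz).1) _ hχ)
    (hfg q' r' sq' sr' (fun z hz => (hd' z hz).2) _ hχ)
    (fun z => by
      by_cases hz : φ z = 0
      · left; simp [hz]
      · right; exact zx q' sq' z (hin z hz).1)
    (fun z => by
      by_cases hz : φ z = 0
      · left; simp [hz]
      · right; exact ⟨zy r' sr' z (hin z hz).2, zx p' sp' z (hin z hz).1⟩)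
    (fun z => by
      by_cases hz : φ z = 0
      · left; simp [hz]
      · right; exact zy q' sq' z (hin z hz).2)
  have eα : (fun z => dx (fun w => (φ w : ℂ) * p w) z + dy (fun w => (φ w : ℂ) * q w) z) =
      fun z => ((dx φ z : ℝ) : ℂ) * p z + ((dy φ z : ℝ) : ℂ) * q z := by
    funext z
    exact hfg p q sp sq (fun z hz => (hd z hz).1) φ hφB z
  have eβ : (fun z => dx (fun w => (φ w : ℂ) * q w) z + dy (fun w => (φ w : ℂ) * r w) z) =
      fun z => ((dx φ z : ℝ) : ℂ) * q z + ((dy φ z : ℝ) : ℂ) * r z := by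
    funext z
    exact hfg q r sq sr (fun z hz => (hd z hz).2) φ hφB z
  have eΞ : ∀ z, dx (fun z => ((dx φ z : ℝ) : ℂ) * p z + ((dy φ z : ℝ) : ℂ) * q z) z +
      dy (fun z => ((dx φ z : ℝ) : ℂ) * q z + ((dy φ z : ℝ) : ℂ) * r z) z =
      ((dx (dx φ) z : ℝ) : ℂ) * p z + 2 * ((dx (dy φ) z : ℝ) : ℂ) * q z + ((dy (dy φ) z : ℝ) : ℂ) * r z := by
    intro z
    have s1 := tfS hB (tfx hφB) sp
    have s2 := tfS hB (tfy hφB) sq
    have s3 := tfS hB (tfx hφB) sq
    have s4 := tfS hB (tfy hφB) sr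
    have a1 : dx (fun z => ((dx φ z : ℝ) : ℂ) * p z + ((dy φ z : ℝ) : ℂ) * q z) z =
        dx (fun z => ((dx φ z : ℝ) : ℂ) * p z) z + dx (fun z => ((dy φ z : ℝ) : ℂ) * q z) z := by
      have h1 := (s1.1.differentiable (by simp) z).hasFDerivAt
      have h2 := (s2.1.differentiable (by simp) z).hasFDerivAt
      have := (h1.add h2).fderiv
      change fderiv ℝ (fun z => ((dx φ z : ℝ) : ℂ) * p z + ((dy φ z : ℝ) : ℂ) * q z) z = _ at this
      change fderiv ℝ (fun z => ((dx φ z : ℝ) : ℂ) * p z + ((dy φ z : ℝ) : ℂ) * q z) z 1 = _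
      rw [this]; rfl
    have a2 : dy (fun z => ((dx φ z : ℝ) : ℂ) * q z + ((dy φ z : ℝ) : ℂ) * r z) z =
        dy (fun z => ((dx φ z : ℝ) : ℂ) * q z) z + dy (fun z => ((dy φ z : ℝ) : ℂ) * r z) z := by
      have h1 := (s3.1.differentiable (by simp) z).hasFDerivAt
      have h2 := (s4.1.differentiable (by simp) z).hasFDerivAt
      have := (h1.add h2).fderiv
      change fderiv ℝ (fun z => ((dx φ z : ℝ) : ℂ) * q z + ((dy φ z : ℝ) : ℂ) * r z) z = _ at this
      change fderiv ℝ (fun z => ((dx φ z : ℝ) : ℂ) * q z + ((dy φ z : ℝ) : ℂ) * r z) z I = _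
      rw [this]; rfl
    have b1 := hfg p q sp sq (fun z hz => (hd z hz).1) _ (tfx hφB) z
    have b2 := hfg q r sq sr (fun z hz => (hd z hz).2) _ (tfy hφB) z
    have b3 : dy (dx φ) z = dx (dy φ) z :=
      (Pool.Agent.W924.RW.WP.symm isOpen_univ hφ.1.contDiffOn (Set.mem_univ z)).symm
    rw [a1, a2]
    rw [b3] at b1
    linear_combination b1 + b2
  rw [eα, eβ] at key
  have e1 : ∫ z, (φ z : ℂ) * (p z * r' z + r z * p' z - 2 * q z * q' z) =
      ∫ z, ((φ z : ℂ) * p z * ((bx c r₀ z : ℂ) * r' z) + (φ z : ℂ) * r z * ((bx c r₀ z : ℂ) * p' z) -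
        2 * ((φ z : ℂ) * q z) * ((bx c r₀ z : ℂ) * q' z)) := by
    refine integral_congr_ae (Eventually.of_forall fun z => ?_)
    simp only
    by_cases hz : φ z = 0
    · simp [hz]
    · rw [bx_one hr (hin z hz).1 (hin z hz).2]
      push_cast; ring
  rw [e1, key]
  have e2 := congrFun eα
  have e3 := congrFun eβ
  congr 1
  · congr 1
    · congr 1
      refine integral_congr_ae (Eventually.of_forall fun z => ?_)
      simp only
      rw [eΞ z]
    · refine integral_congr_ae (Eventually.of_forall fun z => ?_)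
      simp only
      rw [e2 z]
  · refine integral_congr_ae (Eventually.of_forall fun z => ?_)
    simp only
    rw [e3 z]

end

end Pool.Agent.Y265.RW
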