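import Pool.Agent.Y265.RW.N
import Pool.Agent.W745.RW.PU

/-! Null forms of sequences. -/
set_option autoImplicit false
open MeasureTheory Filter Topology Complex
open scoped ContDiff Manifold

namespace Pool.Agent.Y265.RW

open Pool.Agent.W745.RW
open Pool.Agent.W450.RW.RE (cut_smooth)

noncomputable section

lemma Null.add {s t : ℕ → ℂ} (hs : Null s) (ht : Null t) : Null (fun n => s n + t n) := by
  have := Tendsto.add hs ht
  rw [add_zero] at this
  exact this

lemma Null.sub {s t : ℕ → ℂ} (hs : Null s) (ht : Null t) : Null (fun n => s n - t n) := by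
  have := Tendsto.sub hs ht
  rw [sub_zero] at this
  exact this

lemma Null.cmul {s : ℕ → ℂ} (hs : Null s) (c : ℂ) : Null (fun n => c * s n) := by
  have := Tendsto.const_mul c hs
  rw [mul_zero] at this
  exact this

lemma Null.neg {s : ℕ → ℂ} (hs : Null s) : Null (fun n => - s n) := by
  have := Tendsto.neg hs
  rw [neg_zero] at this
  exact this

/-- product of an `L¹` bounded sequence and a uniformly small one -/
lemma nul {B : Set ℂ} {θ : ℂ → ℝ} (hθ : TF B θ) {p : ℕ → ℂ → ℂ} (hp : L1b B p)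
    (sp : ∀ n, ContDiffOn ℝ ∞ (p n) B) {G : ℕ → ℂ → ℂ}
    (hG : ∀ K : Set ℂ, IsCompact K → ∀ ε : ℝ, 0 < ε → ∀ᶠ n in atTop, ∀ z ∈ K, ‖G n z‖ ≤ ε) :
    Null (fun n => ∫ z, (θ z : ℂ) * p n z * G n z) := by
  have hK : IsCompact (tsupport θ) := hθ.2.1
  obtain ⟨C, hC⟩ := hp (tsupport θ) hK hθ.2.2
  obtain ⟨M', hM'⟩ := hK.exists_bound_of_continuousOn hθ.1.continuous.continuousOn
  set M := max M' 0 with hM
  have hM0 : 0 ≤ M := le_max_right _ _
  have hb : ∀ z ∈ tsupport θ, ‖θ z‖ ≤ M := fun z hz => (hM' z hz).trans (le_max_left _ _)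
  have h0 : Tendsto (fun n => ∫ z, (θ z : ℂ) * p n z * G n z) atTop (𝓝 0) := by
    rw [Metric.tendsto_atTop']
    intro ε hε
    have hpos : 0 < ε / (2 * (M * (|C| + 1) + 1)) := by positivity
    have := (hG _ hK _ hpos).and hC
    rw [eventually_atTop] at this
    obtain ⟨N, hN⟩ := this
    refine ⟨N, fun n hn => ?_⟩
    obtain ⟨h1, h2⟩ := hN n hn.le
    rw [dist_zero_right]
    have e : ∫ z, (θ z : ℂ) * p n z * G n z = ∫ z in tsupport θ, (θ z : ℂ) * p n z * G n z := by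
      refine (setIntegral_eq_integral_of_forall_compl_eq_zero (fun z hz => ?_)).symm
      rw [image_eq_zero_of_notMem_tsupport hz]; simp
    have ip : IntegrableOn (fun z => ‖p n z‖) (tsupport θ) :=
      ContinuousOn.integrableOn_compact hK (((sp n).continuousOn.mono hθ.2.2).norm)
    rw [e]
    have b : ‖∫ z in tsupport θ, (θ z : ℂ) * p n z * G n z‖ ≤
        ∫ z in tsupport θ, (M * (ε / (2 * (M * (|C| + 1) + 1)))) * ‖p n z‖ := by
      refine norm_integral_le_of_norm_le (ip.const_mul _) ?_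
      refine (ae_restrict_iff' hK.measurableSet).2 (Eventually.of_forall fun z hz => ?_)
      rw [norm_mul, norm_mul, Complex.norm_real]
      have a1 := hb z hz
      have a2 := h1 z hz
      calc ‖θ z‖ * ‖p n z‖ * ‖G n z‖ ≤ M * ‖p n z‖ * (ε / (2 * (M * (|C| + 1) + 1))) := by
            gcongr
        _ = _ := by ring
    refine b.trans_lt ?_
    rw [integral_const_mul]
    have hC' : ∫ z in tsupport θ, ‖p n z‖ ≤ |C| + 1 := h2.trans (by linarith [le_abs_self C])
    calc M * (ε / (2 * (M * (|C| + 1) + 1))) * ∫ z in tsupport θ, ‖p n z‖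
        ≤ M * (ε / (2 * (M * (|C| + 1) + 1))) * (|C| + 1) := by gcongr
      _ = (M * (|C| + 1)) / (M * (|C| + 1) + 1) * (ε / 2) := by
          field_simp
      _ ≤ 1 * (ε / 2) := by
          gcongr
          rw [div_le_one (by positivity)]; linarith
      _ < ε := by linarith
  exact h0

lemma UG.G {B : Set ℂ} {p : ℕ → ℂ → ℂ} (h : UG B p) {ψ : ℂ → ℝ} (hψ : TF B ψ) :
    ∀ K : Set ℂ, IsCompact K → ∀ ε : ℝ, 0 < ε → ∀ᶠ n in atTop, ∀ z ∈ K,
      ‖GG (fun w => (ψ w : ℂ) * p n w) z‖ ≤ ε := h ψ hψ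

theorem null_box {B : Set ℂ} (hB : IsOpen B) {c : ℂ} {r₀ : ℝ} (hr : 0 < r₀)
    (hcB : Metric.ball c (4 * r₀) ⊆ B) {φ : ℂ → ℝ} (hφ : TF (Metric.ball c r₀) φ)
    {p q r p' q' r' : ℕ → ℂ → ℂ} (h : ∀ n, DF B (p n) (q n) (r n))
    (h' : ∀ n, DF B (p' n) (q' n) (r' n))
    (bp : L1b B p) (bq : L1b B q) (br : L1b B r) (up : UG B p') (uq : UG B q') (ur : UG B r') :
    Null (fun n => ∫ z, (φ z : ℂ) * (p n z * r' n z + r n z * p' n z - 2 * q n z * q' n z)) := by
  have hφB : TF B φ := ⟨hφ.1, hφ.2.1, hφ.2.2.trans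
    ((Metric.ball_subset_ball (by linarith)).trans hcB)⟩
  have hχ : TF B (bx c r₀) := bx_tf hr hcB
  have sp : ∀ n, ContDiffOn ℝ ∞ (p n) B := fun n => (h n).1
  have sq : ∀ n, ContDiffOn ℝ ∞ (q n) B := fun n => (h n).2.1
  have sr : ∀ n, ContDiffOn ℝ ∞ (r n) B := fun n => (h n).2.2.1
  have n1 := nul (tfx (tfx hφB)) bp sp (uq.G hχ)
  have n2 := nul (tfx (tfy hφB)) bq sq (uq.G hχ)
  have n3 := nul (tfy (tfy hφB)) br sr (uq.G hχ)
  have n4 := nul (tfx hφB) bp sp (ur.G (tfy hχ))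
  have n5 := nul (tfy hφB) bq sq (ur.G (tfy hχ))
  have n6 := nul (tfx hφB) bq sq (up.G (tfx hχ))
  have n7 := nul (tfy hφB) br sr (up.G (tfx hχ))
  have tot := Null.sub (Null.sub (Null.neg (Null.add (Null.add n1 (Null.cmul n2 2)) n3))
    (Null.add n4 n5)) (Null.add n6 n7)
  refine Tendsto.congr (fun n => ?_) tot
  rw [box_ident hB hr hcB hφ (h n) (h' n)]
  have sQ := GG_smooth (tfS hB hχ (h' n).2.1)
  have sR := GG_smooth (tfS hB (tfy hχ) (h' n).2.2.1)
  have sP := GG_smooth (tfS hB (tfx hχ) (h' n).1)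
  have i1 := pair_int (tfS hB (tfx (tfx hφB)) (sp n)) sQ
  have i2 := pair_int (tfS hB (tfx (tfy hφB)) (sq n)) sQ
  have i3 := pair_int (tfS hB (tfy (tfy hφB)) (sr n)) sQ
  have i4 := pair_int (tfS hB (tfx hφB) (sp n)) sR
  have i5 := pair_int (tfS hB (tfy hφB) (sq n)) sR
  have i6 := pair_int (tfS hB (tfx hφB) (sq n)) sP
  have i7 := pair_int (tfS hB (tfy hφB) (sr n)) sP
  have i12 : Integrable (fun z => ((dx (dx φ) z : ℝ) : ℂ) * p n z *
      GG (fun w => (bx c r₀ w : ℂ) * q' n w) z + 2 * (((dx (dy φ) z : ℝ) : ℂ) * q n z *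
      GG (fun w => (bx c r₀ w : ℂ) * q' n w) z)) := i1.add (i2.const_mul 2)
  rw [← integral_const_mul 2, ← integral_add i1 (i2.const_mul 2),
    ← integral_add i12 i3, ← integral_add i4 i5, ← integral_add i6 i7]
  congr 1
  · congr 1
    · congr 1
      refine integral_congr_ae (Eventually.of_forall fun z => ?_)
      simp only
      ring
    · refine integral_congr_ae (Eventually.of_forall fun z => ?_)
      simp only
      ring
  · refine integral_congr_ae (Eventually.of_forall fun z => ?_)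
    simp only
    ring

/-- partition of unity with small balls -/
theorem decomp4 (Ω : Set ℂ) (hΩ : IsOpen Ω) (φ : ℂ → ℝ) (hφ : TF Ω φ) :
    ∃ (ι : Type) (_ : Fintype ι) (c : ι → ℂ) (r : ι → ℝ) (ψ : ι → ℂ → ℝ),
      (∀ i, 0 < r i ∧ Metric.ball (c i) (4 * r i) ⊆ Ω) ∧
      (∀ i, TF (Metric.ball (c i) (r i)) (ψ i)) ∧
      ∀ z, φ z = ∑ i, ψ i z := by
  obtain ⟨hs, hc, ht⟩ := hφ
  have hK : IsCompact (tsupport φ) := hc
  have : ∀ z ∈ Ω, ∃ r : ℝ, 0 < r ∧ Metric.ball z (4 * r) ⊆ Ω := by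
    intro z hz
    obtain ⟨r, hr, h⟩ := Metric.isOpen_iff.1 hΩ z hz
    exact ⟨r / 4, by positivity, by rwa [mul_div_cancel₀ _ (by norm_num : (4 : ℝ) ≠ 0)]⟩
  choose! r hr using this
  have hcov : tsupport φ ⊆ ⋃ z : tsupport φ, Metric.ball (z : ℂ) (r z) := by
    intro z hz
    exact Set.mem_iUnion.2 ⟨⟨z, hz⟩, Metric.mem_ball_self (hr z (ht hz)).1⟩
  obtain ⟨t, htt⟩ := hK.elim_finite_subcover (fun z : tsupport φ => Metric.ball (z : ℂ) (r z))
    (fun _ => Metric.isOpen_ball) hcov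
  let ι := {x // x ∈ t}
  have hcov' : tsupport φ ⊆ ⋃ i : ι, Metric.ball ((i : tsupport φ) : ℂ) (r (i : tsupport φ)) := by
    intro z hz
    have := htt hz
    simp only [Set.mem_iUnion] at this ⊢
    obtain ⟨i, hi, hzi⟩ := this
    exact ⟨⟨i, hi⟩, hzi⟩
  obtain ⟨f, hf⟩ := SmoothPartitionOfUnity.exists_isSubordinate (I := 𝓘(ℝ, ℂ)) (M := ℂ)
    (isClosed_tsupport φ) (fun i : ι => Metric.ball ((i : tsupport φ) : ℂ) (r (i : tsupport φ)))
    (fun _ => Metric.isOpen_ball) hcov'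
  refine ⟨Fin t.card, inferInstance, fun i => ((t.equivFin.symm i : ι) : tsupport φ),
    fun i => r ((t.equivFin.symm i : ι) : tsupport φ),
    fun i z => f (t.equivFin.symm i) z * φ z, ?_, ?_, ?_⟩
  · intro i
    exact hr _ (ht ((t.equivFin.symm i : ι) : tsupport φ).2)
  · intro i
    refine ⟨?_, ?_, ?_⟩
    · exact ((f (t.equivFin.symm i)).contMDiff.contDiff).mul hs
    · exact hc.mul_left
    · refine (closure_mono ?_).trans (hf (t.equivFin.symm i))
      intro z hz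
      simp only [Function.mem_support] at hz ⊢
      exact left_ne_zero_of_mul hz
  · intro z
    rw [← Finset.sum_mul]
    by_cases hz : φ z = 0
    · simp [hz]
    · have hzs : z ∈ tsupport φ := subset_tsupport _ hz
      have h1 := f.sum_eq_one hzs
      rw [finsum_eq_sum_of_fintype] at h1
      have h2 : ∑ i : Fin t.card, f (t.equivFin.symm i) z = ∑ i : ι, f i z :=
        Equiv.sum_comp t.equivFin.symm (fun i : ι => f i z)
      rw [h2, h1, one_mul]

theorem null_df {B : Set ℂ} (hB : IsOpen B) {φ : ℂ → ℝ} (hφ : TF B φ)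
    {p q r p' q' r' : ℕ → ℂ → ℂ} (h : ∀ n, DF B (p n) (q n) (r n))
    (h' : ∀ n, DF B (p' n) (q' n) (r' n))
    (bp : L1b B p) (bq : L1b B q) (br : L1b B r) (up : UG B p') (uq : UG B q') (ur : UG B r') :
    Null (fun n => ∫ z, (φ z : ℂ) * (p n z * r' n z + r n z * p' n z - 2 * q n z * q' n z)) := by
  obtain ⟨ι, _, c, r₀, ψ, h1, h2, h3⟩ := decomp4 B hB φ hφ
  have hψB : ∀ i, TF B (ψ i) := fun i => ⟨(h2 i).1, (h2 i).2.1, (h2 i).2.2.trans
    ((Metric.ball_subset_ball (by linarith [(h1 i).1])).trans (h1 i).2)⟩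
  have key : Tendsto (fun n => ∑ i, ∫ z, (ψ i z : ℂ) * (p n z * r' n z + r n z * p' n z -
      2 * q n z * q' n z)) atTop (𝓝 (∑ i : ι, 0)) :=
    tendsto_finsetSum _ (fun i _ =>
      null_box hB (h1 i).1 (h1 i).2 (h2 i) h h' bp bq br up uq ur)
  rw [Finset.sum_const_zero] at key
  refine Tendsto.congr (fun n => ?_) key
  have hs : ContDiffOn ℝ ∞ (fun z => p n z * r' n z + r n z * p' n z - 2 * q n z * q' n z) B :=
    (((h n).1.mul (h' n).2.2.1).add ((h n).2.2.1.mul (h' n).1)).sub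
      ((contDiffOn_const.mul (h n).2.1).mul (h' n).2.1)
  rw [← integral_finsetSum]
  · refine integral_congr_ae (Eventually.of_forall fun z => ?_)
    simp only
    rw [h3 z]
    push_cast
    rw [Finset.sum_mul]
  · intro i _
    exact int_mul hB (hψB i) hs.continuousOn

end

end Pool.Agent.Y265.RW
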