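import Pool.Agent.W450.RW.T
import Pool.Agent.W924.RW.WP

/-! Quadrant potentials in the plane (project MP_6b977f_mp). -/
set_option autoImplicit false
open MeasureTheory Filter Topology Complex
open scoped ContDiff Convolution

namespace Pool.Agent.Y265.RW

open Pool.Agent.W745.RW

noncomputable section

/-- smooth compactly supported complex functions -/
def SC (Y : ℂ → ℂ) : Prop := ContDiff ℝ ∞ Y ∧ HasCompactSupport Y

/-- the closed quadrant to the lower left of `z` -/
def qd (z : ℂ) : Set ℂ := {w | w.re ≤ z.re ∧ w.im ≤ z.im}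

/-- the quadrant potential -/
def GG (Y : ℂ → ℂ) (z : ℂ) : ℂ := ∫ w in qd z, Y w

/-- the kernel -/
def ker : ℂ → ℝ := Set.indicator {w | 0 ≤ w.re ∧ 0 ≤ w.im} (fun _ => (1 : ℝ))

lemma qd_meas (z : ℂ) : MeasurableSet (qd z) := by
  have h1 : IsClosed (qd z) := by
    have e : qd z = {w | w.re ≤ z.re} ∩ {w | w.im ≤ z.im} := by ext; simp [qd]
    rw [e]
    exact (isClosed_le continuous_re continuous_const).inter
      (isClosed_le continuous_im continuous_const)
  exact h1.measurableSet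

lemma qs_meas : MeasurableSet {w : ℂ | 0 ≤ w.re ∧ 0 ≤ w.im} := by
  have h1 : IsClosed {w : ℂ | 0 ≤ w.re ∧ 0 ≤ w.im} := by
    have e : {w : ℂ | 0 ≤ w.re ∧ 0 ≤ w.im} = {w | 0 ≤ w.re} ∩ {w | 0 ≤ w.im} := by ext; simp
    rw [e]
    exact (isClosed_le continuous_const continuous_re).inter
      (isClosed_le continuous_const continuous_im)
  exact h1.measurableSet

lemma ker_li : LocallyIntegrable ker := by
  have h : LocallyIntegrable (fun _ : ℂ => (1 : ℝ)) := locallyIntegrable_const 1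
  exact h.indicator qs_meas

lemma GG_conv (Y : ℂ → ℂ) : GG Y = ker ⋆[ContinuousLinearMap.lsmul ℝ ℝ, volume] Y := by
  funext z
  rw [convolution_def]
  have h1 : ∀ t, (ContinuousLinearMap.lsmul ℝ ℝ) (ker t) (Y (z - t)) =
      (fun w => (qd z).indicator Y w) (z - t) := by
    intro t
    simp only [ker, Set.indicator_apply, Set.mem_ofPred_eq, qd, sub_re, sub_im,
      ContinuousLinearMap.lsmul_apply]
    by_cases h : 0 ≤ t.re ∧ 0 ≤ t.im
    · rw [if_pos h, if_pos ⟨by linarith [h.1], by linarith [h.2]⟩, one_smul]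
    · rw [if_neg h, if_neg (fun h' => h ⟨by linarith [h'.1], by linarith [h'.2]⟩), zero_smul]
  simp_rw [h1]
  rw [integral_sub_left_eq_self (fun w => (qd z).indicator Y w) volume z,
    integral_indicator (qd_meas z)]
  rfl

lemma SC.d {Y : ℂ → ℂ} (h : SC Y) (v : ℂ) : SC (fun z => fderiv ℝ Y z v) :=
  ⟨(h.1.fderiv_right (by simp)).clm_apply contDiff_const, h.2.fderiv_apply (𝕜 := ℝ) v⟩

lemma SC.dx {Y : ℂ → ℂ} (h : SC Y) : SC (dx Y) := h.d 1
lemma SC.dy {Y : ℂ → ℂ} (h : SC Y) : SC (dy Y) := h.d I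

lemma SC.add {X Y : ℂ → ℂ} (hX : SC X) (h : SC Y) : SC (fun z => X z + Y z) :=
  ⟨hX.1.add h.1, hX.2.add h.2⟩

lemma SC.mul {X Y : ℂ → ℂ} (hX : SC X) (h : ContDiff ℝ ∞ Y) : SC (fun z => X z * Y z) :=
  ⟨hX.1.mul h, hX.2.mul_right⟩

lemma SC.int {Y : ℂ → ℂ} (h : SC Y) : Integrable Y := h.1.continuous.integrable_of_hasCompactSupport h.2

lemma GG_smooth {Y : ℂ → ℂ} (h : SC Y) : ContDiff ℝ ∞ (GG Y) := by
  rw [GG_conv]
  exact h.2.contDiff_convolution_right _ ker_li h.1

lemma GG_fderiv {Y : ℂ → ℂ} (h : SC Y) (z v : ℂ) :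
    fderiv ℝ (GG Y) z v = GG (fun w => fderiv ℝ Y w v) z := by
  rw [GG_conv, GG_conv]
  rw [(h.2.hasFDerivAt_convolution_right (ContinuousLinearMap.lsmul ℝ ℝ) ker_li
    (h.1.of_le (by simp)) z).fderiv]
  exact convolution_precompR_apply _ ker_li (h.2.fderiv ℝ)
    (h.1.continuous_fderiv (by simp)) z v

lemma GG_add {X Y : ℂ → ℂ} (hX : SC X) (hY : SC Y) (z : ℂ) :
    GG (fun w => X w + Y w) z = GG X z + GG Y z := by
  unfold GG
  exact integral_add hX.int.integrableOn hY.int.integrableOn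

lemma GG_sub {X Y : ℂ → ℂ} (hX : SC X) (hY : SC Y) (z : ℂ) :
    GG (fun w => X w - Y w) z = GG X z - GG Y z := by
  unfold GG
  exact integral_sub hX.int.integrableOn hY.int.integrableOn

lemma GG_congr {X Y : ℂ → ℂ} (h : ∀ z, X z = Y z) : GG X = GG Y := by
  have : X = Y := funext h
  rw [this]

/-- Fubini -/
lemma GG_prod {Y : ℂ → ℂ} (h : SC Y) (z : ℂ) :
    GG Y z = ∫ p in Set.Iic z.re ×ˢ Set.Iic z.im, Y (p.1 + p.2 * I) := by
  unfold GG
  rw [← integral_indicator (qd_meas z), ← integral_indicator (measurableSet_Iic.prod measurableSet_Iic)]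
  rw [← (Complex.volume_preserving_equiv_real_prod.symm).integral_comp
    measurableEquivRealProd.symm.measurableEmbedding]
  refine integral_congr_ae (Eventually.of_forall fun p => ?_)
  simp only [Set.indicator_apply, qd, Set.mem_ofPred_eq, Complex.measurableEquivRealProd_symm_apply,
    Set.mem_prod, Set.mem_Iic]
  have e : ({ re := p.1, im := p.2 } : ℂ) = (p.1 : ℂ) + p.2 * I := by
    apply Complex.ext <;> simp
  simp only [e]

lemma slice_x {Y : ℂ → ℂ} (h : SC Y) (t : ℝ) :
    ContDiff ℝ ∞ (fun s : ℝ => Y (s + t * I)) ∧ HasCompactSupport (fun s : ℝ => Y (s + t * I)) := by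
  constructor
  · exact h.1.comp ((Complex.ofRealCLM.contDiff).add contDiff_const)
  · refine h.2.comp_isClosedEmbedding (g := fun s : ℝ => (s : ℂ) + t * I) ?_
    have h1 : Topology.IsClosedEmbedding (fun s : ℝ => (s : ℂ)) := Complex.isometry_ofReal.isClosedEmbedding
    exact (Homeomorph.addRight ((t : ℂ) * I)).isClosedEmbedding.comp h1

lemma slice_y {Y : ℂ → ℂ} (h : SC Y) (s : ℝ) :
    ContDiff ℝ ∞ (fun t : ℝ => Y (s + t * I)) ∧ HasCompactSupport (fun t : ℝ => Y (s + t * I)) := by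
  constructor
  · exact h.1.comp (contDiff_const.add ((Complex.ofRealCLM.contDiff).mul contDiff_const))
  · refine h.2.comp_isClosedEmbedding (g := fun t : ℝ => (s : ℂ) + t * I) ?_
    have h1 : Topology.IsClosedEmbedding (fun s : ℝ => (s : ℂ)) := Complex.isometry_ofReal.isClosedEmbedding
    have h2 := (Homeomorph.addLeft (s : ℂ)).isClosedEmbedding.comp
      ((Homeomorph.mulRight₀ I Complex.I_ne_zero).isClosedEmbedding.comp h1)
    exact h2

lemma deriv_x {Y : ℂ → ℂ} (h : SC Y) (s t : ℝ) :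
    deriv (fun s : ℝ => Y (s + t * I)) s = dx Y (s + t * I) := by
  have h1 : HasDerivAt (fun s : ℝ => (s : ℂ) + t * I) 1 s := by
    simpa using! (Complex.ofRealCLM.hasDerivAt (x := s)).add_const ((t : ℂ) * I)
  have h2 : HasFDerivAt Y (fderiv ℝ Y (s + t * I)) ((s : ℂ) + t * I) :=
    (h.1.differentiable (by simp) _).hasFDerivAt
  exact (h2.comp_hasDerivAt s h1).deriv

lemma deriv_y {Y : ℂ → ℂ} (h : SC Y) (s t : ℝ) :
    deriv (fun t : ℝ => Y (s + t * I)) t = dy Y (s + t * I) := by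
  have h1 : HasDerivAt (fun t : ℝ => (s : ℂ) + t * I) I t := by
    have := ((Complex.ofRealCLM.hasDerivAt (x := t)).mul_const I).const_add (s : ℂ)
    simpa using! this
  have h2 : HasFDerivAt Y (fderiv ℝ Y (s + t * I)) ((s : ℂ) + t * I) :=
    (h.1.differentiable (by simp) _).hasFDerivAt
  exact (h2.comp_hasDerivAt t h1).deriv

lemma prod_int {Y : ℂ → ℂ} (h : SC Y) :
    Integrable (fun p : ℝ × ℝ => Y (p.1 + p.2 * I)) := by
  have h1 := (Complex.volume_preserving_equiv_real_prod.symm).integrable_comp_emb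
    measurableEquivRealProd.symm.measurableEmbedding (g := Y)
  have h2 := h1.2 h.int
  refine h2.congr (Eventually.of_forall fun p => ?_)
  simp only [Function.comp, Complex.measurableEquivRealProd_symm_apply]
  congr 1
  apply Complex.ext <;> simp

lemma GG_dx {Y : ℂ → ℂ} (h : SC Y) (z : ℂ) :
    dx (GG Y) z = ∫ t in Set.Iic z.im, Y (z.re + t * I) := by
  have e1 : dx (GG Y) z = GG (dx Y) z := GG_fderiv h z 1
  rw [e1, GG_prod h.dx]
  have e2 : (volume : Measure (ℝ × ℝ)) = (volume : Measure ℝ).prod volume := rfl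
  have e3 := setIntegral_prod_swap (μ := (volume : Measure ℝ)) (ν := (volume : Measure ℝ))
    (Set.Iic z.re) (Set.Iic z.im) (fun p : ℝ × ℝ => dx Y (p.1 + p.2 * I))
  rw [e2, ← e3, setIntegral_prod]
  · refine integral_congr_ae (Eventually.of_forall fun t => ?_)
    simp only [Prod.swap_prod_mk]
    have h1 := slice_x h t
    have h2 := HasCompactSupport.integral_Iic_deriv_eq (h1.1.of_le (by simp)) h1.2 z.re
    rw [← h2]
    refine integral_congr_ae (Eventually.of_forall fun s => ?_)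
    exact (deriv_x h s t).symm
  · have := (prod_int h.dx).swap
    exact this.integrableOn

lemma GG_dy {Y : ℂ → ℂ} (h : SC Y) (z : ℂ) :
    dy (GG Y) z = ∫ s in Set.Iic z.re, Y (s + z.im * I) := by
  have e1 : dy (GG Y) z = GG (dy Y) z := GG_fderiv h z I
  rw [e1, GG_prod h.dy]
  have e2 : (volume : Measure (ℝ × ℝ)) = (volume : Measure ℝ).prod volume := rfl
  rw [e2, setIntegral_prod]
  · refine integral_congr_ae (Eventually.of_forall fun s => ?_)
    have h1 := slice_y h s
    have h2 := HasCompactSupport.integral_Iic_deriv_eq (h1.1.of_le (by simp)) h1.2 z.im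
    simp only
    rw [← h2]
    refine integral_congr_ae (Eventually.of_forall fun t => ?_)
    exact (deriv_y h s t).symm
  · exact (prod_int h.dy).integrableOn

lemma re_im_eq (z : ℂ) : (z.re : ℂ) + z.im * I = z := Complex.re_add_im z

/-- `∂x∂y G_Y = Y` -/
lemma GG_dxdy {Y : ℂ → ℂ} (h : SC Y) (z : ℂ) : dx (dy (GG Y)) z = Y z := by
  have e1 : dy (GG Y) = GG (dy Y) := by funext z; exact GG_fderiv h z I
  rw [e1, GG_dx h.dy]
  have h1 := slice_y h z.re
  have h2 := HasCompactSupport.integral_Iic_deriv_eq (h1.1.of_le (by simp)) h1.2 z.im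
  rw [re_im_eq] at h2
  rw [← h2]
  refine integral_congr_ae (Eventually.of_forall fun t => ?_)
  exact (deriv_y h z.re t).symm

lemma GG_xy {Y : ℂ → ℂ} (h : SC Y) (z : ℂ) : GG (dx (dy Y)) z = Y z := by
  have e1 : dy (GG Y) = GG (dy Y) := by funext z; exact GG_fderiv h z I
  have e2 : dx (GG (dy Y)) z = GG (dx (dy Y)) z := GG_fderiv h.dy z 1
  rw [← e2, ← e1, GG_dxdy h]

/-- integration by parts -/
lemma pt {X Y : ℂ → ℂ} (hX : SC X) (hY : ContDiff ℝ ∞ Y) (v : ℂ) :
    ∫ z, X z * fderiv ℝ Y z v = - ∫ z, fderiv ℝ X z v * Y z := by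
  have hd : ContDiff ℝ ∞ (fun z => fderiv ℝ Y z v) :=
    (hY.fderiv_right (by simp)).clm_apply contDiff_const
  apply integral_mul_fderiv_eq_neg_fderiv_mul_of_integrable
  · exact ((hX.d v).mul hY).int
  · exact (hX.mul hd).int
  · exact (hX.mul hY).int
  · intro x _; exact hX.1.differentiable (by simp) x
  · intro x _; exact hY.differentiable (by simp) x

end

end Pool.Agent.Y265.RW
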