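import Pool.Agent.Y265.RW.S

/-! Three point relations. -/
set_option autoImplicit false
open MeasureTheory Filter Topology Complex
open scoped ContDiff Manifold

namespace Pool.Agent.Y265.RW

open Pool.Agent.W745.RW

noncomputable section

/-- three point moments -/
def M3 (φ : ℂ → ℝ) (U V Z : ℕ → ℤ → ℂ → ℂ) (a b c : ℤ) (n : ℕ) : ℂ :=
  ∫ z, (φ z : ℂ) * (U n a z * V n b z * Z n c z)

lemma h3_null {B : Set ℂ} (hB : IsOpen B) {h : ℕ → ℝ} (hlim : Tendsto h atTop (𝓝 0))
    {U V Z : ℕ → ℤ → ℂ → ℂ} (hU : Fam B h U) (hV : Fam B h V) (hZ : Fam B h Z)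
    (uU : Unit2 B U) (pU : Pair B U U CC) (uV : Unit2 B V) (uZ : Unit2 B Z)
    {θ : ℂ → ℝ} (hθ : TF B θ) (a b c : ℤ) :
    Null (fun n => (h n : ℂ) * M3 θ U V Z a b c n) := by
  have hK : IsCompact (tsupport θ) := hθ.2.1
  obtain ⟨C, hC⟩ := Unit2.L1b hB hV hZ uV uZ b c 0 (tsupport θ) hK hθ.2.2
  obtain ⟨M', hM'⟩ := hK.exists_bound_of_continuousOn hθ.1.continuous.continuousOn
  set M := max M' 0 with hM
  have hM0 : 0 ≤ M := le_max_right _ _
  have hb : ∀ z ∈ tsupport θ, ‖θ z‖ ≤ M := fun z hz => (hM' z hz).trans (le_max_left _ _)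
  have h0 : Tendsto (fun n => (h n : ℂ) * M3 θ U V Z a b c n) atTop (𝓝 0) := by
    rw [Metric.tendsto_atTop']
    intro ε hε
    have hpos : 0 < ε / (2 * (M * (|C| + 1) + 1)) := by positivity
    have := (sup_null hB hlim hU uU pU a hK hθ.2.2 hpos).and hC
    rw [eventually_atTop] at this
    obtain ⟨N, hN⟩ := this
    refine ⟨N, fun n hn => ?_⟩
    obtain ⟨h1, h2⟩ := hN n hn.le
    rw [dist_zero_right]
    set η := ε / (2 * (M * (|C| + 1) + 1)) with hη
    have ip : IntegrableOn (fun z => ‖V n b z * Z n c z - 0‖) (tsupport θ) :=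
      ContinuousOn.integrableOn_compact hK
        (((((hV.smooth n b).mul (hZ.smooth n c)).continuousOn.mono hθ.2.2).sub
          continuousOn_const).norm)
    have e : (h n : ℂ) * M3 θ U V Z a b c n =
        ∫ z in tsupport θ, (h n : ℂ) * ((θ z : ℂ) * (U n a z * V n b z * Z n c z)) := by
      unfold M3
      rw [← integral_const_mul]
      refine (setIntegral_eq_integral_of_forall_compl_eq_zero (fun z hz => ?_)).symm
      rw [image_eq_zero_of_notMem_tsupport hz]; simp
    rw [e]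
    have bb : ‖∫ z in tsupport θ, (h n : ℂ) * ((θ z : ℂ) * (U n a z * V n b z * Z n c z))‖ ≤
        ∫ z in tsupport θ, (M * η) * ‖V n b z * Z n c z - 0‖ := by
      refine norm_integral_le_of_norm_le (ip.const_mul _) ?_
      refine (ae_restrict_iff' hK.measurableSet).2 (Eventually.of_forall fun z hz => ?_)
      rw [norm_mul, norm_mul, mul_assoc, norm_mul (U n a z), Complex.norm_real, Complex.norm_real,
        Real.norm_eq_abs (h n), sub_zero]
      have a1 := hb z hz
      have a2 := h1 z hz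
      calc |h n| * (‖θ z‖ * (‖U n a z‖ * ‖V n b z * Z n c z‖)) =
            ‖θ z‖ * (|h n| * ‖U n a z‖) * ‖V n b z * Z n c z‖ := by ring
        _ ≤ M * η * ‖V n b z * Z n c z‖ := by gcongr
    refine bb.trans_lt ?_
    rw [integral_const_mul]
    have hC' : ∫ z in tsupport θ, ‖V n b z * Z n c z - 0‖ ≤ |C| + 1 :=
      h2.trans (by linarith [le_abs_self C])
    calc M * η * ∫ z in tsupport θ, ‖V n b z * Z n c z - 0‖
        ≤ M * η * (|C| + 1) := by gcongr
      _ = (M * (|C| + 1)) / (M * (|C| + 1) + 1) * (ε / 2) := by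
          rw [hη]; field_simp
      _ ≤ 1 * (ε / 2) := by
          gcongr
          rw [div_le_one (by positivity)]; linarith
      _ < ε := by linarith
  exact h0

lemma prod3_d {B : Set ℂ} (hB : IsOpen B) {p q r : ℂ → ℂ} (hp : ContDiffOn ℝ ∞ p B)
    (hq : ContDiffOn ℝ ∞ q B) (hr : ContDiffOn ℝ ∞ r B) {z : ℂ} (hz : z ∈ B) (v : ℂ) :
    fderiv ℝ (fun z => p z * q z * r z) z v = q z * r z * fderiv ℝ p z v +
      p z * r z * fderiv ℝ q z v + p z * q z * fderiv ℝ r z v := by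
  have h1 := prod_d hB (hp.mul hq) hr hz v
  have h2 := prod_d hB hp hq hz v
  change fderiv ℝ (fun z => p z * q z * r z) z v = _ at h1
  rw [h1]
  change p z * q z * fderiv ℝ r z v + r z * fderiv ℝ (fun z => p z * q z) z v = _
  rw [h2]; ring

/-- the ladder relations for the three point moments -/
theorem rel {B : Set ℂ} (hB : IsOpen B) {h : ℕ → ℝ} (hlim : Tendsto h atTop (𝓝 0))
    {U V Z : ℕ → ℤ → ℂ → ℂ} (hU : Fam B h U) (hV : Fam B h V) (hZ : Fam B h Z)
    (uU : Unit2 B U) (pU : Pair B U U CC) (uV : Unit2 B V) (uZ : Unit2 B Z)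
    {φ : ℂ → ℝ} (hφ : TF B φ) {s : ℤ} (hs : s = 1 ∨ s = -1) (a b c : ℤ) :
    Null (fun n => M3 φ U V Z (a - s) b c n + M3 φ U V Z a (b - s) c n +
      M3 φ U V Z a b (c - s) n) := by
  have n1 := h3_null hB hlim hU hV hZ uU pU uV uZ (tfx hφ) a b c
  have n2 := h3_null hB hlim hU hV hZ uU pU uV uZ (tfy hφ) a b c
  refine Tendsto.congr (fun n => ?_) (Null.add (Null.cmul n1 s) (Null.cmul n2 (s * s * I)))
  have hG : ContDiffOn ℝ ∞ (fun z => U n a z * V n b z * Z n c z) B :=
    ((hU.smooth n a).mul (hV.smooth n b)).mul (hZ.smooth n c)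
  have P := pD hB hφ hG (h n) (s * I)
  have i : ∀ a b c, Integrable (fun z => (φ z : ℂ) * (U n a z * V n b z * Z n c z)) :=
    fun a b c => int_mul hB hφ (((hU.smooth n a).mul (hV.smooth n b)).mul
      (hZ.smooth n c)).continuousOn
  have i1 := i (a - s) b c
  have i2 := i a (b - s) c
  have i3 := i a b (c - s)
  have i12 : Integrable (fun z => (φ z : ℂ) * (U n (a - s) z * V n b z * Z n c z) +
    (φ z : ℂ) * (U n a z * V n (b - s) z * Z n c z)) := i1.add i2
  have e : ∫ z, (φ z : ℂ) * ((h n : ℂ) * (dx (fun z => U n a z * V n b z * Z n c z) z +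
      (s * I) * dy (fun z => U n a z * V n b z * Z n c z) z)) =
      -s * (M3 φ U V Z (a - s) b c n + M3 φ U V Z a (b - s) c n + M3 φ U V Z a b (c - s) n) := by
    unfold M3
    rw [← integral_add i1 i2, ← integral_add i12 i3, ← integral_const_mul]
    refine integral_congr_ae (Eventually.of_forall fun z => ?_)
    simp only
    by_cases hz : z ∈ B
    · have e1 := Fam.ds hU hs n a hz
      have e2 := Fam.ds hV hs n b hz
      have e3 := Fam.ds hZ hs n c hz
      have p := prod3_d hB (hU.smooth n a) (hV.smooth n b) (hZ.smooth n c) hz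
      simp only [Ds, dx, dy] at e1 e2 e3 ⊢
      rw [p, p]
      linear_combination ((φ z : ℂ) * V n b z * Z n c z) * e1 +
        ((φ z : ℂ) * U n a z * Z n c z) * e2 + ((φ z : ℂ) * U n a z * V n b z) * e3
    · rw [TF.zero hφ hz]; simp
  rw [e] at P
  have hs2 : (s : ℂ) * s = 1 := by
    rcases hs with rfl | rfl <;> simp
  simp only [M3] at P ⊢
  linear_combination (s : ℂ) * P + ((∫ z, (φ z : ℂ) * (U n (a-s) z * V n b z * Z n c z)) +
    (∫ z, (φ z : ℂ) * (U n a z * V n (b-s) z * Z n c z)) +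
    (∫ z, (φ z : ℂ) * (U n a z * V n b z * Z n (c-s) z))) * hs2

/-- quadratic relation -/
lemma relQ {M : ℤ → ℤ → ℤ → ℕ → ℂ}
    (r1 : ∀ a b c, Null (fun n => M (a+1) b c n + M a (b+1) c n + M a b (c+1) n))
    (r2 : ∀ a b c, Null (fun n => M (a-1) b c n + M a (b-1) c n + M a b (c-1) n)) (a b c : ℤ) :
    Null (fun n => M (a+2) b c n + M (a+1) (b+1) c n + M a (b+2) c n) := by
  have h1 := r1 (a+1) b c
  have h2 := r1 a (b+1) c
  have h3 := r2 (a+1) (b+1) (c+1)
  refine Tendsto.congr (fun n => ?_) (Null.sub (Null.add h1 h2) h3)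
  have e1 : a + 1 + 1 = a + 2 := by ring
  have e2 : b + 1 + 1 = b + 2 := by ring
  have e3 : a + 1 - 1 = a := by ring
  have e4 : b + 1 - 1 = b := by ring
  have e5 : c + 1 - 1 = c := by ring
  rw [e1, e2, e3, e4, e5]
  ring

lemma relS {M : ℤ → ℤ → ℤ → ℕ → ℂ}
    (r1 : ∀ a b c, Null (fun n => M (a+1) b c n + M a (b+1) c n + M a b (c+1) n))
    (r2 : ∀ a b c, Null (fun n => M (a-1) b c n + M a (b-1) c n + M a b (c-1) n)) (a b c : ℤ) :
    Null (fun n => M (a+4) b c n + M (a+2) (b+2) c n + M a (b+4) c n) := by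
  have h1 := relQ r1 r2 (a+2) b c
  have h2 := relQ r1 r2 (a+1) (b+1) c
  have h3 := relQ r1 r2 a (b+2) c
  refine Tendsto.congr (fun n => ?_) (Null.add (Null.sub h1 h2) h3)
  have e1 : a + 2 + 2 = a + 4 := by ring
  have e2 : a + 2 + 1 = a + 3 := by ring
  have e3 : a + 1 + 2 = a + 3 := by ring
  have e4 : a + 1 + 1 = a + 2 := by ring
  have e5 : b + 1 + 1 = b + 2 := by ring
  have e6 : b + 1 + 2 = b + 3 := by ring
  have e7 : b + 2 + 1 = b + 3 := by ring
  have e8 : b + 2 + 2 = b + 4 := by ring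
  rw [e1, e2, e3, e4, e5, e6, e7, e8]
  ring

end

end Pool.Agent.Y265.RW
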