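import Pool.Agent.Y265.RW.W2

/-! Sup bounds: `h sup |U_a| → 0` locally uniformly. -/
set_option autoImplicit false
open MeasureTheory Filter Topology Complex
open scoped ContDiff Manifold

namespace Pool.Agent.Y265.RW

open Pool.Agent.W745.RW

noncomputable section

/-- sequences of smooth compactly supported functions with uniformly small potentials -/
def NG (f : ℕ → ℂ → ℂ) : Prop := (∀ n, SC (f n)) ∧
  ∀ K : Set ℂ, IsCompact K → ∀ ε : ℝ, 0 < ε → ∀ᶠ n in atTop, ∀ z ∈ K, ‖GG (f n) z‖ ≤ ε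

lemma NG.add {f g : ℕ → ℂ → ℂ} (hf : NG f) (hg : NG g) : NG (fun n z => f n z + g n z) := by
  refine ⟨fun n => (hf.1 n).add (hg.1 n), fun K hK ε hε => ?_⟩
  filter_upwards [hf.2 K hK (ε/2) (by positivity), hg.2 K hK (ε/2) (by positivity)] with n h1 h2 z hz
  rw [GG_add (hf.1 n) (hg.1 n)]
  have := norm_add_le (GG (f n) z) (GG (g n) z)
  linarith [h1 z hz, h2 z hz]

lemma SC.cmul {f : ℂ → ℂ} (hf : SC f) (c : ℂ) : SC (fun z => c * f z) :=
  ⟨contDiff_const.mul hf.1, hf.2.mul_left⟩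

lemma GG_cmul (c : ℂ) (f : ℂ → ℂ) (z : ℂ) : GG (fun w => c * f w) z = c * GG f z := by
  unfold GG
  rw [integral_const_mul]

lemma NG.cmul {f : ℕ → ℂ → ℂ} (hf : NG f) (c : ℂ) : NG (fun n z => c * f n z) := by
  refine ⟨fun n => (hf.1 n).cmul c, fun K hK ε hε => ?_⟩
  filter_upwards [hf.2 K hK (ε/(‖c‖+1)) (by positivity)] with n h1 z hz
  rw [GG_cmul, norm_mul]
  have h2 := h1 z hz
  have h3 := mul_le_mul_of_nonneg_left h2 (norm_nonneg c)
  refine h3.trans ?_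
  rw [mul_div_assoc', div_le_iff₀ (by positivity)]
  nlinarith [norm_nonneg c]

lemma GG_bound {B : Set ℂ} (hB : IsOpen B) {ψ : ℂ → ℝ} (hψ : TF B ψ) {F : ℕ → ℂ → ℂ}
    (hF : ∀ n, ContDiffOn ℝ ∞ (F n) B) (hb : L1b B F) :
    ∃ C : ℝ, ∀ᶠ n in atTop, ∀ z, ‖GG (fun w => (ψ w : ℂ) * F n w) z‖ ≤ C := by
  have hK : IsCompact (tsupport ψ) := hψ.2.1
  obtain ⟨C, hC⟩ := hb (tsupport ψ) hK hψ.2.2
  obtain ⟨M', hM'⟩ := hK.exists_bound_of_continuousOn hψ.1.continuous.continuousOn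
  set M := max M' 0 with hM
  have hM0 : 0 ≤ M := le_max_right _ _
  have hb : ∀ z ∈ tsupport ψ, ‖ψ z‖ ≤ M := fun z hz => (hM' z hz).trans (le_max_left _ _)
  refine ⟨M * C, ?_⟩
  filter_upwards [hC] with n hn z
  have i := int_mul hB hψ (hF n).continuousOn
  have iF : IntegrableOn (fun z => ‖F n z‖) (tsupport ψ) :=
    ContinuousOn.integrableOn_compact hK (((hF n).continuousOn.mono hψ.2.2).norm)
  unfold GG
  calc ‖∫ w in qd z, (ψ w : ℂ) * F n w‖ ≤ ∫ w in qd z, ‖(ψ w : ℂ) * F n w‖ :=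
        norm_integral_le_integral_norm _
    _ ≤ ∫ w, ‖(ψ w : ℂ) * F n w‖ :=
        setIntegral_le_integral i.norm (Eventually.of_forall fun w => norm_nonneg _)
    _ = ∫ w in tsupport ψ, ‖(ψ w : ℂ) * F n w‖ := by
        refine (setIntegral_eq_integral_of_forall_compl_eq_zero (fun w hw => ?_)).symm
        rw [image_eq_zero_of_notMem_tsupport hw]; simp
    _ ≤ ∫ w in tsupport ψ, M * ‖F n w‖ := by
        refine setIntegral_mono_on i.norm.integrableOn (iF.const_mul _) hK.measurableSet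
          (fun w hw => ?_)
        rw [norm_mul, Complex.norm_real]
        exact mul_le_mul_of_nonneg_right (hb w hw) (norm_nonneg _)
    _ = M * ∫ w in tsupport ψ, ‖F n w‖ := integral_const_mul _ _
    _ ≤ M * C := mul_le_mul_of_nonneg_left hn hM0

lemma NG.h {B : Set ℂ} (hB : IsOpen B) {h : ℕ → ℝ} (hlim : Tendsto h atTop (𝓝 0))
    {ψ : ℂ → ℝ} (hψ : TF B ψ) {F : ℕ → ℂ → ℂ}
    (hF : ∀ n, ContDiffOn ℝ ∞ (F n) B) (hb : L1b B F) :
    NG (fun n z => (h n : ℂ) * ((ψ z : ℂ) * F n z)) := by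
  obtain ⟨C, hC⟩ := GG_bound hB hψ hF hb
  refine ⟨fun n => (tfS hB hψ (hF n)).cmul _, fun K hK ε hε => ?_⟩
  have h1 : Tendsto (fun n => |h n| * C) atTop (𝓝 0) := by
    have := hlim.abs.mul_const C
    rwa [abs_zero, zero_mul] at this
  filter_upwards [hC, h1.eventually (gt_mem_nhds hε)] with n h2 h3 z _
  rw [GG_cmul, norm_mul, Complex.norm_real, Real.norm_eq_abs]
  exact (mul_le_mul_of_nonneg_left (h2 z) (abs_nonneg _)).trans h3.le

lemma NG.h2 {B : Set ℂ} (hB : IsOpen B) {h : ℕ → ℝ} (hlim : Tendsto h atTop (𝓝 0))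
    {ψ : ℂ → ℝ} (hψ : TF B ψ) {F : ℕ → ℂ → ℂ}
    (hF : ∀ n, ContDiffOn ℝ ∞ (F n) B) (hb : L1b B F) :
    NG (fun n z => (h n : ℂ) * ((h n : ℂ) * ((ψ z : ℂ) * F n z))) := by
  have hl : Tendsto (fun n => h n * h n) atTop (𝓝 0) := by
    have := hlim.mul hlim
    rwa [mul_zero] at this
  have := NG.h hB hl hψ hF hb
  refine ⟨fun n => ((tfS hB hψ (hF n)).cmul _).cmul _, fun K hK ε hε => ?_⟩
  filter_upwards [this.2 K hK ε hε] with n hn z hz
  have e : (fun z => (h n : ℂ) * ((h n : ℂ) * ((ψ z : ℂ) * F n z))) =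
      fun z => ((h n * h n : ℝ) : ℂ) * ((ψ z : ℂ) * F n z) := by
    funext z; push_cast; ring
  rw [e]
  exact hn z hz

/-- `h(∂x + s i ∂y)` -/
def Ds (h : ℝ) (s : ℤ) (f : ℂ → ℂ) (z : ℂ) : ℂ := (h : ℂ) * (dx f z + s * I * dy f z)

lemma Fam.ds {B : Set ℂ} {h : ℕ → ℝ} {U : ℕ → ℤ → ℂ → ℂ} (hU : Fam B h U) {s : ℤ}
    (hs : s = 1 ∨ s = -1) (n : ℕ) (a : ℤ) {z : ℂ} (hz : z ∈ B) :
    Ds (h n) s (U n a) z = - s * U n (a - s) z := by
  rcases hs with rfl | rfl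
  · have := hU.dm n a z hz
    simp only [Dm] at this
    simp only [Ds]
    push_cast
    linear_combination this
  · have := hU.dp n a z hz
    simp only [Dp] at this
    simp only [Ds]
    push_cast
    rw [sub_neg_eq_add]
    linear_combination this

lemma Ds_loc {B : Set ℂ} (hB : IsOpen B) {h : ℕ → ℝ} {U V : ℕ → ℤ → ℂ → ℂ} (hU : Fam B h U)
    (hV : Fam B h V) {s : ℤ} (hs : s = 1 ∨ s = -1) {ψ : ℂ → ℝ} (hψ : TF B ψ) (n : ℕ) (b c : ℤ)
    (z : ℂ) :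
    Ds (h n) s (fun z => (ψ z : ℂ) * (U n b z * V n c z)) z =
      (h n : ℂ) * (((dx ψ z : ℝ) : ℂ) * (U n b z * V n c z)) +
      (s * I) * ((h n : ℂ) * (((dy ψ z : ℝ) : ℂ) * (U n b z * V n c z))) +
      (-s) * ((ψ z : ℂ) * (U n (b - s) z * V n c z)) +
      (-s) * ((ψ z : ℂ) * (U n b z * V n (c - s) z)) := by
  have l := loc_d hB hψ ((hU.smooth n b).mul (hV.smooth n c)) z
  simp only [Ds, dx, dy]
  rw [l, l]
  by_cases hz : z ∈ B
  · have e1 := Fam.ds hU hs n b hz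
    have e2 := Fam.ds hV hs n c hz
    have p := prod_d hB (hU.smooth n b) (hV.smooth n c) hz
    simp only [Ds, dx, dy] at e1 e2
    rw [p, p]
    linear_combination ((ψ z : ℂ) * V n c z) * e1 + ((ψ z : ℂ) * U n b z) * e2
  · have h0 : ψ =ᶠ[𝓝 z] 0 := notMem_tsupport_iff_eventuallyEq.1 (fun h => hz (hψ.2.2 h))
    have e2 : fderiv ℝ ψ z = 0 := by
      rw [h0.fderiv_eq]; simp
    rw [TF.zero hψ hz, e2]; simp

lemma Ds_add {f g : ℂ → ℂ} (hf : ContDiff ℝ ∞ f) (hg : ContDiff ℝ ∞ g) (h : ℝ) (s : ℤ) (z : ℂ) :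
    Ds h s (fun z => f z + g z) z = Ds h s f z + Ds h s g z := by
  have h1 := (hf.differentiable (by simp) z).hasFDerivAt
  have h2 := (hg.differentiable (by simp) z).hasFDerivAt
  have := (h1.add h2).fderiv
  change fderiv ℝ (fun z => f z + g z) z = _ at this
  simp only [Ds, dx, dy]
  rw [this]
  simp; ring

lemma Ds_cmul {f : ℂ → ℂ} (hf : ContDiff ℝ ∞ f) (h : ℝ) (s : ℤ) (c z : ℂ) :
    Ds h s (fun z => c * f z) z = c * Ds h s f z := by
  have h1 := (hf.differentiable (by simp) z).hasFDerivAt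
  have := (h1.const_mul c).fderiv
  change fderiv ℝ (fun z => c * f z) z = _ at this
  simp only [Ds, dx, dy]
  rw [this]
  simp; ring

lemma NG.congr {f g : ℕ → ℂ → ℂ} (hf : NG f) (h : ∀ n z, f n z = g n z) : NG g := by
  have : f = g := by funext n z; exact h n z
  rwa [← this]

/-- membership of the second order terms -/
lemma NG_DD {B : Set ℂ} (hB : IsOpen B) {h : ℕ → ℝ}
    (hlim : Tendsto h atTop (𝓝 0)) {U : ℕ → ℤ → ℂ → ℂ} (hU : Fam B h U)
    (uU : Unit2 B U) (pU : Pair B U U CC) {s : ℤ} (hs : s = 1 ∨ s = -1) {ζ : ℂ → ℝ}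
    (hζ : TF B ζ) (a : ℤ) :
    NG (fun n z => Ds (h n) s (Ds (h n) s (fun z => (ζ z : ℂ) * (U n a z * U n (-a) z))) z) := by
  have sm : ∀ b c n, ContDiffOn ℝ ∞ (fun z => U n b z * U n c z) B := fun b c n =>
    (hU.smooth n b).mul (hU.smooth n c)
  have lb : ∀ b c, L1b B (fun n z => U n b z * U n c z) := by
    intro b c
    have := Unit2.L1b hB hU hU uU uU b c 0
    simpa using this
  have N1 : ∀ {ψ : ℂ → ℝ}, TF B ψ → ∀ b c, NG (fun n z => (h n : ℂ) * ((ψ z : ℂ) *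
      (U n b z * U n c z))) := fun hψ b c => NG.h hB hlim hψ (sm b c) (lb b c)
  have N2 : ∀ {ψ : ℂ → ℝ}, TF B ψ → ∀ b c, NG (fun n z => (h n : ℂ) * ((h n : ℂ) * ((ψ z : ℂ) *
      (U n b z * U n c z)))) := fun hψ b c => NG.h2 hB hlim hψ (sm b c) (lb b c)
  have N0 : ∀ {ψ : ℂ → ℝ}, TF B ψ → ∀ b c, b + c ≠ 0 → NG (fun n z => (ψ z : ℂ) *
      (U n b z * U n c z)) := by
    intro ψ hψ b c hbc
    refine ⟨fun n => tfS hB hψ (sm b c n), ?_⟩
    have := Unit2.UG hB hU hU uU uU pU b c ψ hψ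
    have hc : CC b c = 0 := by unfold CC; rw [if_neg hbc]
    rw [hc] at this
    simpa using this
  -- `h D(ψ G)`
  have N3 : ∀ {ψ : ℂ → ℝ}, TF B ψ → ∀ b c, NG (fun n z => (h n : ℂ) * Ds (h n) s (fun z =>
      (ψ z : ℂ) * (U n b z * U n c z)) z) := by
    intro ψ hψ b c
    refine NG.congr (((N2 (tfx hψ) b c).add ((N2 (tfy hψ) b c).cmul (s * I))).add
      (((N1 hψ (b - s) c).cmul (-s)).add ((N1 hψ b (c - s)).cmul (-s)))) ?_
    intro n z
    rw [Ds_loc hB hU hU hs hψ n b c z]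
    ring
  have N4 : ∀ b c, b + c - s ≠ 0 → NG (fun n z => Ds (h n) s (fun z =>
      (ζ z : ℂ) * (U n b z * U n c z)) z) := by
    intro b c hbc
    refine NG.congr (((N1 (tfx hζ) b c).add ((N1 (tfy hζ) b c).cmul (s * I))).add
      (((N0 hζ (b - s) c (by omega)).cmul (-s)).add ((N0 hζ b (c - s) (by omega)).cmul (-s)))) ?_
    intro n z
    rw [Ds_loc hB hU hU hs hζ n b c z]
    ring
  have hs0 : s ≠ 0 := by rcases hs with h | h <;> omega
  refine NG.congr (((N3 (tfx hζ) a (-a)).add ((N3 (tfy hζ) a (-a)).cmul (s * I))).add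
    (((N4 (a - s) (-a) (by omega)).cmul (-s)).add ((N4 a (-a - s) (by omega)).cmul (-s)))) ?_
  intro n z
  have e : Ds (h n) s (fun z => (ζ z : ℂ) * (U n a z * U n (-a) z)) = fun z =>
      ((h n : ℂ) * (((dx ζ z : ℝ) : ℂ) * (U n a z * U n (-a) z)) +
      (s * I) * ((h n : ℂ) * (((dy ζ z : ℝ) : ℂ) * (U n a z * U n (-a) z)))) +
      ((-s) * ((ζ z : ℂ) * (U n (a - s) z * U n (-a) z)) +
      (-s) * ((ζ z : ℂ) * (U n a z * U n (-a - s) z))) := by
    funext z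
    rw [Ds_loc hB hU hU hs hζ n a (-a) z]
    ring
  have s1 := (tfS hB (tfx hζ) (sm a (-a) n)).1
  have s2 := (tfS hB (tfy hζ) (sm a (-a) n)).1
  have s3 := (tfS hB hζ (sm (a - s) (-a) n)).1
  have s4 := (tfS hB hζ (sm a (-a - s) n)).1
  have t1 := contDiff_const (c := (h n : ℂ)) |>.mul s1
  have t2' := contDiff_const (c := (h n : ℂ)) |>.mul s2
  have t2 := contDiff_const (c := (s * I : ℂ)) |>.mul t2'
  have t3 := contDiff_const (c := (-s : ℂ)) |>.mul s3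
  have t4 := contDiff_const (c := (-s : ℂ)) |>.mul s4
  rw [e, Ds_add (t1.add t2) (t3.add t4), Ds_add t1 t2, Ds_add t3 t4, Ds_cmul s1, Ds_cmul t2',
    Ds_cmul s2, Ds_cmul s3, Ds_cmul s4]

lemma DD_eq {P : ℂ → ℂ} (hP : ContDiff ℝ ∞ P) (h : ℝ) (z : ℂ) :
    (I / 4) * Ds h (-1) (Ds h (-1) P) z + (-I / 4) * Ds h 1 (Ds h 1 P) z =
      (h : ℂ) ^ 2 * dx (dy P) z := by
  have hx := dx_smooth' hP
  have hy := dy_smooth' hP
  have key : ∀ (s : ℤ), Ds h s (Ds h s P) z = (h : ℂ) ^ 2 * (dx (dx P) z + 2 * s * I * dx (dy P) z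
      + (s * I) ^ 2 * dy (dy P) z) := by
    intro s
    have h1 := (hx.differentiable (by simp) z).hasFDerivAt
    have h2 := (hy.differentiable (by simp) z).hasFDerivAt
    have f : HasFDerivAt (Ds h s P) ((h : ℂ) • (fderiv ℝ (dx P) z + (s * I : ℂ) • fderiv ℝ (dy P) z)) z := by
      have := (h1.add (h2.const_mul (s * I : ℂ))).const_mul (h : ℂ)
      refine this.congr_of_eventuallyEq (Eventually.of_forall fun w => ?_)
      simp only [Ds, Pi.add_apply]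
    have e := f.fderiv
    have sy : dy (dx P) z = dx (dy P) z := (symm' hP z).symm
    change (h : ℂ) * (fderiv ℝ (Ds h s P) z 1 + s * I * fderiv ℝ (Ds h s P) z I) = _
    rw [e]
    simp only [_root_.smul_apply, _root_.add_apply, smul_eq_mul]
    simp only [dx, dy] at sy ⊢
    rw [sy]
    ring
  rw [key, key]
  push_cast
  have hI : I * I = -1 := Complex.I_mul_I
  linear_combination (-(h : ℂ) ^ 2 * dx (dy P) z) * hI

/-- `h sup_K |U_a| → 0` -/
theorem sup_null {B : Set ℂ} (hB : IsOpen B) {h : ℕ → ℝ} (hlim : Tendsto h atTop (𝓝 0))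
    {U : ℕ → ℤ → ℂ → ℂ} (hU : Fam B h U)
    (uU : Unit2 B U) (pU : Pair B U U CC) (a : ℤ) {K : Set ℂ} (hK : IsCompact K) (hKB : K ⊆ B)
    {ε : ℝ} (hε : 0 < ε) : ∀ᶠ n in atTop, ∀ z ∈ K, |h n| * ‖U n a z‖ ≤ ε := by
  obtain ⟨ζ, hζ, hζ0, -, hζ1⟩ := cutoff hB hK hKB
  have N := ((NG_DD hB hlim hU uU pU (s := -1) (Or.inr rfl) hζ a).cmul (I/4)).add
    ((NG_DD hB hlim hU uU pU (s := 1) (Or.inl rfl) hζ a).cmul (-I/4))
  filter_upwards [N.2 K hK (ε ^ 2) (by positivity)] with n hn z hz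
  have hP : SC (fun z => (ζ z : ℂ) * (U n a z * U n (-a) z)) :=
    tfS hB hζ ((hU.smooth n a).mul (hU.smooth n (-a)))
  have h1 := hn z hz
  have e : (fun z => (I / 4) * Ds (h n) (-1) (Ds (h n) (-1) (fun z => (ζ z : ℂ) *
      (U n a z * U n (-a) z))) z + (-I / 4) * Ds (h n) 1 (Ds (h n) 1 (fun z => (ζ z : ℂ) *
      (U n a z * U n (-a) z))) z) = fun z => (h n : ℂ) ^ 2 * dx (dy (fun z => (ζ z : ℂ) *
      (U n a z * U n (-a) z))) z := by
    funext w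
    exact DD_eq hP.1 (h n) w
  rw [e, GG_cmul, GG_xy hP, hζ1 z hz] at h1
  have h2 : ‖(h n : ℂ) ^ 2 * (((1 : ℝ) : ℂ) * (U n a z * U n (-a) z))‖ =
      (|h n| * ‖U n a z‖) ^ 2 := by
    rw [norm_mul, norm_mul, norm_mul, norm_pow, Complex.norm_real, Real.norm_eq_abs,
      Fam.norm_neg hU n a (hKB hz), Complex.ofReal_one, norm_one]
    ring
  rw [h2] at h1
  exact abs_le_of_sq_le_sq' h1 hε.le |>.2

end

end Pool.Agent.Y265.RW
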