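import Pool.Agent.Y265.RW.Id

/-! Uniform smallness of quadrant potentials. -/
set_option autoImplicit false
open MeasureTheory Filter Topology Complex
open scoped ContDiff Manifold

namespace Pool.Agent.Y265.RW

open Pool.Agent.W745.RW

noncomputable section

lemma cutoff {B : Set ℂ} (hB : IsOpen B) {K : Set ℂ} (hK : IsCompact K) (hKB : K ⊆ B) :
    ∃ ζ : ℂ → ℝ, TF B ζ ∧ (∀ z, 0 ≤ ζ z) ∧ (∀ z, ζ z ≤ 1) ∧ ∀ z ∈ K, ζ z = 1 := by
  obtain ⟨L, hL, h1, h2⟩ := exists_compact_between hK hB hKB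
  obtain ⟨f, hf1, hf2, hf3⟩ := exists_contMDiffMap_one_nhds_of_subset_interior (n := ⊤)
    (𝓘(ℝ, ℂ)) hK.isClosed h1
  refine ⟨f, ⟨f.contMDiff.contDiff, ?_, ?_⟩, fun z => (hf3 z).1, fun z => (hf3 z).2, ?_⟩
  · exact HasCompactSupport.intro hL hf2
  · refine (closure_minimal ?_ hL.isClosed).trans h2
    intro z hz
    by_contra h
    exact hz (hf2 z h)
  · exact fun z hz => hf1.self_of_nhdsSet z hz

/-- one dimensional transitions -/
def tl (x δ : ℝ) (s : ℝ) : ℝ := Real.smoothTransition ((x + δ - s) / (2 * δ))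
def tb (x δ : ℝ) (s : ℝ) : ℝ :=
  Real.smoothTransition ((x + 2 * δ - s) / δ) * Real.smoothTransition ((s - x + 2 * δ) / δ)

lemma tl_smooth (x δ : ℝ) : ContDiff ℝ ∞ (tl x δ) := by
  unfold tl
  exact Real.smoothTransition.contDiff.comp
    ((contDiff_const.sub contDiff_id).div_const _)

lemma tb_smooth (x δ : ℝ) : ContDiff ℝ ∞ (tb x δ) := by
  unfold tb
  exact (Real.smoothTransition.contDiff.comp ((contDiff_const.sub contDiff_id).div_const _)).mul
    (Real.smoothTransition.contDiff.comp (((contDiff_id.sub contDiff_const).add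
      contDiff_const).div_const _))

lemma tl_nn (x δ s : ℝ) : 0 ≤ tl x δ s := Real.smoothTransition.nonneg _
lemma tl_le (x δ s : ℝ) : tl x δ s ≤ 1 := Real.smoothTransition.le_one _
lemma tb_nn (x δ s : ℝ) : 0 ≤ tb x δ s :=
  mul_nonneg (Real.smoothTransition.nonneg _) (Real.smoothTransition.nonneg _)
lemma tb_le (x δ s : ℝ) : tb x δ s ≤ 1 :=
  mul_le_one₀ (Real.smoothTransition.le_one _) (Real.smoothTransition.nonneg _)
    (Real.smoothTransition.le_one _)

lemma tl_one {x δ s : ℝ} (hδ : 0 < δ) (h : s ≤ x - δ) : tl x δ s = 1 := by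
  apply Real.smoothTransition.one_of_one_le
  rw [le_div_iff₀ (by positivity)]; linarith

lemma tl_zero {x δ s : ℝ} (hδ : 0 < δ) (h : x + δ ≤ s) : tl x δ s = 0 := by
  apply Real.smoothTransition.zero_of_nonpos
  apply div_nonpos_of_nonpos_of_nonneg <;> linarith

lemma tb_one {x δ s : ℝ} (hδ : 0 < δ) (h1 : x - δ ≤ s) (h2 : s ≤ x + δ) : tb x δ s = 1 := by
  unfold tb
  rw [Real.smoothTransition.one_of_one_le, Real.smoothTransition.one_of_one_le, one_mul]
  · rw [le_div_iff₀ hδ]; linarith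
  · rw [le_div_iff₀ hδ]; linarith

lemma tb_zero {x δ s : ℝ} (hδ : 0 < δ) (h : 2 * δ ≤ |s - x|) : tb x δ s = 0 := by
  unfold tb
  rcases le_abs.1 h with h | h
  · rw [Real.smoothTransition.zero_of_nonpos, zero_mul]
    apply div_nonpos_of_nonpos_of_nonneg <;> linarith
  · rw [mul_comm, Real.smoothTransition.zero_of_nonpos, zero_mul]
    apply div_nonpos_of_nonpos_of_nonneg <;> linarith

lemma null_re (x : ℝ) : volume {w : ℂ | w.re = x} = 0 := by
  have h1 : {w : ℂ | w.re = x} = Complex.measurableEquivRealProd ⁻¹' ({x} ×ˢ Set.univ) := by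
    ext w; simp [Complex.measurableEquivRealProd]
  rw [h1, Complex.volume_preserving_equiv_real_prod.measure_preimage
    ((measurableSet_singleton x).prod MeasurableSet.univ).nullMeasurableSet]
  have e2 : (volume : Measure (ℝ × ℝ)) = (volume : Measure ℝ).prod volume := rfl
  rw [e2, Measure.prod_prod]
  simp

lemma null_im (x : ℝ) : volume {w : ℂ | w.im = x} = 0 := by
  have h1 : {w : ℂ | w.im = x} = Complex.measurableEquivRealProd ⁻¹' (Set.univ ×ˢ {x}) := by
    ext w; simp [Complex.measurableEquivRealProd]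
  rw [h1, Complex.volume_preserving_equiv_real_prod.measure_preimage
    (MeasurableSet.univ.prod (measurableSet_singleton x)).nullMeasurableSet]
  have e2 : (volume : Measure (ℝ × ℝ)) = (volume : Measure ℝ).prod volume := rfl
  rw [e2, Measure.prod_prod]
  simp

/-- general strip lemma -/
lemma strip (p : ℂ → ℝ) (hp : Continuous p) (hnull : ∀ x, volume {w : ℂ | p w = x} = 0)
    {ψ : ℂ → ℝ} (hψ : Continuous ψ) (hc : HasCompactSupport ψ) (x C : ℝ) {ε : ℝ} (hε : 0 < ε) :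
    ∃ d > 0, ∀ δ, 0 < δ → δ ≤ d → C * ∫ w, tb x δ (p w) * ψ w < ε := by
  have hlim : Tendsto (fun δ => ∫ w, tb x δ (p w) * ψ w) (𝓝[>] 0) (𝓝 (∫ _ : ℂ, (0 : ℝ))) := by
    refine tendsto_integral_filter_of_dominated_convergence (fun w => |ψ w|) ?_ ?_ ?_ ?_
    · refine Eventually.of_forall fun δ => ?_
      exact (((tb_smooth x δ).continuous.comp hp).mul hψ).aestronglyMeasurable
    · refine Eventually.of_forall fun δ => Eventually.of_forall fun w => ?_
      rw [norm_mul, Real.norm_of_nonneg (tb_nn _ _ _), Real.norm_eq_abs]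
      have := tb_le x δ (p w)
      have h2 := abs_nonneg (ψ w)
      nlinarith
    · exact (hψ.integrable_of_hasCompactSupport hc).abs
    · have : ∀ᵐ w : ℂ, p w ≠ x := by
        rw [ae_iff]; simpa using hnull x
      filter_upwards [this] with w hw
      have hpos : 0 < |p w - x| / 2 := by
        have := abs_pos.2 (sub_ne_zero.2 hw)
        positivity
      refine tendsto_const_nhds.congr' ?_
      filter_upwards [self_mem_nhdsWithin, nhdsWithin_le_nhds (gt_mem_nhds hpos)] with δ h1 h2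
      rw [tb_zero h1 (by linarith), zero_mul]
  rw [integral_zero] at hlim
  have h2 := hlim.const_mul C
  rw [mul_zero] at h2
  have h3 := h2.eventually (gt_mem_nhds hε)
  rw [eventually_nhdsWithin_iff, Metric.eventually_nhds_iff] at h3
  obtain ⟨d, hd, h4⟩ := h3
  refine ⟨d / 2, by positivity, fun δ h1 h2 => h4 ?_ h1⟩
  rw [Real.dist_eq, sub_zero, abs_of_pos h1]; linarith

lemma ind_diff {z z₀ w : ℂ} {δ : ℝ} (hδ : 0 < δ) (hz : z ∈ Metric.ball z₀ δ) :
    |(qd z).indicator (fun _ => (1 : ℝ)) w - tl z₀.re δ w.re * tl z₀.im δ w.im| ≤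
      tb z₀.re δ w.re + tb z₀.im δ w.im := by
  have hz1 : |z.re - z₀.re| < δ := by
    have h1 := Complex.abs_re_le_norm (z - z₀)
    rw [sub_re] at h1
    exact h1.trans_lt (by simpa [dist_eq_norm] using hz)
  have hz2 : |z.im - z₀.im| < δ := by
    have h1 := Complex.abs_im_le_norm (z - z₀)
    rw [sub_im] at h1
    exact h1.trans_lt (by simpa [dist_eq_norm] using hz)
  rw [abs_lt] at hz1 hz2
  have hA : 0 ≤ (qd z).indicator (fun _ => (1 : ℝ)) w := Set.indicator_nonneg (fun _ _ => zero_le_one) _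
  have hA' : (qd z).indicator (fun _ => (1 : ℝ)) w ≤ 1 := by
    by_cases hw : w ∈ qd z
    · rw [Set.indicator_of_mem hw]
    · rw [Set.indicator_of_notMem hw]; norm_num
  have hB : 0 ≤ tl z₀.re δ w.re * tl z₀.im δ w.im := mul_nonneg (tl_nn _ _ _) (tl_nn _ _ _)
  have hB' : tl z₀.re δ w.re * tl z₀.im δ w.im ≤ 1 :=
    mul_le_one₀ (tl_le _ _ _) (tl_nn _ _ _) (tl_le _ _ _)
  have hle1 : |(qd z).indicator (fun _ => (1 : ℝ)) w - tl z₀.re δ w.re * tl z₀.im δ w.im| ≤ 1 := by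
    rw [abs_le]; constructor <;> linarith
  have b1 := tb_nn z₀.re δ w.re
  have b2 := tb_nn z₀.im δ w.im
  by_cases c1 : z₀.re - δ ≤ w.re ∧ w.re ≤ z₀.re + δ
  · have := tb_one hδ c1.1 c1.2
    linarith
  by_cases c2 : z₀.im - δ ≤ w.im ∧ w.im ≤ z₀.im + δ
  · have := tb_one hδ c2.1 c2.2
    linarith
  have key : (qd z).indicator (fun _ => (1 : ℝ)) w = tl z₀.re δ w.re * tl z₀.im δ w.im := by
    by_cases d1 : w.re ≤ z₀.re - δ
    · by_cases d2 : w.im ≤ z₀.im - δ
      · have hm : w ∈ qd z := ⟨by linarith, by linarith⟩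
        rw [Set.indicator_of_mem hm, tl_one hδ d1, tl_one hδ d2, one_mul]
      · have d3 : z₀.im + δ < w.im := by
          by_contra h
          exact c2 ⟨by linarith, by linarith⟩
        have hm : w ∉ qd z := by
          intro h
          have := h.2
          linarith
        rw [Set.indicator_of_notMem hm, tl_zero hδ d3.le, mul_zero]
    · have d3 : z₀.re + δ < w.re := by
        by_contra h
        exact c1 ⟨by linarith, by linarith⟩
      have hm : w ∉ qd z := by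
        intro h
        have := h.1
        linarith
      rw [Set.indicator_of_notMem hm, tl_zero hδ d3.le, zero_mul]
  rw [key, sub_self, abs_zero]
  linarith

lemma TF.mul_smooth {B : Set ℂ} {ψ θ : ℂ → ℝ} (hψ : TF B ψ) (hθ : ContDiff ℝ ∞ θ) :
    TF B (fun w => θ w * ψ w) := by
  refine ⟨hθ.mul hψ.1, hψ.2.1.mul_left, ?_⟩
  exact (closure_mono (Function.support_mul_subset_right _ _)).trans hψ.2.2

lemma cont_mul {B : Set ℂ} (hB : IsOpen B) {ψ : ℂ → ℝ} (hψ : TF B ψ) {F : ℂ → ℂ}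
    (hF : ContinuousOn F B) : Continuous (fun z => (ψ z : ℂ) * F z) := by
  rw [continuous_iff_continuousAt]
  intro z
  by_cases hz : z ∈ B
  · exact (Complex.continuous_ofReal.comp hψ.1.continuous).continuousAt.mul
      (hF.continuousAt (hB.mem_nhds hz))
  · have hz' : z ∉ tsupport ψ := fun h => hz (hψ.2.2 h)
    have h1 : (fun z => (ψ z : ℂ) * F z) =ᶠ[𝓝 z] fun _ => 0 := by
      filter_upwards [notMem_tsupport_iff_eventuallyEq.1 hz'] with w hw
      rw [hw]; simp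
    exact (continuousAt_const).congr h1.symm

lemma cont_mulr {B : Set ℂ} (hB : IsOpen B) {ψ : ℂ → ℝ} (hψ : TF B ψ) {F : ℂ → ℝ}
    (hF : ContinuousOn F B) : Continuous (fun z => ψ z * F z) := by
  rw [continuous_iff_continuousAt]
  intro z
  by_cases hz : z ∈ B
  · exact (hψ.1.continuous).continuousAt.mul
      (hF.continuousAt (hB.mem_nhds hz))
  · have hz' : z ∉ tsupport ψ := fun h => hz (hψ.2.2 h)
    have h1 : (fun z => ψ z * F z) =ᶠ[𝓝 z] fun _ => 0 := by
      filter_upwards [notMem_tsupport_iff_eventuallyEq.1 hz'] with w hw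
      rw [hw]; simp
    exact (continuousAt_const).congr h1.symm

lemma int_mul {B : Set ℂ} (hB : IsOpen B) {ψ : ℂ → ℝ} (hψ : TF B ψ) {F : ℂ → ℂ}
    (hF : ContinuousOn F B) : Integrable (fun z => (ψ z : ℂ) * F z) :=
  (cont_mul hB hψ hF).integrable_of_hasCompactSupport
    (hψ.2.1.comp_left (g := fun x : ℝ => (x : ℂ)) Complex.ofReal_zero).mul_right

lemma int_mulr {B : Set ℂ} (hB : IsOpen B) {ψ : ℂ → ℝ} (hψ : TF B ψ) {F : ℂ → ℝ}
    (hF : ContinuousOn F B) : Integrable (fun z => ψ z * F z) :=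
  (cont_mulr hB hψ hF).integrable_of_hasCompactSupport hψ.2.1.mul_right

lemma TF.zero {B : Set ℂ} {ψ : ℂ → ℝ} (hψ : TF B ψ) {z : ℂ} (hz : z ∉ B) : ψ z = 0 := by
  by_contra hne
  exact hz (hψ.2.2 (subset_tsupport _ hne))

/-- local uniform smallness of the potentials -/
theorem unifG_loc {B : Set ℂ} (hB : IsOpen B) (F : ℕ → ℂ → ℂ) (m : ℕ → ℂ → ℝ) (C : ℝ)
    (hF : ∀ n, ContinuousOn (F n) B) (hm : ∀ n, ContinuousOn (m n) B)
    (hFm : ∀ n, ∀ z ∈ B, ‖F n z‖ ≤ m n z)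
    (h0 : ∀ φ, TF B φ → Null (fun n => ∫ z, (φ z : ℂ) * F n z))
    (h1 : ∀ φ, TF B φ → Tendsto (fun n => ∫ z, φ z * m n z) atTop (𝓝 (C * ∫ z, φ z)))
    {ψ : ℂ → ℝ} (hψ : TF B ψ) (z₀ : ℂ) {ε : ℝ} (hε : 0 < ε) :
    ∃ δ > 0, ∀ᶠ n in atTop, ∀ z ∈ Metric.ball z₀ δ, ‖GG (fun w => (ψ w : ℂ) * F n w) z‖ ≤ ε := by
  -- a nonnegative majorant
  obtain ⟨ζ, hζ, hζ0, -, hζ1⟩ := cutoff hB hψ.2.1.isCompact hψ.2.2
  set ψ' : ℂ → ℝ := fun w => (1 + ψ w ^ 2) * ζ w with hψ'
  have tψ' : TF B ψ' := TF.mul_smooth hζ (contDiff_const.add (hψ.1.pow 2))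
  have hψψ' : ∀ w, |ψ w| ≤ ψ' w := by
    intro w
    by_cases hw : w ∈ tsupport ψ
    · simp only [hψ', hζ1 w hw, mul_one]
      nlinarith [sq_nonneg (|ψ w| - 1), sq_abs (ψ w), abs_nonneg (ψ w)]
    · rw [image_eq_zero_of_notMem_tsupport hw, abs_zero]
      exact mul_nonneg (by positivity) (hζ0 w)
  have hε4 : 0 < ε / 4 := by positivity
  obtain ⟨d1, hd1, hs1⟩ := strip re continuous_re null_re tψ'.1.continuous tψ'.2.1 z₀.re C hε4
  obtain ⟨d2, hd2, hs2⟩ := strip im continuous_im null_im tψ'.1.continuous tψ'.2.1 z₀.im C hε4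
  set δ := min d1 d2 with hδd
  have hδ : 0 < δ := lt_min hd1 hd2
  have hs1 := hs1 δ hδ (min_le_left _ _)
  have hs2 := hs2 δ hδ (min_le_right _ _)
  have sre : ContDiff ℝ ∞ (fun w : ℂ => w.re) := Complex.reCLM.contDiff
  have sim : ContDiff ℝ ∞ (fun w : ℂ => w.im) := Complex.imCLM.contDiff
  have t1 : TF B (fun w => tb z₀.re δ w.re * ψ' w) :=
    TF.mul_smooth tψ' ((tb_smooth _ _).comp sre)
  have t2 : TF B (fun w => tb z₀.im δ w.im * ψ' w) :=
    TF.mul_smooth tψ' ((tb_smooth _ _).comp sim)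
  have t3 : TF B (fun w => (tl z₀.re δ w.re * tl z₀.im δ w.im) * ψ w) :=
    TF.mul_smooth hψ (((tl_smooth _ _).comp sre).mul ((tl_smooth _ _).comp sim))
  have l1 := (h1 _ t1).eventually (gt_mem_nhds hs1)
  have l2 := (h1 _ t2).eventually (gt_mem_nhds hs2)
  have l3 := (h0 _ t3).norm
  rw [norm_zero] at l3
  have l3 := l3.eventually (gt_mem_nhds hε4)
  refine ⟨δ, hδ, ?_⟩
  filter_upwards [l1, l2, l3] with n e1 e2 e3 z hz
  have i3 := int_mul hB t3 (hF n)
  have i1 := int_mulr hB t1 (hm n)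
  have i2 := int_mulr hB t2 (hm n)
  have i0 := (int_mul hB hψ (hF n)).indicator (qd_meas z)
  have g1 : GG (fun w => (ψ w : ℂ) * F n w) z =
      ∫ w, (qd z).indicator (fun w => (ψ w : ℂ) * F n w) w := (integral_indicator (qd_meas z)).symm
  have g2 : GG (fun w => (ψ w : ℂ) * F n w) z =
      (∫ w, ((qd z).indicator (fun w => (ψ w : ℂ) * F n w) w -
        (((tl z₀.re δ w.re * tl z₀.im δ w.im) * ψ w : ℝ) : ℂ) * F n w)) +
      ∫ w, (((tl z₀.re δ w.re * tl z₀.im δ w.im) * ψ w : ℝ) : ℂ) * F n w := by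
    rw [integral_sub i0 i3, g1]; ring
  rw [g2]
  have b : ‖∫ w, ((qd z).indicator (fun w => (ψ w : ℂ) * F n w) w -
        (((tl z₀.re δ w.re * tl z₀.im δ w.im) * ψ w : ℝ) : ℂ) * F n w)‖ ≤
      ∫ w, (tb z₀.re δ w.re * ψ' w * m n w + tb z₀.im δ w.im * ψ' w * m n w) := by
    refine norm_integral_le_of_norm_le (i1.add i2) (Eventually.of_forall fun w => ?_)
    have e : (qd z).indicator (fun w => (ψ w : ℂ) * F n w) w -
        (((tl z₀.re δ w.re * tl z₀.im δ w.im) * ψ w : ℝ) : ℂ) * F n w =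
        (((qd z).indicator (fun _ => (1 : ℝ)) w - tl z₀.re δ w.re * tl z₀.im δ w.im : ℝ) : ℂ)
          * ((ψ w : ℂ) * F n w) := by
      by_cases hw : w ∈ qd z
      · rw [Set.indicator_of_mem hw, Set.indicator_of_mem hw]
        push_cast; ring
      · rw [Set.indicator_of_notMem hw, Set.indicator_of_notMem hw]
        push_cast; ring
    rw [e, norm_mul, norm_mul, Complex.norm_real, Complex.norm_real, Real.norm_eq_abs,
      Real.norm_eq_abs]
    by_cases hwB : w ∈ B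
    · have a1 := ind_diff (w := w) hδ hz
      have a2 := hψψ' w
      have a3 := hFm n w hwB
      have a4 : |ψ w| * ‖F n w‖ ≤ ψ' w * m n w :=
        mul_le_mul a2 a3 (norm_nonneg _) ((abs_nonneg _).trans a2)
      have a5 := mul_le_mul a1 a4 (by positivity) ((abs_nonneg _).trans a1)
      refine a5.trans (le_of_eq ?_)
      ring
    · rw [TF.zero hψ hwB, TF.zero tψ' hwB]
      simp
  rw [integral_add i1 i2] at b
  refine (norm_add_le _ _).trans ?_
  have e3' : ‖∫ w, (((tl z₀.re δ w.re * tl z₀.im δ w.im) * ψ w : ℝ) : ℂ) * F n w‖ < ε / 4 := e3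
  linarith

/-- uniform smallness on compact sets -/
theorem unifG {B : Set ℂ} (hB : IsOpen B) (F : ℕ → ℂ → ℂ) (m : ℕ → ℂ → ℝ) (C : ℝ)
    (hF : ∀ n, ContinuousOn (F n) B) (hm : ∀ n, ContinuousOn (m n) B)
    (hFm : ∀ n, ∀ z ∈ B, ‖F n z‖ ≤ m n z)
    (h0 : ∀ φ, TF B φ → Null (fun n => ∫ z, (φ z : ℂ) * F n z))
    (h1 : ∀ φ, TF B φ → Tendsto (fun n => ∫ z, φ z * m n z) atTop (𝓝 (C * ∫ z, φ z)))
    {ψ : ℂ → ℝ} (hψ : TF B ψ) {K : Set ℂ} (hK : IsCompact K) {ε : ℝ} (hε : 0 < ε) :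
    ∀ᶠ n in atTop, ∀ z ∈ K, ‖GG (fun w => (ψ w : ℂ) * F n w) z‖ ≤ ε := by
  refine hK.induction_on (p := fun s => ∀ᶠ n in atTop, ∀ z ∈ s,
    ‖GG (fun w => (ψ w : ℂ) * F n w) z‖ ≤ ε) ?_ ?_ ?_ ?_
  · exact Eventually.of_forall (fun n p hp => absurd hp (Set.notMem_empty p))
  · intro s t hst ht
    filter_upwards [ht] with n hn p hp using hn p (hst hp)
  · intro s t hs ht
    filter_upwards [hs, ht] with n h1 h2 p hp
    rcases hp with hp | hp
    · exact h1 p hp
    · exact h2 p hp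
  · intro z₀ _
    obtain ⟨δ, hδ, h⟩ := unifG_loc hB F m C hF hm hFm h0 h1 hψ z₀ hε
    exact ⟨Metric.ball z₀ δ, mem_nhdsWithin_of_mem_nhds (Metric.ball_mem_nhds z₀ hδ), h⟩

end

end Pool.Agent.Y265.RW
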