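import Pool.Agent.Y265.RW.F
import Pool.Agent.W75.RW.Two

/-! `L²` bounds and pair correlations for families. -/
set_option autoImplicit false
open MeasureTheory Filter Topology Complex
open scoped ContDiff Manifold

namespace Pool.Agent.Y265.RW

open Pool.Agent.W745.RW
open Pool.Agent.W450.RW.T (parts1)

noncomputable section

def L2b (B : Set ℂ) (U : ℕ → ℤ → ℂ → ℂ) (k : ℤ) : Prop :=
  ∀ K : Set ℂ, IsCompact K → K ⊆ B → ∃ C : ℝ, ∀ᶠ n in atTop, ∫ z in K, ‖U n k z‖ ^ 2 ≤ C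

/-- integration by parts for `h(∂x + s i ∂y)`, `s = ±1` -/
lemma pD {B : Set ℂ} (hB : IsOpen B) {φ : ℂ → ℝ} (hφ : TF B φ) {G : ℂ → ℂ}
    (hG : ContDiffOn ℝ ∞ G B) (h : ℝ) (s : ℂ) :
    ∫ z, (φ z : ℂ) * ((h : ℂ) * (dx G z + s * dy G z)) =
      -(h : ℂ) * ((∫ z, ((dx φ z : ℝ) : ℂ) * G z) + s * ∫ z, ((dy φ z : ℝ) : ℂ) * G z) := by
  have p1 := parts1 hB hφ hG 1
  have p2 := parts1 hB hφ hG I
  have hd : ∀ v : ℂ, ContinuousOn (fun z => fderiv ℝ G z v) B := fun v =>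
    ((hG.fderiv_of_isOpen hB (by simp)).clm_apply contDiffOn_const).continuousOn (𝕜 := ℝ) (n := ∞)
  have i1 := (int_mul hB hφ (hd 1)).const_mul (h : ℂ)
  have i2 := (int_mul hB hφ (hd I)).const_mul ((h : ℂ) * s)
  have e : ∫ z, (φ z : ℂ) * ((h : ℂ) * (dx G z + s * dy G z)) =
      (h : ℂ) * (∫ z, (φ z : ℂ) * fderiv ℝ G z 1) + (h : ℂ) * s * ∫ z, (φ z : ℂ) * fderiv ℝ G z I := by
    rw [← integral_const_mul, ← integral_const_mul, ← integral_add i1 i2]
    refine integral_congr_ae (Eventually.of_forall fun z => ?_)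
    simp only [dx, dy]
    ring
  rw [e, p1, p2]
  simp only [dx, dy]
  ring

/-- two point step -/
lemma step2 {B : Set ℂ} (hB : IsOpen B) {h : ℕ → ℝ} {U V : ℕ → ℤ → ℂ → ℂ} (hU : Fam B h U)
    (hV : Fam B h V) {φ : ℂ → ℝ} (hφ : TF B φ) (n : ℕ) (a b : ℤ) :
    (∫ z, (φ z : ℂ) * (U n (a+1) z * V n b z)) + (∫ z, (φ z : ℂ) * (U n a z * V n (b+1) z)) =
      -(h n : ℂ) * ((∫ z, ((dx φ z : ℝ) : ℂ) * (U n a z * V n b z)) +
        (-I) * ∫ z, ((dy φ z : ℝ) : ℂ) * (U n a z * V n b z)) := by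
  have hG : ContDiffOn ℝ ∞ (fun z => U n a z * V n b z) B := (hU.smooth n a).mul (hV.smooth n b)
  rw [← pD hB hφ hG (h n) (-I)]
  have i1 := int_mul hB hφ ((hU.smooth n (a+1)).mul (hV.smooth n b)).continuousOn
  have i2 := int_mul hB hφ ((hU.smooth n a).mul (hV.smooth n (b+1))).continuousOn
  rw [← integral_add i1 i2]
  refine integral_congr_ae (Eventually.of_forall fun z => ?_)
  simp only
  by_cases hz : z ∈ B
  · have e1 := hU.dp n a z hz
    have e2 := hV.dp n b z hz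
    have p := prod_d hB (hU.smooth n a) (hV.smooth n b) hz
    simp only [dx, dy, Dp] at e1 e2 ⊢
    rw [p, p]
    linear_combination (-(φ z : ℂ) * V n b z) * e1 - ((φ z : ℂ) * U n a z) * e2
  · rw [Pool.Agent.Y265.RW.TF.zero hφ hz]; simp

lemma neg_one_sq (k : ℕ) : ((-1 : ℂ) ^ k) * (-1) ^ k = 1 := by
  rw [← mul_pow]; simp

lemma natAbs_succ (a : ℤ) : ((-1 : ℂ)) ^ (a + 1).natAbs = - (-1) ^ a.natAbs := by
  rcases le_or_gt 0 a with ha | ha
  · have : (a + 1).natAbs = a.natAbs + 1 := by omega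
    rw [this, pow_succ]; ring
  · have : a.natAbs = (a + 1).natAbs + 1 := by omega
    rw [this, pow_succ]; ring

/-- `|U_a|² = (-1)^a U_a U_{-a}` -/
lemma Fam.nsq {B : Set ℂ} {h : ℕ → ℝ} {U : ℕ → ℤ → ℂ → ℂ} (hU : Fam B h U) (n : ℕ) (a : ℤ) {z : ℂ}
    (hz : z ∈ B) : ((‖U n a z‖ ^ 2 : ℝ) : ℂ) = (-1) ^ a.natAbs * (U n a z * U n (-a) z) := by
  have h1 := hU.cj n a z hz
  have h2 := Complex.mul_conj (U n a z)
  rw [h1, Complex.normSq_eq_norm_sq] at h2
  rw [← h2]; ring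

lemma Fam.norm_neg {B : Set ℂ} {h : ℕ → ℝ} {U : ℕ → ℤ → ℂ → ℂ} (hU : Fam B h U) (n : ℕ) (a : ℤ)
    {z : ℂ} (hz : z ∈ B) : ‖U n (-a) z‖ = ‖U n a z‖ := by
  have h1 := hU.cj n a z hz
  have h2 := congrArg norm h1
  rw [norm_mul, norm_pow, _root_.norm_neg, norm_one, one_pow, one_mul, RCLike.norm_conj] at h2
  exact h2.symm

lemma L2b.neg {B : Set ℂ} {h : ℕ → ℝ} {U : ℕ → ℤ → ℂ → ℂ} (hU : Fam B h U) {k : ℤ}
    (hk : L2b B U k) : L2b B U (-k) := by
  intro K hK hKB
  obtain ⟨C, hC⟩ := hk K hK hKB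
  refine ⟨C, ?_⟩
  filter_upwards [hC] with n hn
  refine le_trans (le_of_eq ?_) hn
  refine setIntegral_congr_fun hK.measurableSet (fun z hz => ?_)
  rw [Fam.norm_neg hU n k (hKB hz)]

/-- the inductive step for the `L²` bounds -/
lemma L2b.succ {B : Set ℂ} (hB : IsOpen B) {h : ℕ → ℝ} (hpos : ∀ n, 0 < h n)
    (hlim : Tendsto h atTop (𝓝 0)) {U : ℕ → ℤ → ℂ → ℂ} (hU : Fam B h U) {k : ℤ}
    (hk : L2b B U k) : L2b B U (k + 1) := by
  intro K hK hKB
  obtain ⟨ζ, hζ, hζ0, hζ1, hζK⟩ := cutoff hB hK hKB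
  have hT : IsCompact (tsupport ζ) := hζ.2.1
  obtain ⟨C, hC⟩ := hk (tsupport ζ) hT hζ.2.2
  obtain ⟨M', hM'⟩ := hT.exists_bound_of_continuousOn
    ((tfx hζ).1.continuous.norm.add (tfy hζ).1.continuous.norm).continuousOn
  set M := max M' 0 with hM
  have hM0 : 0 ≤ M := le_max_right _ _
  have hMb : ∀ z, ‖dx ζ z‖ + ‖dy ζ z‖ ≤ M := by
    intro z
    by_cases hz : z ∈ tsupport ζ
    · have h5 : ‖‖dx ζ z‖ + ‖dy ζ z‖‖ ≤ M' := hM' z hz
      rw [Real.norm_of_nonneg (add_nonneg (norm_nonneg _) (norm_nonneg _))] at h5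
      exact h5.trans (le_max_left _ _)
    · have h0 : ζ =ᶠ[𝓝 z] 0 := notMem_tsupport_iff_eventuallyEq.1 hz
      have e2 : fderiv ℝ ζ z = 0 := by
        rw [h0.fderiv_eq]; simp
      simp [dx, dy, e2, hM0]
  refine ⟨(8 * M ^ 2 + 2) * |C|, ?_⟩
  have hle := hlim.eventually (gt_mem_nhds (zero_lt_one))
  filter_upwards [hC, hle] with n hn hn1
  have hn0 := hpos n
  have tφ : TF B (fun z => ζ z * ζ z) := TF.mul_smooth hζ hζ.1
  have st := step2 hB hU hU tφ n k (-k - 1)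
  have e1 : -k - 1 + 1 = -k := by ring
  rw [e1] at st
  have dxx : ∀ z, dx (fun z => ζ z * ζ z) z = 2 * ζ z * dx ζ z := by
    intro z
    have h1 := (hζ.1.differentiable (by simp) z).hasFDerivAt
    have := (h1.mul h1).fderiv
    change fderiv ℝ (fun z => ζ z * ζ z) z = _ at this
    simp only [dx]
    rw [this]
    simp; ring
  have dyy : ∀ z, dy (fun z => ζ z * ζ z) z = 2 * ζ z * dy ζ z := by
    intro z
    have h1 := (hζ.1.differentiable (by simp) z).hasFDerivAt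
    have := (h1.mul h1).fderiv
    change fderiv ℝ (fun z => ζ z * ζ z) z = _ at this
    simp only [dy]
    rw [this]
    simp; ring
  have cU : ∀ j, ContinuousOn (fun z => ‖U n j z‖) B := fun j => (hU.smooth n j).continuousOn.norm
  have cU2 : ∀ j, ContinuousOn (fun z => ‖U n j z‖ ^ 2) B := fun j =>
    (hU.smooth n j).continuousOn.norm.pow 2
  -- the two masses
  have m1 : ((∫ z, ζ z * ζ z * ‖U n (k+1) z‖ ^ 2 : ℝ) : ℂ) =
      (-1) ^ (k+1).natAbs * ∫ z, ((ζ z * ζ z : ℝ) : ℂ) * (U n (k+1) z * U n (-k-1) z) := by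
    rw [← integral_const_mul, ← integral_complex_ofReal]
    refine integral_congr_ae (Eventually.of_forall fun z => ?_)
    simp only
    by_cases hz : z ∈ B
    · have := Fam.nsq hU n (k+1) hz
      rw [show -(k+1) = -k-1 by ring] at this
      push_cast at this ⊢
      rw [this]; ring
    · rw [TF.zero hζ hz]; simp
  have m2 : ((∫ z, ζ z * ζ z * ‖U n k z‖ ^ 2 : ℝ) : ℂ) =
      (-1) ^ k.natAbs * ∫ z, ((ζ z * ζ z : ℝ) : ℂ) * (U n k z * U n (-k) z) := by
    rw [← integral_const_mul, ← integral_complex_ofReal]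
    refine integral_congr_ae (Eventually.of_forall fun z => ?_)
    simp only
    by_cases hz : z ∈ B
    · have := Fam.nsq hU n k hz
      push_cast at this ⊢
      rw [this]; ring
    · rw [TF.zero hζ hz]; simp
  set y := ∫ z, ζ z * ζ z * ‖U n (k+1) z‖ ^ 2 with hy
  set x := ∫ z, ζ z * ζ z * ‖U n k z‖ ^ 2 with hx
  set E : ℂ := (∫ z, ((dx (fun z => ζ z * ζ z) z : ℝ) : ℂ) * (U n k z * U n (-k-1) z)) +
        (-I) * ∫ z, ((dy (fun z => ζ z * ζ z) z : ℝ) : ℂ) * (U n k z * U n (-k-1) z) with hE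
  have rel : (y : ℂ) = (x : ℂ) + (-1) ^ k.natAbs * (h n : ℂ) * E := by
    have s1 := natAbs_succ k
    rw [m1, m2, s1]
    linear_combination (-(-1) ^ k.natAbs) * st
  have cont1 : ContinuousOn (fun z => U n k z * U n (-k-1) z) B :=
    (hU.smooth n k).continuousOn.mul (hU.smooth n (-k-1)).continuousOn
  have iE1 := int_mul hB (tfx tφ) cont1
  have iE2 := (int_mul hB (tfy tφ) cont1).const_mul (-I)
  have iy : Integrable (fun z => ζ z * ζ z * ‖U n (k+1) z‖ ^ 2) := int_mulr hB tφ (cU2 (k+1))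
  have iTk : IntegrableOn (fun z => ‖U n k z‖ ^ 2) (tsupport ζ) :=
    ContinuousOn.integrableOn_compact hT ((cU2 k).mono hζ.2.2)
  have iTk' : Integrable ((tsupport ζ).indicator (fun z => ‖U n k z‖ ^ 2)) := by
    rwa [integrable_indicator_iff hT.measurableSet]
  have bE : (h n) * ‖E‖ ≤ (1/2) * y + (4 * M ^ 2) * |C| := by
    have e : E = ∫ z, (((dx (fun z => ζ z * ζ z) z : ℝ) : ℂ) * (U n k z * U n (-k-1) z) +
        (-I) * (((dy (fun z => ζ z * ζ z) z : ℝ) : ℂ) * (U n k z * U n (-k-1) z))) := by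
      rw [integral_add iE1 iE2, integral_const_mul]
    have b : ‖(h n : ℂ) * E‖ ≤ ∫ z, ((1/2) * (ζ z * ζ z * ‖U n (k+1) z‖ ^ 2) +
        (4 * M ^ 2) * (tsupport ζ).indicator (fun z => ‖U n k z‖ ^ 2) z) := by
      rw [e, ← integral_const_mul]
      refine norm_integral_le_of_norm_le ((iy.const_mul _).add (iTk'.const_mul _))
        (Eventually.of_forall fun z => ?_)
      by_cases hz : z ∈ tsupport ζ
      · have hzB := hζ.2.2 hz
        rw [Set.indicator_of_mem hz, norm_mul, Complex.norm_real, Real.norm_of_nonneg hn0.le,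
          dxx, dyy]
        have q : ((2 * ζ z * dx ζ z : ℝ) : ℂ) * (U n k z * U n (-k-1) z) +
            -I * (((2 * ζ z * dy ζ z : ℝ) : ℂ) * (U n k z * U n (-k-1) z)) =
            ((2 * ζ z : ℝ) : ℂ) * (((dx ζ z : ℝ) : ℂ) - I * ((dy ζ z : ℝ) : ℂ)) *
              (U n k z * U n (-k-1) z) := by push_cast; ring
        rw [q, norm_mul, norm_mul, norm_mul, Complex.norm_real]
        have w1 : ‖((dx ζ z : ℝ) : ℂ) - I * ((dy ζ z : ℝ) : ℂ)‖ ≤ M := by
          refine (norm_sub_le _ _).trans ?_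
          rw [norm_mul, Complex.norm_I, one_mul, Complex.norm_real, Complex.norm_real]
          exact hMb z
        have w2 : ‖U n (-k-1) z‖ = ‖U n (k+1) z‖ := by
          rw [show -k-1 = -(k+1) by ring]
          exact Fam.norm_neg hU n (k+1) hzB
        rw [w2]
        have w3 : ‖2 * ζ z‖ = 2 * ζ z := Real.norm_of_nonneg (by have := hζ0 z; positivity)
        rw [w3]
        set P := ‖U n k z‖
        set Q := ‖U n (k+1) z‖
        have hP : 0 ≤ P := norm_nonneg _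
        have hQ : 0 ≤ Q := norm_nonneg _
        have hz0 := hζ0 z
        have w4 : h n * (2 * ζ z * ‖((dx ζ z : ℝ) : ℂ) - I * ((dy ζ z : ℝ) : ℂ)‖ * (P * Q)) ≤
            1 * (2 * ζ z * M * (P * Q)) := by
          gcongr
        refine w4.trans ?_
        nlinarith [sq_nonneg (ζ z * Q - 2 * M * P), sq_nonneg (M * P)]
      · have h0 : ζ z = 0 := image_eq_zero_of_notMem_tsupport hz
        rw [dxx, dyy, h0]
        simp
        exact mul_nonneg (by positivity) (Set.indicator_nonneg (fun _ _ => by positivity) _)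
    rw [norm_mul, Complex.norm_real, Real.norm_of_nonneg hn0.le] at b
    refine b.trans ?_
    rw [integral_add (iy.const_mul _) (iTk'.const_mul _), integral_const_mul, integral_const_mul,
      integral_indicator hT.measurableSet]
    have : ∫ z in tsupport ζ, ‖U n k z‖ ^ 2 ≤ |C| := hn.trans (le_abs_self C)
    have := mul_le_mul_of_nonneg_left this (by positivity : 0 ≤ 4 * M ^ 2)
    linarith
  have bx : x ≤ |C| := by
    have ix : Integrable (fun z => ζ z * ζ z * ‖U n k z‖ ^ 2) := int_mulr hB tφ (cU2 k)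
    have : x ≤ ∫ z, (tsupport ζ).indicator (fun z => ‖U n k z‖ ^ 2) z := by
      refine integral_mono ix iTk' (fun z => ?_)
      simp only
      by_cases hz : z ∈ tsupport ζ
      · rw [Set.indicator_of_mem hz]
        have h1 : ζ z * ζ z ≤ 1 := mul_le_one₀ (hζ1 z) (hζ0 z) (hζ1 z)
        nlinarith [sq_nonneg ‖U n k z‖]
      · have h0 : ζ z = 0 := image_eq_zero_of_notMem_tsupport hz
        rw [Set.indicator_of_notMem hz, h0]; simp
    rw [integral_indicator hT.measurableSet] at this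
    exact this.trans (hn.trans (le_abs_self C))
  have hfin : y ≤ x + ((1/2) * y + (4 * M ^ 2) * |C|) := by
    have h1 : ((y - x : ℝ) : ℂ) = (-1) ^ k.natAbs * (h n : ℂ) * E := by
      push_cast
      rw [rel]; ring
    have h2 := congrArg norm h1
    rw [Complex.norm_real, norm_mul, norm_mul, norm_pow, _root_.norm_neg, norm_one, one_pow, one_mul,
      Complex.norm_real, Real.norm_of_nonneg hn0.le] at h2
    have h3 := le_abs_self (y - x)
    rw [← Real.norm_eq_abs, h2] at h3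
    linarith
  have hKy : ∫ z in K, ‖U n (k+1) z‖ ^ 2 ≤ y := by
    have a1 : ∫ z in K, ‖U n (k+1) z‖ ^ 2 = ∫ z in K, ζ z * ζ z * ‖U n (k+1) z‖ ^ 2 := by
      refine setIntegral_congr_fun hK.measurableSet (fun z hz => ?_)
      rw [hζK z hz]; ring
    rw [a1]
    refine setIntegral_le_integral iy (Eventually.of_forall fun z => ?_)
    simp only [Pi.zero_apply]
    have := hζ0 z
    positivity
  linarith

lemma L2b.all {B : Set ℂ} (hB : IsOpen B) {h : ℕ → ℝ} (hpos : ∀ n, 0 < h n)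
    (hlim : Tendsto h atTop (𝓝 0)) {U : ℕ → ℤ → ℂ → ℂ} (hU : Fam B h U)
    (h0 : L2b B U 0) (k : ℤ) : L2b B U k := by
  have hn : ∀ k : ℕ, L2b B U k := by
    intro k
    induction k with
    | zero => exact_mod_cast h0
    | succ k ih => exact_mod_cast L2b.succ hB hpos hlim hU ih
  rcases Int.eq_nat_or_neg k with ⟨m, rfl | rfl⟩
  · exact hn m
  · exact L2b.neg hU (hn m)

/-- `∫ θ U_a V_b` is bounded, so `h` times it is null -/
lemma h_null {B : Set ℂ} {h : ℕ → ℝ} (hpos : ∀ n, 0 < h n)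
    (hlim : Tendsto h atTop (𝓝 0)) {U V : ℕ → ℤ → ℂ → ℂ} (hU : Fam B h U) (hV : Fam B h V)
    {a b : ℤ} (bU : L2b B U a) (bV : L2b B V b) {θ : ℂ → ℝ} (hθ : TF B θ) :
    Null (fun n => (h n : ℂ) * ∫ z, (θ z : ℂ) * (U n a z * V n b z)) := by
  have hK : IsCompact (tsupport θ) := hθ.2.1
  obtain ⟨C, hC⟩ := bU (tsupport θ) hK hθ.2.2
  obtain ⟨C', hC'⟩ := bV (tsupport θ) hK hθ.2.2
  obtain ⟨M', hM'⟩ := hK.exists_bound_of_continuousOn hθ.1.continuous.continuousOn
  set M := max M' 0 with hM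
  have hM0 : 0 ≤ M := le_max_right _ _
  have hb : ∀ z ∈ tsupport θ, ‖θ z‖ ≤ M := fun z hz => (hM' z hz).trans (le_max_left _ _)
  have hl : Tendsto (fun n => h n * (M * (C + C'))) atTop (𝓝 0) := by
    have := hlim.mul_const (M * (C + C'))
    rwa [zero_mul] at this
  refine squeeze_zero_norm' ?_ hl
  filter_upwards [hC, hC'] with n h1 h2
  rw [norm_mul, Complex.norm_real, Real.norm_of_nonneg (hpos n).le]
  refine mul_le_mul_of_nonneg_left ?_ (hpos n).le
  have i1 : IntegrableOn (fun z => ‖U n a z‖ ^ 2) (tsupport θ) :=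
    ContinuousOn.integrableOn_compact hK (((hU.smooth n a).continuousOn.mono hθ.2.2).norm.pow 2)
  have i2 : IntegrableOn (fun z => ‖V n b z‖ ^ 2) (tsupport θ) :=
    ContinuousOn.integrableOn_compact hK (((hV.smooth n b).continuousOn.mono hθ.2.2).norm.pow 2)
  have e : ∫ z, (θ z : ℂ) * (U n a z * V n b z) =
      ∫ z in tsupport θ, (θ z : ℂ) * (U n a z * V n b z) := by
    refine (setIntegral_eq_integral_of_forall_compl_eq_zero (fun z hz => ?_)).symm
    rw [image_eq_zero_of_notMem_tsupport hz]; simp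
  rw [e]
  have b : ‖∫ z in tsupport θ, (θ z : ℂ) * (U n a z * V n b z)‖ ≤
      ∫ z in tsupport θ, M * (‖U n a z‖ ^ 2 + ‖V n b z‖ ^ 2) := by
    refine norm_integral_le_of_norm_le ((i1.add i2).const_mul _) ?_
    refine (ae_restrict_iff' hK.measurableSet).2 (Eventually.of_forall fun z hz => ?_)
    rw [norm_mul, norm_mul, Complex.norm_real]
    refine mul_le_mul (hb z hz) ?_ (by positivity) hM0
    nlinarith [sq_nonneg (‖U n a z‖ - ‖V n b z‖), sq_nonneg ‖U n a z‖, sq_nonneg ‖V n b z‖]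
  refine b.trans ?_
  rw [integral_const_mul, integral_add i1 i2]
  exact mul_le_mul_of_nonneg_left (by linarith) hM0

/-- the step for pair correlations -/
lemma step2_null {B : Set ℂ} (hB : IsOpen B) {h : ℕ → ℝ} (hpos : ∀ n, 0 < h n)
    (hlim : Tendsto h atTop (𝓝 0)) {U V : ℕ → ℤ → ℂ → ℂ} (hU : Fam B h U) (hV : Fam B h V)
    (bU : ∀ a, L2b B U a) (bV : ∀ b, L2b B V b) {φ : ℂ → ℝ} (hφ : TF B φ) (a b : ℤ) :
    Null (fun n => (∫ z, (φ z : ℂ) * (U n (a+1) z * V n b z)) +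
      ∫ z, (φ z : ℂ) * (U n a z * V n (b+1) z)) := by
  have n1 := h_null hpos hlim hU hV (bU a) (bV b) (tfx hφ)
  have n2 := h_null hpos hlim hU hV (bU a) (bV b) (tfy hφ)
  refine Tendsto.congr (fun n => ?_) (Null.add (Null.cmul n1 (-1)) (Null.cmul n2 I))
  rw [step2 hB hU hV hφ n a b]
  ring

end

end Pool.Agent.Y265.RW
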